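import Mathlib

/-!
# Consequences of the density property (R): zero dimensionality and normality of the square
-/

set_option autoImplicit false

open Set Filter Topology TopologicalSpace

namespace Pool.Agent.H87.Cons

section General

/-- countable dense subsets of images -/
theorem exists_dense_image {X W : Type} [TopologicalSpace W] [SecondCountableTopology W]
    (g : X → W) (F : Set X) : ∃ D ⊆ F, D.Countable ∧ g '' F ⊆ closure (g '' D) := by
  obtain ⟨s, hsc, hsd⟩ := exists_countable_dense (g '' F)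
  have h1 : ∀ y : (g '' F), ∃ x ∈ F, g x = y := fun y => y.2
  choose! x hxF hx using h1
  refine ⟨x '' s, ?_, hsc.image _, ?_⟩
  · rintro _ ⟨y, _, rfl⟩
    exact hxF y
  · intro y hy
    have hmem : (⟨y, hy⟩ : (g '' F)) ∈ closure s := hsd _
    have h2 : y ∈ closure ((fun z : (g '' F) => (z : W)) '' s) :=
      image_closure_subset_closure_image continuous_subtype_val ⟨_, hmem, rfl⟩
    apply closure_mono _ h2
    rintro _ ⟨z, hz, rfl⟩
    exact ⟨x z, ⟨z, hz, rfl⟩, hx z⟩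

/-- countable clopen basis -/
theorem exists_countable_clopen_basis {P : Type} [TopologicalSpace P] [SecondCountableTopology P]
    (h : IsTopologicalBasis {s : Set P | IsClopen s}) :
    ∃ b : Set (Set P), b.Countable ∧ IsTopologicalBasis b ∧ ∀ s ∈ b, IsClopen s := by
  classical
  obtain ⟨c, hcc, -, hc⟩ := exists_countable_basis P
  let R : Set P × Set P → Prop := fun u => ∃ C, IsClopen C ∧ u.1 ⊆ C ∧ C ⊆ u.2
  let I : Set (Set P × Set P) := {u | u ∈ c ×ˢ c ∧ R u}
  have hI : I.Countable := (hcc.prod hcc).mono (fun u hu => hu.1)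
  have hex : ∀ u : Set P × Set P, ∃ C, u ∈ I → (IsClopen C ∧ u.1 ⊆ C ∧ C ⊆ u.2) := by
    intro u
    by_cases hu : u ∈ I
    · obtain ⟨C, hC⟩ := hu.2
      exact ⟨C, fun _ => hC⟩
    · exact ⟨∅, fun h => absurd h hu⟩
  choose C hC using hex
  refine ⟨C '' I, hI.image _, ?_, ?_⟩
  · apply isTopologicalBasis_of_isOpen_of_nhds
    · rintro _ ⟨u, hu, rfl⟩
      exact (hC u hu).1.isOpen
    · intro x O hx hO
      obtain ⟨V, hV, hxV, hVO⟩ := hc.exists_subset_of_mem_open hx hO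
      obtain ⟨D, hD, hxD, hDV⟩ := h.exists_subset_of_mem_open hxV (hc.isOpen hV)
      obtain ⟨U, hU, hxU, hUD⟩ := hc.exists_subset_of_mem_open hxD hD.isOpen
      have hu : (U, V) ∈ I := ⟨⟨hU, hV⟩, D, hD, hUD, hDV⟩
      exact ⟨C (U, V), ⟨_, hu, rfl⟩, (hC _ hu).2.1 hxU, (hC _ hu).2.2.trans hVO⟩
  · rintro _ ⟨u, hu, rfl⟩
    exact (hC u hu).1

/-- separating covers from countable families -/
theorem hasSeparatingCover_of_countable {X : Type} [TopologicalSpace X] (s t : Set X)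
    (c : Set (Set X)) (hc : c.Countable) (hcov : s ⊆ ⋃₀ c)
    (h : ∀ u ∈ c, IsOpen u ∧ Disjoint (closure u) t) : HasSeparatingCover s t := by
  rcases c.eq_empty_or_nonempty with rfl | hne
  · refine ⟨fun _ => ∅, ?_, fun _ => ⟨isOpen_empty, by simp⟩⟩
    simpa using hcov
  · obtain ⟨u, rfl⟩ := hc.exists_eq_range hne
    refine ⟨u, ?_, fun n => h _ ⟨n, rfl⟩⟩
    simpa [sUnion_range] using hcov

end General

variable {X P Q : Type} [TopologicalSpace X] [TopologicalSpace P] [TopologicalSpace Q]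

/-- The map `Φ`. -/
def Phi (ι : X → P) (hh : X × X → Q) (w : X × X) : P × P × Q := (ι w.1, ι w.2, hh w)

/-- The density property. -/
def RProp (ι : X → P) (hh : X × X → Q) : Prop :=
  ∀ A : ℕ → Set (X × X), (∀ j, (A j).Countable) → ∀ L : Set (P × P × Q), IsClosed L →
    (¬ ∃ Y : Set X, Y.Countable ∧ ∀ w, Phi ι hh w ∈ L → w.1 ∈ Y ∨ w.2 ∈ Y) →
    ∃ w, Phi ι hh w ∈ L ∧ ∀ j, Phi ι hh w ∈ closure (Phi ι hh '' A j) → w ∈ closure (A j)

variable {ι : X → P} {hh : X × X → Q}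

/-- (D1) -/
theorem D1 [SecondCountableTopology P] [T2Space P] (hinj : Function.Injective ι)
    (hR : RProp ι hh) (q₀ : Q) (hdiag : ∀ a, hh (a, a) = q₀)
    (F : ℕ → Set X) (hF : ∀ j, IsClosed (F j)) (hemp : ⋂ j, F j = ∅) :
    {x | ∀ j, ι x ∈ closure (ι '' F j)}.Countable := by
  by_contra hunc
  choose D hDF hDc hDd using fun j => exists_dense_image ι (F j)
  let A : ℕ → Set (X × X) := fun j => (fun a => (a, a)) '' D j
  let L : Set (P × P × Q) := {w | w.1 = w.2.1 ∧ ∀ j, w.1 ∈ closure (ι '' F j)}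
  have hL : IsClosed L := by
    have h1 : IsClosed {w : P × P × Q | w.1 = w.2.1} :=
      isClosed_eq continuous_fst (continuous_fst.comp continuous_snd)
    have h2 : IsClosed {w : P × P × Q | ∀ j, w.1 ∈ closure (ι '' F j)} := by
      simp only [setOf_forall]
      exact isClosed_iInter (fun j => isClosed_closure.preimage continuous_fst)
    exact h1.inter h2
  obtain ⟨⟨p, q⟩, hwL, hw⟩ := hR A (fun j => (hDc j).image _) L hL (by
    rintro ⟨Y, hY, h⟩
    apply hunc
    apply hY.mono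
    intro x hx
    have := h (x, x) ⟨rfl, hx⟩
    simpa using this)
  have hpq : p = q := hinj hwL.1
  subst hpq
  have hpF : ∀ j, p ∈ F j := by
    intro j
    have h1 : ι p ∈ closure (ι '' D j) := by
      have h2 : closure (ι '' F j) ⊆ closure (ι '' D j) :=
        closure_minimal (hDd j) isClosed_closure
      exact h2 (hwL.2 j)
    have h3 : Phi ι hh (p, p) ∈ closure (Phi ι hh '' A j) := by
      have hcont : Continuous (fun z : P => ((z, z, q₀) : P × P × Q)) := by fun_prop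
      have h4 : (ι p, ι p, q₀) ∈ closure ((fun z : P => ((z, z, q₀) : P × P × Q)) '' (ι '' D j)) :=
        image_closure_subset_closure_image hcont ⟨ι p, h1, rfl⟩
      have h5 : Phi ι hh (p, p) = (ι p, ι p, q₀) := by simp [Phi, hdiag]
      rw [h5]
      apply closure_mono _ h4
      rintro _ ⟨_, ⟨a, ha, rfl⟩, rfl⟩
      exact ⟨(a, a), ⟨a, ha, rfl⟩, by simp [Phi, hdiag]⟩
    have h6 := hw j h3
    have h7 : p ∈ closure (Prod.fst '' A j) :=
      image_closure_subset_closure_image continuous_fst ⟨_, h6, rfl⟩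
    have h8 : Prod.fst '' A j ⊆ F j := by
      rintro _ ⟨_, ⟨a, ha, rfl⟩, rfl⟩
      exact hDF j ha
    exact (closure_minimal h8 (hF j)) h7
  have : p ∈ ⋂ j, F j := mem_iInter.2 hpF
  rw [hemp] at this
  exact this

/-- (D2) -/
theorem D2 [SecondCountableTopology P] [SecondCountableTopology Q]
    (hR : RProp ι hh) (F G : Set (X × X)) (hF : IsClosed F) (hG : IsClosed G)
    (hdisj : Disjoint F G) :
    ∃ Y : Set X, Y.Countable ∧ ∀ w, Phi ι hh w ∈ closure (Phi ι hh '' F) →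
      Phi ι hh w ∈ closure (Phi ι hh '' G) → w.1 ∈ Y ∨ w.2 ∈ Y := by
  by_contra hcon
  obtain ⟨D, hDF, hDc, hDd⟩ := exists_dense_image (Phi ι hh) F
  obtain ⟨E, hEG, hEc, hEd⟩ := exists_dense_image (Phi ι hh) G
  let A : ℕ → Set (X × X) := fun j => if j = 0 then D else E
  obtain ⟨w, hwL, hw⟩ := hR A (fun j => by by_cases h : j = 0 <;> simp [A, h, hDc, hEc])
    (closure (Phi ι hh '' F) ∩ closure (Phi ι hh '' G)) (isClosed_closure.inter isClosed_closure)
    (by
      rintro ⟨Y, hY, h⟩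
      exact hcon ⟨Y, hY, fun w h1 h2 => h w ⟨h1, h2⟩⟩)
  have h0 := hw 0
  have h1 := hw 1
  simp only [A, if_true, one_ne_zero, if_false] at h0 h1
  have a0 : w ∈ F := by
    have h2 : closure (Phi ι hh '' F) ⊆ closure (Phi ι hh '' D) :=
      closure_minimal hDd isClosed_closure
    exact closure_minimal hDF hF (h0 (h2 hwL.1))
  have a1 : w ∈ G := by
    have h2 : closure (Phi ι hh '' G) ⊆ closure (Phi ι hh '' E) :=
      closure_minimal hEd isClosed_closure
    exact closure_minimal hEG hG (h1 (h2 hwL.2))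
  exact disjoint_left.1 hdisj a0 a1

/-- Finite open covers have clopen partitions refining them. -/
theorem clopen_partition [SecondCountableTopology P] [T2Space P]
    (hbP : IsTopologicalBasis {s : Set P | IsClopen s}) (hι : Continuous ι)
    (hinj : Function.Injective ι) (hR : RProp ι hh) (q₀ : Q) (hdiag : ∀ a, hh (a, a) = q₀)
    (hV : ∀ x : X, ∃ V : ℕ → Set X, (∀ n, IsClopen (V n)) ∧ (𝓝 x).HasBasis (fun _ => True) V)
    (m : ℕ) (U : Fin m → Set X) (hU : ∀ i, IsOpen (U i)) (hcov : ⋃ i, U i = univ) :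
    ∃ V : Fin m → Set X, (∀ i, IsClopen (V i)) ∧ (⋃ i, V i = univ) ∧ (∀ i, V i ⊆ U i) ∧
      ∀ i j, i ≠ j → Disjoint (V i) (V j) := by
  classical
  obtain ⟨b, hbc, hb, hbcl⟩ := exists_countable_clopen_basis hbP
  -- D1 for complements
  let F : ℕ → Set X := fun j => if h : j < m then (U ⟨j, h⟩)ᶜ else univ
  have hF : ∀ j, IsClosed (F j) := by
    intro j
    by_cases h : j < m
    · simp only [F, h, dif_pos]; exact (hU _).isClosed_compl
    · simp only [F, h, dif_neg, not_false_iff]; exact isClosed_univ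
  have hFe : ⋂ j, F j = ∅ := by
    rw [eq_empty_iff_forall_notMem]
    intro x hx
    have hx' : x ∈ ⋃ i, U i := by rw [hcov]; exact mem_univ _
    obtain ⟨i, hi⟩ := mem_iUnion.1 hx'
    have := mem_iInter.1 hx i
    simp only [F, i.2, dif_pos] at this
    exact this hi
  have hcount := D1 hinj hR q₀ hdiag F hF hFe
  set P₀ := {x | ∀ j, ι x ∈ closure (ι '' F j)} with hP₀
  -- the countable clopen family
  have hch : ∀ x : X, ∃ C : Set X, IsClopen C ∧ x ∈ C ∧ ∃ i, C ⊆ U i := by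
    intro x
    have hx' : x ∈ ⋃ i, U i := by rw [hcov]; exact mem_univ _
    obtain ⟨i, hi⟩ := mem_iUnion.1 hx'
    obtain ⟨V, hVc, hVb⟩ := hV x
    obtain ⟨n, -, hn⟩ := hVb.mem_iff.1 ((hU i).mem_nhds hi)
    exact ⟨V n, hVc n, mem_of_mem_nhds (hVb.mem_of_mem trivial), i, hn⟩
  choose C hCc hCx hCU using hch
  let 𝒞 : Set (Set X) := {D | D ∈ (fun O => ι ⁻¹' O) '' b ∧ ∃ i, D ⊆ U i} ∪ C '' P₀
  have h𝒞c : 𝒞.Countable := ((hbc.image _).mono (fun D hD => hD.1)).union (hcount.image _)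
  have h𝒞cl : ∀ D ∈ 𝒞, IsClopen D ∧ ∃ i, D ⊆ U i := by
    rintro D (⟨⟨O, hO, rfl⟩, hi⟩ | ⟨x, _, rfl⟩)
    · exact ⟨(hbcl O hO).preimage hι, hi⟩
    · exact ⟨hCc x, hCU x⟩
  have h𝒞cov : ∀ x, ∃ D ∈ 𝒞, x ∈ D := by
    intro x
    by_cases hx : x ∈ P₀
    · exact ⟨C x, Or.inr ⟨x, hx, rfl⟩, hCx x⟩
    · simp only [hP₀, mem_setOf_eq, not_forall] at hx
      obtain ⟨j, hj⟩ := hx
      have hjm : j < m := by
        by_contra h
        apply hj
        simp only [F, h, dif_neg, not_false_iff]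
        exact subset_closure ⟨x, mem_univ _, rfl⟩
      obtain ⟨O, hO, hxO, hOs⟩ := hb.exists_subset_of_mem_open
        (show ι x ∈ (closure (ι '' F j))ᶜ from hj) isClosed_closure.isOpen_compl
      refine ⟨ι ⁻¹' O, Or.inl ⟨⟨O, hO, rfl⟩, ⟨j, hjm⟩, ?_⟩, hxO⟩
      intro y hy
      by_contra hyU
      apply hOs hy
      apply subset_closure
      refine ⟨y, ?_, rfl⟩
      simp only [F, hjm, dif_pos]
      exact hyU
  -- case of empty space
  rcases isEmpty_or_nonempty X with hX | ⟨⟨x₀⟩⟩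
  · refine ⟨fun _ => ∅, fun _ => isClopen_empty, ?_, fun _ => empty_subset _, fun _ _ _ => by simp⟩
    rw [eq_univ_iff_forall]
    intro x
    exact (hX.false x).elim
  obtain ⟨D₀, hD₀, _⟩ := h𝒞cov x₀
  obtain ⟨c, hc⟩ := h𝒞c.exists_eq_range ⟨D₀, hD₀⟩
  have hc1 : ∀ n, IsClopen (c n) := fun n => (h𝒞cl (c n) (hc ▸ mem_range_self n)).1
  have hc2 : ∀ n, ∃ i, c n ⊆ U i := fun n => (h𝒞cl (c n) (hc ▸ mem_range_self n)).2
  have hc3 : ∀ x, ∃ n, x ∈ c n := by
    intro x
    obtain ⟨D, hD, hxD⟩ := h𝒞cov x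
    rw [hc] at hD
    obtain ⟨n, rfl⟩ := hD
    exact ⟨n, hxD⟩
  choose i hi using hc2
  -- first index
  let N : X → ℕ := fun x => Nat.find (hc3 x)
  have hN : ∀ x, x ∈ c (N x) := fun x => Nat.find_spec (hc3 x)
  have hNopen : ∀ n, IsOpen {x | N x = n} := by
    intro n
    have : {x | N x = n} = c n ∩ ⋂ k ∈ Finset.range n, (c k)ᶜ := by
      ext x
      simp only [mem_setOf_eq, mem_inter_iff, mem_iInter, Finset.mem_range, mem_compl_iff]
      constructor
      · rintro rfl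
        exact ⟨hN x, fun k hk => Nat.find_min (hc3 x) hk⟩
      · rintro ⟨h1, h2⟩
        exact (Nat.find_eq_iff (hc3 x)).2 ⟨h1, h2⟩
    rw [this]
    apply (hc1 n).isOpen.inter
    exact isOpen_biInter_finset (fun k _ => (hc1 k).isClosed.isOpen_compl)
  have hopen : ∀ S : Set ℕ, IsOpen {x | N x ∈ S} := by
    intro S
    have : {x | N x ∈ S} = ⋃ n ∈ S, {x | N x = n} := by
      ext x; simp
    rw [this]
    exact isOpen_biUnion (fun n _ => hNopen n)
  refine ⟨fun k => {x | i (N x) = k}, fun k => ⟨?_, ?_⟩, ?_, ?_, ?_⟩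
  · rw [← isOpen_compl_iff]
    exact hopen {n | i n ≠ k}
  · exact hopen {n | i n = k}
  · rw [eq_univ_iff_forall]
    intro x
    exact mem_iUnion.2 ⟨i (N x), rfl⟩
  · rintro k x rfl
    exact hi _ (hN x)
  · intro k l hkl
    rw [disjoint_left]
    rintro x rfl h
    exact hkl h

theorem normal [SecondCountableTopology P] [T2Space P]
    (hbP : IsTopologicalBasis {s : Set P | IsClopen s}) (hι : Continuous ι)
    (hinj : Function.Injective ι) (hR : RProp ι hh) (q₀ : Q) (hdiag : ∀ a, hh (a, a) = q₀)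
    (hV : ∀ x : X, ∃ V : ℕ → Set X, (∀ n, IsClopen (V n)) ∧ (𝓝 x).HasBasis (fun _ => True) V) :
    NormalSpace X := by
  constructor
  intro F G hF hG hdisj
  let U : Fin 2 → Set X := fun i => if i = 0 then Gᶜ else Fᶜ
  obtain ⟨V, hVc, hVcov, hVU, hVd⟩ := clopen_partition hbP hι hinj hR q₀ hdiag hV 2 U (by
    intro i
    by_cases h : i = 0
    · simp only [U, h, if_true]; exact hG.isOpen_compl
    · simp only [U, h, if_false]; exact hF.isOpen_compl) (by
    rw [eq_univ_iff_forall]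
    intro x
    rw [mem_iUnion]
    by_cases hx : x ∈ G
    · exact ⟨1, fun hxF => disjoint_left.1 hdisj hxF hx⟩
    · exact ⟨0, hx⟩)
  refine ⟨V 0, V 1, (hVc 0).isOpen, (hVc 1).isOpen, ?_, ?_, hVd 0 1 (by simp)⟩
  · intro x hx
    have : x ∈ ⋃ i, V i := by rw [hVcov]; exact mem_univ _
    obtain ⟨i, hi⟩ := mem_iUnion.1 this
    fin_cases i
    · exact hi
    · exact absurd hx (hVU 1 hi)
  · intro x hx
    have : x ∈ ⋃ i, V i := by rw [hVcov]; exact mem_univ _
    obtain ⟨i, hi⟩ := mem_iUnion.1 this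
    fin_cases i
    · exact absurd hx (hVU 0 hi)
    · exact hi

/-- countable families along a vertical line -/
theorem line [SecondCountableTopology P] [T2Space P]
    (hbP : IsTopologicalBasis {s : Set P | IsClopen s}) (hι : Continuous ι)
    (hinj : Function.Injective ι) (hR : RProp ι hh) (q₀ : Q) (hdiag : ∀ a, hh (a, a) = q₀)
    (hV : ∀ x : X, ∃ V : ℕ → Set X, (∀ n, IsClopen (V n)) ∧ (𝓝 x).HasBasis (fun _ => True) V)
    (F G : Set (X × X)) (hF : IsClosed F) (hG : IsClosed G) (hdisj : Disjoint F G) (p : X) :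
    ∃ c : Set (Set (X × X)), c.Countable ∧ (∀ z, (p, z) ∈ F → ∃ u ∈ c, (p, z) ∈ u) ∧
      ∀ u ∈ c, IsClopen u ∧ Disjoint u G := by
  classical
  obtain ⟨b, hbc, hb, hbcl⟩ := exists_countable_clopen_basis hbP
  choose V hVc hVb using hV
  have hVself : ∀ x n, x ∈ V x n := fun x n => mem_of_mem_nhds ((hVb x).mem_of_mem trivial)
  let H : ℕ → Set X := fun m => closure (Prod.snd '' (G ∩ (V p m ×ˢ univ)))
  let S : ℕ → Set X := fun j => if j = 0 then {z | (p, z) ∈ F} else H (j - 1)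
  have hSc : ∀ j, IsClosed (S j) := by
    intro j
    by_cases h : j = 0
    · simp only [S, h, if_true]
      exact hF.preimage (by fun_prop)
    · simp only [S, h, if_false]; exact isClosed_closure
  have hpG : ∀ z, (∀ m, z ∈ H m) → (p, z) ∈ G := by
    intro z hz
    rw [← hG.closure_eq, mem_closure_iff_nhds]
    intro t ht
    rw [nhds_prod_eq] at ht
    obtain ⟨⟨m, l⟩, -, hml⟩ := ((hVb p).prod (hVb z)).mem_iff.1 ht
    obtain ⟨v, hv1, hv2⟩ := mem_closure_iff.1 (hz m) (V z l) (hVc z l).isOpen (hVself z l)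
    obtain ⟨⟨u, v'⟩, ⟨huG, hu, -⟩, rfl⟩ := hv2
    exact ⟨(u, v'), hml ⟨hu, hv1⟩, huG⟩
  have hSe : ⋂ j, S j = ∅ := by
    rw [eq_empty_iff_forall_notMem]
    intro z hz
    have h0 : (p, z) ∈ F := by
      have := mem_iInter.1 hz 0
      simpa [S] using this
    have h1 : (p, z) ∈ G := by
      apply hpG
      intro m
      have := mem_iInter.1 hz (m + 1)
      simpa [S] using this
    exact disjoint_left.1 hdisj h0 h1
  have hcount := D1 hinj hR q₀ hdiag S hSc hSe
  set Z₀ := {x | ∀ j, ι x ∈ closure (ι '' S j)} with hZ₀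
  let c₁ : Set (Set (X × X)) :=
    {u | u ∈ (fun a : ℕ × Set P => V p a.1 ×ˢ (ι ⁻¹' a.2)) '' (univ ×ˢ b) ∧ Disjoint u G}
  let c₂ : Set (Set (X × X)) :=
    {u | u ∈ (fun a : ℕ × X × ℕ => V p a.1 ×ˢ (V a.2.1 a.2.2)) '' (univ ×ˢ Z₀ ×ˢ univ) ∧
      Disjoint u G}
  refine ⟨c₁ ∪ c₂, ?_, ?_, ?_⟩
  · apply Countable.union
    · exact ((countable_univ.prod hbc).image _).mono (fun u hu => hu.1)
    · exact ((countable_univ.prod (hcount.prod countable_univ)).image _).mono (fun u hu => hu.1)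
  · intro z hz
    by_cases hzZ : z ∈ Z₀
    · have hzG : (p, z) ∉ G := disjoint_left.1 hdisj hz
      have hn : Gᶜ ∈ 𝓝 (p, z) := hG.isOpen_compl.mem_nhds hzG
      rw [nhds_prod_eq] at hn
      obtain ⟨⟨m, l⟩, -, hml⟩ := ((hVb p).prod (hVb z)).mem_iff.1 hn
      refine ⟨V p m ×ˢ V z l, Or.inr ⟨⟨(m, z, l), ⟨mem_univ _, hzZ, mem_univ _⟩, rfl⟩, ?_⟩,
        hVself _ _, hVself _ _⟩
      rw [disjoint_left]
      exact fun w hw hwG => hml hw hwG
    · simp only [hZ₀, mem_setOf_eq, not_forall] at hzZ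
      obtain ⟨j, hj⟩ := hzZ
      rcases Nat.eq_zero_or_pos j with rfl | hjpos
      · exfalso
        apply hj
        apply subset_closure
        refine ⟨z, ?_, rfl⟩
        simpa [S] using hz
      · obtain ⟨m, rfl⟩ : ∃ m, j = m + 1 := ⟨j - 1, by omega⟩
        have hSm : S (m + 1) = H m := by simp [S]
        rw [hSm] at hj
        obtain ⟨O, hO, hxO, hOs⟩ := hb.exists_subset_of_mem_open
          (show ι z ∈ (closure (ι '' H m))ᶜ from hj) isClosed_closure.isOpen_compl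
        refine ⟨V p m ×ˢ (ι ⁻¹' O), Or.inl ⟨⟨(m, O), ⟨mem_univ _, hO⟩, rfl⟩, ?_⟩,
          hVself _ _, hxO⟩
        rw [disjoint_left]
        rintro ⟨u, v⟩ ⟨hu, hv⟩ huG
        apply hOs hv
        apply subset_closure
        exact ⟨v, subset_closure ⟨(u, v), ⟨huG, hu, mem_univ _⟩, rfl⟩, rfl⟩
  · rintro u (⟨⟨⟨m, O⟩, ⟨_, hO⟩, rfl⟩, hd⟩ | ⟨⟨⟨m, z, l⟩, _, rfl⟩, hd⟩)
    · exact ⟨(hVc p m).prod ((hbcl O hO).preimage hι), hd⟩
    · exact ⟨(hVc p m).prod (hVc z l), hd⟩

theorem swap_closed {F : Set (X × X)} (hF : IsClosed F) : IsClosed (Prod.swap ⁻¹' F) :=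
  hF.preimage continuous_swap

theorem separating [SecondCountableTopology P] [T2Space P] [RegularSpace P]
    [SecondCountableTopology Q] [T2Space Q] [RegularSpace Q]
    (hbP : IsTopologicalBasis {s : Set P | IsClopen s}) (hι : Continuous ι)
    (hhc : Continuous hh)
    (hinj : Function.Injective ι) (hR : RProp ι hh) (q₀ : Q) (hdiag : ∀ a, hh (a, a) = q₀)
    (hV : ∀ x : X, ∃ V : ℕ → Set X, (∀ n, IsClopen (V n)) ∧ (𝓝 x).HasBasis (fun _ => True) V)
    (F G : Set (X × X)) (hF : IsClosed F) (hG : IsClosed G) (hdisj : Disjoint F G) :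
    HasSeparatingCover F G := by
  classical
  obtain ⟨Y, hYc, hY⟩ := D2 hR F G hF hG hdisj
  have hΦ : Continuous (Phi ι hh) := by
    unfold Phi
    fun_prop
  obtain ⟨b, hbc, -, hb⟩ := exists_countable_basis (P × P × Q)
  let c₁ : Set (Set (X × X)) := (fun O => Phi ι hh ⁻¹' O) ''
    {O ∈ b | Disjoint (closure O) (closure (Phi ι hh '' G))}
  choose c hcc hccov hcprop using fun p => line hbP hι hinj hR q₀ hdiag hV F G hF hG hdisj p
  have hdisj' : Disjoint (Prod.swap ⁻¹' F) (Prod.swap ⁻¹' G) := hdisj.preimage _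
  choose d hdc hdcov hdprop using fun p => line hbP hι hinj hR q₀ hdiag hV _ _ (swap_closed hF)
    (swap_closed hG) hdisj' p
  let c₂ : Set (Set (X × X)) := ⋃ p ∈ Y, c p
  let c₃ : Set (Set (X × X)) := ⋃ p ∈ Y, (fun u => Prod.swap ⁻¹' u) '' d p
  apply hasSeparatingCover_of_countable F G (c₁ ∪ (c₂ ∪ c₃))
  · apply Countable.union
    · exact (hbc.mono (sep_subset _ _)).image _
    · apply Countable.union
      · exact hYc.biUnion (fun p _ => hcc p)
      · exact hYc.biUnion (fun p _ => (hdc p).image _)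
  · intro w hw
    by_cases hwG : Phi ι hh w ∈ closure (Phi ι hh '' G)
    · have hwF : Phi ι hh w ∈ closure (Phi ι hh '' F) := subset_closure ⟨w, hw, rfl⟩
      rcases hY w hwF hwG with h | h
      · obtain ⟨u, hu, hwu⟩ := hccov w.1 w.2 hw
        refine ⟨u, Or.inr (Or.inl ?_), hwu⟩
        simp only [c₂, mem_iUnion]
        exact ⟨w.1, h, hu⟩
      · obtain ⟨u, hu, hwu⟩ := hdcov w.2 w.1 hw
        refine ⟨Prod.swap ⁻¹' u, Or.inr (Or.inr ?_), hwu⟩
        simp only [c₃, mem_iUnion]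
        exact ⟨w.2, h, u, hu, rfl⟩
    · have hn : (closure (Phi ι hh '' G))ᶜ ∈ 𝓝 (Phi ι hh w) :=
        isClosed_closure.isOpen_compl.mem_nhds hwG
      obtain ⟨t, ht, htc, hts⟩ := exists_mem_nhds_isClosed_subset hn
      obtain ⟨O, hO, hwO, hOt⟩ := hb.mem_nhds_iff.1 ht
      refine ⟨Phi ι hh ⁻¹' O, Or.inl ⟨O, ⟨hO, ?_⟩, rfl⟩, hwO⟩
      rw [disjoint_left]
      intro v hv
      exact hts ((closure_minimal hOt htc) hv)
  · rintro u (⟨O, ⟨hO, hd⟩, rfl⟩ | hu | hu)
    · refine ⟨(hb.isOpen hO).preimage hΦ, ?_⟩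
      rw [disjoint_left]
      intro v hv hvG
      have h1 : Phi ι hh v ∈ closure O := hΦ.closure_preimage_subset O hv
      exact disjoint_left.1 hd h1 (subset_closure ⟨v, hvG, rfl⟩)
    · simp only [c₂, mem_iUnion] at hu
      obtain ⟨p, _, hu⟩ := hu
      have := hcprop p u hu
      exact ⟨this.1.isOpen, by rw [this.1.isClosed.closure_eq]; exact this.2⟩
    · simp only [c₃, mem_iUnion] at hu
      obtain ⟨p, _, v, hv, rfl⟩ := hu
      have := hdprop p v hv
      have hcl : IsClopen (Prod.swap ⁻¹' v) := this.1.preimage continuous_swap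
      refine ⟨hcl.isOpen, ?_⟩
      rw [hcl.isClosed.closure_eq, disjoint_left]
      intro w hw hwG
      exact disjoint_left.1 this.2 (show Prod.swap w ∈ v from hw)
        (show Prod.swap (Prod.swap w) ∈ G by simpa using hwG)

theorem normal_sq [SecondCountableTopology P] [T2Space P] [RegularSpace P]
    [SecondCountableTopology Q] [T2Space Q] [RegularSpace Q]
    (hbP : IsTopologicalBasis {s : Set P | IsClopen s}) (hι : Continuous ι)
    (hhc : Continuous hh)
    (hinj : Function.Injective ι) (hR : RProp ι hh) (q₀ : Q) (hdiag : ∀ a, hh (a, a) = q₀)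
    (hV : ∀ x : X, ∃ V : ℕ → Set X, (∀ n, IsClopen (V n)) ∧ (𝓝 x).HasBasis (fun _ => True) V) :
    NormalSpace (X × X) := by
  constructor
  intro F G hF hG hdisj
  exact hasSeparatingCovers_iff_separatedNhds.1
    ⟨separating hbP hι hhc hinj hR q₀ hdiag hV F G hF hG hdisj,
     separating hbP hι hhc hinj hR q₀ hdiag hV G F hG hF hdisj.symm⟩

end Pool.Agent.H87.Cons
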