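import Mathlib

/-!
# A perfect matching theorem

If a standard Borel space `T` with two measurable maps to `ℕ → ℕ` is not covered by countably many
fibres of the two maps, then it is not covered by fewer than continuum many fibres.
-/

set_option autoImplicit false

open Set Filter Function Topology CantorScheme
open scoped ENNReal Cardinal

namespace Pool.Agent.H87.PS

section Metric

variable {T : Type} [MetricSpace T] (p q : T → ℕ → ℕ)

/-- Covered by countably many fibres. -/
def Small (A : Set T) : Prop := ∃ Y : Set (ℕ → ℕ), Y.Countable ∧ ∀ t ∈ A, p t ∈ Y ∨ q t ∈ Y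

theorem Small.mono {A B : Set T} (h : Small p q B) (hAB : A ⊆ B) : Small p q A := by
  obtain ⟨Y, hY, h⟩ := h
  exact ⟨Y, hY, fun t ht => h t (hAB ht)⟩

theorem Small.biUnion {ι : Type} {I : Set ι} (hI : I.Countable) (A : ι → Set T)
    (h : ∀ i ∈ I, Small p q (A i)) : Small p q (⋃ i ∈ I, A i) := by
  choose! Y hY h using h
  refine ⟨⋃ i ∈ I, Y i, hI.biUnion hY, fun t ht => ?_⟩
  simp only [mem_iUnion] at ht ⊢
  obtain ⟨i, hi, hti⟩ := ht
  rcases h i hi t hti with h' | h'
  · exact Or.inl ⟨i, hi, h'⟩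
  · exact Or.inr ⟨i, hi, h'⟩

theorem Small.union {A B : Set T} (hA : Small p q A) (hB : Small p q B) : Small p q (A ∪ B) := by
  obtain ⟨Y, hY, h⟩ := hA
  obtain ⟨Z, hZ, h'⟩ := hB
  refine ⟨Y ∪ Z, hY.union hZ, fun t ht => ?_⟩
  rcases ht with ht | ht
  · rcases h t ht with h | h
    · exact Or.inl (Or.inl h)
    · exact Or.inr (Or.inl h)
  · rcases h' t ht with h | h
    · exact Or.inl (Or.inr h)
    · exact Or.inr (Or.inr h)

/-- closed nonempty sets all of whose nonempty open parts are large. -/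
def Good (E : Set T) : Prop :=
  IsClosed E ∧ E.Nonempty ∧ ∀ O : Set T, IsOpen O → (E ∩ O).Nonempty → ¬ Small p q (E ∩ O)

theorem exists_good [SecondCountableTopology T] (h : ¬ Small p q (univ : Set T)) :
    ∃ E, Good p q E := by
  obtain ⟨b, hbc, -, hb⟩ := TopologicalSpace.exists_countable_basis T
  let R : Set T := ⋃ O ∈ {O ∈ b | Small p q O}, O
  have hRs : Small p q R := Small.biUnion p q (hbc.mono (sep_subset _ _)) _ (fun O hO => hO.2)
  have hRo : IsOpen R := isOpen_biUnion (fun O hO => hb.isOpen hO.1)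
  refine ⟨Rᶜ, hRo.isClosed_compl, ?_, ?_⟩
  · by_contra hne
    rw [not_nonempty_iff_eq_empty, compl_empty_iff] at hne
    exact h (hne ▸ hRs)
  · rintro O hO ⟨t, htR, htO⟩ hsm
    obtain ⟨V, hV, htV, hVO⟩ := hb.exists_subset_of_mem_open htO hO
    apply htR
    simp only [R, mem_iUnion]
    refine ⟨V, ⟨hV, ?_⟩, htV⟩
    apply (Small.union p q hRs hsm).mono
    intro s hs
    by_cases hsR : s ∈ R
    · exact Or.inl hsR
    · exact Or.inr ⟨hsR, hVO hs⟩

theorem split (hp : Continuous p) (hq : Continuous q) (E : Set T) (hE : Good p q E) (ε : ℝ≥0∞)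
    (hε : 0 < ε) : ∃ E₀ E₁ : Set T, (Good p q E₀ ∧ E₀ ⊆ E ∧ Metric.ediam E₀ ≤ ε) ∧
      (Good p q E₁ ∧ E₁ ⊆ E ∧ Metric.ediam E₁ ≤ ε) ∧
      (∀ s ∈ E₀, ∀ t ∈ E₁, p s ≠ p t) ∧ (∀ s ∈ E₀, ∀ t ∈ E₁, q s ≠ q t) := by
  obtain ⟨hEc, ⟨t₀, ht₀⟩, hEg⟩ := hE
  have hns : ¬ Small p q E := by
    have := hEg univ isOpen_univ ⟨t₀, ht₀, mem_univ _⟩
    rwa [inter_univ] at this
  obtain ⟨t₁, ht₁, hp1, hq1⟩ : ∃ t₁ ∈ E, p t₁ ≠ p t₀ ∧ q t₁ ≠ q t₀ := by
    by_contra hcon
    push_neg at hcon
    apply hns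
    refine ⟨{p t₀, q t₀}, by simp, fun t ht => ?_⟩
    by_cases h : p t = p t₀
    · left; rw [h]; simp
    · right; rw [hcon t ht h]; simp
  obtain ⟨l, hl⟩ := Function.ne_iff.1 hp1
  obtain ⟨k, hk⟩ := Function.ne_iff.1 hq1
  have key : ∀ t ∈ E, ∃ F : Set T, Good p q F ∧ F ⊆ E ∧ Metric.ediam F ≤ ε ∧
      ∀ s ∈ F, p s l = p t l ∧ q s k = q t k := by
    intro t ht
    let N : Set T := Metric.eball t (ε / 2) ∩ ({s | p s l = p t l} ∩ {s | q s k = q t k})
    have hcp : IsClopen {s : T | p s l = p t l} := by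
      have : Continuous fun s => p s l := (continuous_apply l).comp hp
      exact (isClopen_discrete {p t l}).preimage this
    have hcq : IsClopen {s : T | q s k = q t k} := by
      have : Continuous fun s => q s k := (continuous_apply k).comp hq
      exact (isClopen_discrete {q t k}).preimage this
    have hNo : IsOpen N := Metric.isOpen_eball.inter (hcp.isOpen.inter hcq.isOpen)
    have htN : t ∈ N := by
      refine ⟨Metric.mem_eball_self ?_, rfl, rfl⟩
      rw [ENNReal.div_pos_iff]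
      exact ⟨hε.ne', by simp⟩
    refine ⟨closure (N ∩ E), ⟨isClosed_closure, ⟨t, subset_closure ⟨htN, ht⟩⟩, ?_⟩, ?_, ?_, ?_⟩
    · intro O hO hne hsm
      obtain ⟨s, hs, hsO⟩ := hne
      obtain ⟨s', hs'O, hs'N, hs'E⟩ := mem_closure_iff.1 hs O hO hsO
      apply hEg (O ∩ N) (hO.inter hNo) ⟨s', hs'E, hs'O, hs'N⟩
      apply hsm.mono
      rintro u ⟨huE, huO, huN⟩
      exact ⟨subset_closure ⟨huN, huE⟩, huO⟩
    · rw [IsClosed.closure_subset_iff hEc]
      exact inter_subset_right
    · rw [Metric.ediam_closure]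
      apply le_trans (Metric.ediam_mono (inter_subset_left.trans inter_subset_left))
      refine (Metric.ediam_eball_le (x := t)).trans ?_
      rw [mul_comm, ENNReal.div_mul_cancel] <;> norm_num
    · intro s hs
      have hsub : closure (N ∩ E) ⊆ {s | p s l = p t l} ∩ {s | q s k = q t k} := by
        rw [IsClosed.closure_subset_iff (hcp.isClosed.inter hcq.isClosed)]
        exact fun u hu => hu.1.2
      exact hsub hs
  obtain ⟨E₀, g₀, s₀, d₀, h₀⟩ := key t₀ ht₀
  obtain ⟨E₁, g₁, s₁, d₁, h₁⟩ := key t₁ ht₁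
  refine ⟨E₀, E₁, ⟨g₀, s₀, d₀⟩, ⟨g₁, s₁, d₁⟩, ?_, ?_⟩
  · intro s hs t ht heq
    apply hl
    rw [← (h₁ t ht).1, ← (h₀ s hs).1, heq]
  · intro s hs t ht heq
    apply hk
    rw [← (h₁ t ht).2, ← (h₀ s hs).2, heq]

theorem exists_injection [CompleteSpace T] (hp : Continuous p) (hq : Continuous q) (C : Set T)
    (hC : Good p q C) : ∃ f : (ℕ → Bool) → T, Injective (fun x => p (f x)) ∧
      Injective (fun x => q (f x)) := by
  obtain ⟨u, -, upos', hu⟩ := exists_seq_strictAnti_tendsto' (zero_lt_one' ℝ≥0∞)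
  have upos := fun n => (upos' n).1
  let P := Subtype fun E : Set T => Good p q E
  choose C0 C1 h0 h1 hdp hdq using
    fun (C : Set T) (hC : Good p q C) (ε : ℝ≥0∞) (hε : 0 < ε) => split p q hp hq C hC ε hε
  let DP : List Bool → P := fun l => by
    induction l with
    | nil => exact ⟨C, hC⟩
    | cons a l ih =>
      cases a
      · use C0 ih.val ih.property _ (upos (l.length + 1))
        exact (h0 _ _ _ _).1
      use C1 ih.val ih.property _ (upos (l.length + 1))
      exact (h1 _ _ _ _).1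
  let D : List Bool → Set T := fun l => (DP l).val
  have hanti : ClosureAntitone D := by
    refine Antitone.closureAntitone ?_ fun l => (DP l).property.1
    intro l a
    cases a
    · exact (h0 _ _ _ _).2.1
    exact (h1 _ _ _ _).2.1
  have hdiam : VanishingDiam D := by
    intro x
    apply tendsto_of_tendsto_of_tendsto_of_le_of_le' tendsto_const_nhds hu
    · simp
    rw [eventually_atTop]
    refine ⟨1, fun m (hm : 1 ≤ m) => ?_⟩
    rw [Nat.one_le_iff_ne_zero] at hm
    rcases Nat.exists_eq_succ_of_ne_zero hm with ⟨n, rfl⟩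
    dsimp
    cases x n
    · convert! (h0 _ _ _ _).2.2
      rw [PiNat.res_length]
    convert! (h1 _ _ _ _).2.2
    rw [PiNat.res_length]
  have hdom : ∀ {x : ℕ → Bool}, x ∈ (inducedMap D).1 := fun {x} => by
    rw [hanti.map_of_vanishingDiam hdiam fun l => (DP l).property.2.1]
    apply mem_univ
  let f : (ℕ → Bool) → T := fun x => (inducedMap D).2 ⟨x, hdom⟩
  have hf : ∀ x n, f x ∈ D (PiNat.res x n) := fun x n => map_mem ⟨x, hdom⟩ n
  have inj : ∀ g : T → ℕ → ℕ, (∀ (l : List Bool), ∀ s ∈ D (false :: l), ∀ t ∈ D (true :: l), g s ≠ g t) →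
      Injective (fun x => g (f x)) := by
    intro g hg x y hxy
    apply PiNat.res_injective
    ext n : 1
    induction n with
    | zero => simp
    | succ n ih =>
      simp only [PiNat.res_succ, List.cons.injEq]
      refine ⟨?_, ih⟩
      by_contra hne
      have hx := hf x (n + 1)
      have hy := hf y (n + 1)
      rw [PiNat.res_succ] at hx hy
      rw [← ih] at hy
      rcases hxn : x n with _ | _ <;> rcases hyn : y n with _ | _
      · exact hne (by rw [hxn, hyn])
      · rw [hxn] at hx; rw [hyn] at hy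
        exact hg _ _ hx _ hy hxy
      · rw [hxn] at hx; rw [hyn] at hy
        exact hg _ _ hy _ hx hxy.symm
      · exact hne (by rw [hxn, hyn])
  exact ⟨f, inj p (fun l => hdp _ _ _ _), inj q (fun l => hdq _ _ _ _)⟩

end Metric

theorem main {T : Type} [MeasurableSpace T] [StandardBorelSpace T] (p q : T → ℕ → ℕ)
    (hp : Measurable p) (hq : Measurable q)
    (hlarge : ¬ ∃ Y : Set (ℕ → ℕ), Y.Countable ∧ ∀ t, p t ∈ Y ∨ q t ∈ Y)
    (U : Set (ℕ → ℕ)) (hU : #U < 𝔠) : ∃ t, p t ∉ U ∧ q t ∉ U := by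
  letI := upgradeStandardBorel T
  have hpq : Measurable (fun t => (p t, q t)) := hp.prodMk hq
  obtain ⟨t', -, hcont, hpol⟩ := hpq.exists_continuous
  letI : TopologicalSpace T := t'
  haveI : PolishSpace T := hpol
  letI := TopologicalSpace.upgradeIsCompletelyMetrizable T
  have hcp : Continuous p := continuous_fst.comp hcont
  have hcq : Continuous q := continuous_snd.comp hcont
  have hns : ¬ Small p q (univ : Set T) := by
    rintro ⟨Y, hY, h⟩
    exact hlarge ⟨Y, hY, fun t => h t (mem_univ _)⟩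
  obtain ⟨E, hE⟩ := exists_good p q hns
  obtain ⟨f, hf1, hf2⟩ := exists_injection p q hcp hcq E hE
  by_contra hcon
  push_neg at hcon
  have hcov : (univ : Set (ℕ → Bool)) ⊆ (fun x => p (f x)) ⁻¹' U ∪ (fun x => q (f x)) ⁻¹' U := by
    intro x _
    by_cases h : p (f x) ∈ U
    · exact Or.inl h
    · exact Or.inr (hcon (f x) h)
  have h1 : #(ℕ → Bool) ≤ #U + #U := by
    calc #(ℕ → Bool) = #(univ : Set (ℕ → Bool)) := Cardinal.mk_univ.symm
      _ ≤ #(((fun x => p (f x)) ⁻¹' U ∪ (fun x => q (f x)) ⁻¹' U : Set (ℕ → Bool))) :=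
          Cardinal.mk_le_mk_of_subset hcov
      _ ≤ #((fun x => p (f x)) ⁻¹' U) + #((fun x => q (f x)) ⁻¹' U) := Cardinal.mk_union_le _ _
      _ ≤ #U + #U := by
          apply add_le_add
          · exact Cardinal.mk_preimage_of_injective _ _ hf1
          · exact Cardinal.mk_preimage_of_injective _ _ hf2
  have h2 : #U + #U < 𝔠 := Cardinal.add_lt_of_lt Cardinal.aleph0_le_continuum hU hU
  have h3 : #(ℕ → Bool) = 𝔠 := by simp
  exact absurd (h3 ▸ h1) (not_le.2 h2)

end Pool.Agent.H87.PS
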