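import Mathlib

/-!
# The topology defined by a system of sequences
-/

set_option autoImplicit false

open Set Filter Topology PiNat

namespace Pool.Agent.H87.VTop

variable {Q : Type} [MetricSpace Q]

/-- sequences `x` such that `e ∘ x` converges. -/
def Zset (e : ℕ → Q) : Set (ℕ → ℕ) := {x | ∃ q, Tendsto (fun n => e (x n)) atTop (𝓝 q)}

/-- the underlying set of the space -/
abbrev ZT (e : ℕ → Q) : Type := ↥(Zset e)

/-- the underlying set of the space -/
def XX (e : ℕ → Q) : Type := ZT e × Bool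

/-- limit function -/
noncomputable def lim (e : ℕ → Q) (x : ZT e) : Q := x.2.choose

theorem lim_spec (e : ℕ → Q) (x : ZT e) : Tendsto (fun n => e (x.1 n)) atTop (𝓝 (lim e x)) :=
  x.2.choose_spec

/-- last entry before `l` -/
def eta (e : ℕ → Q) (q₀ : Q) (x : ℕ → ℕ) : ℕ → Q
  | 0 => q₀
  | l + 1 => e (x l)

theorem eta_tendsto (e : ℕ → Q) (q₀ : Q) (x : ZT e) :
    Tendsto (fun l => eta e q₀ x.1 l) atTop (𝓝 (lim e x)) := by
  rw [← tendsto_add_atTop_iff_nat 1]
  exact lim_spec e x

theorem eta_congr (e : ℕ → Q) (q₀ : Q) (x y : ℕ → ℕ) (l : ℕ) (h : ∀ i < l, x i = y i) :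
    eta e q₀ x l = eta e q₀ y l := by
  cases l with
  | zero => rfl
  | succ l => simp [eta, h l (Nat.lt_succ_self l)]

open Classical in
/-- kernel -/
noncomputable def hB (e : ℕ → Q) (q₀ : Q) (u v : ZT e) : Q :=
  if u = v then lim e u else eta e q₀ u.1 (firstDiff u.1 v.1)

theorem hB_self (e : ℕ → Q) (q₀ : Q) (u : ZT e) : hB e q₀ u u = lim e u := by simp [hB]

theorem hB_ne (e : ℕ → Q) (q₀ : Q) (u v : ZT e) (h : u ≠ v) :
    hB e q₀ u v = eta e q₀ u.1 (firstDiff u.1 v.1) := by simp [hB, h]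

theorem hB_symm (e : ℕ → Q) (q₀ : Q) (u v : ZT e) : hB e q₀ u v = hB e q₀ v u := by
  by_cases h : u = v
  · rw [h]
  · rw [hB_ne _ _ _ _ h, hB_ne _ _ _ _ (Ne.symm h), firstDiff_comm]
    apply eta_congr
    intro i hi
    rw [firstDiff_comm] at hi
    exact apply_eq_of_lt_firstDiff hi

open Classical in
/-- the function on the square -/
noncomputable def hh (e : ℕ → Q) (q₀ : Q) (w : XX e × XX e) : Q :=
  if w.1.2 = w.2.2 then q₀ else hB e q₀ w.1.1 w.2.1

/-- the map to `(ℕ → ℕ) × Bool` -/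
def iota (e : ℕ → Q) (p : XX e) : (ℕ → ℕ) × Bool := (p.1.1, p.2)

theorem iota_injective (e : ℕ → Q) : Function.Injective (iota e) := by
  rintro ⟨⟨x, hx⟩, b⟩ ⟨⟨y, hy⟩, c⟩ h
  simp only [iota, Prod.mk.injEq] at h
  obtain ⟨h1, h2⟩ := h
  subst h1; subst h2; rfl

/-- basic neighbourhoods -/
inductive Mem {e : ℕ → Q} (Step : XX e → ℕ → ℕ → XX e → Prop) : XX e → ℕ → XX e → Prop
  | self (r : XX e) (m : ℕ) : Mem Step r m r
  | step (r : XX e) (m n k : ℕ) (s y : XX e) : m ≤ n → Step r n k s → Mem Step s k y →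
      Mem Step r m y

/-- the properties of the system of sequences -/
structure StepOK (e : ℕ → Q) (q₀ : Q) (Step : XX e → ℕ → ℕ → XX e → Prop) : Prop where
  fin : ∀ r n, {ks : ℕ × XX e | Step r n ks.1 ks.2}.Finite
  bool : ∀ r n k s, Step r n k s → s.2 = r.2
  ne : ∀ r n k s, Step r n k s → s.1 ≠ r.1
  le : ∀ r n k s, Step r n k s → n ≤ firstDiff s.1.1 r.1.1
  lt : ∀ r n k s, Step r n k s → firstDiff s.1.1 r.1.1 < k
  nk : ∀ r n k s, Step r n k s → n < k
  conv : ∀ r n k s, Step r n k s → ∀ l, firstDiff s.1.1 r.1.1 ≤ l →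
    dist (eta e q₀ r.1.1 l) (lim e r.1) ≤ (1 / 2) ^ n
  lt2 : ∀ r r' n n' k k' s s', Step r n k s → Step r' n' k' s' → r.1 = r'.1 → n < n' →
    firstDiff s.1.1 r.1.1 < firstDiff s'.1.1 r.1.1
  keq : ∀ r r' n k k' s s', Step r n k s → Step r' n k' s' → r.1 = r'.1 → r.2 ≠ r'.2 →
    k = k' ∧ (s.1 ≠ s'.1 → firstDiff s.1.1 s'.1.1 < k ∧
      dist (hB e q₀ s.1 s'.1) (lim e r.1) ≤ (1 / 2) ^ n) ∧
    (s.1 = s'.1 → dist (lim e s.1) (lim e r.1) ≤ (1 / 2) ^ (n + 1))
  wf : WellFounded (fun s r => ∃ n k, Step r n k s)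

/-- first difference from coordinates -/
theorem firstDiff_eq {x y : ℕ → ℕ} {l : ℕ} (h : ∀ i < l, x i = y i) (hl : x l ≠ y l) :
    firstDiff x y = l := by
  have hne : x ≠ y := fun h' => hl (by rw [h'])
  apply le_antisymm
  · by_contra hcon
    exact hl (apply_eq_of_lt_firstDiff (not_le.1 hcon))
  · by_contra hcon
    exact apply_firstDiff_ne hne (h _ (not_le.1 hcon))

variable {e : ℕ → Q} {q₀ : Q} {Step : XX e → ℕ → ℕ → XX e → Prop}

theorem Mem.mono {r y : XX e} {m m' : ℕ} (h : m ≤ m') (hy : Mem Step r m' y) : Mem Step r m y := by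
  cases hy with
  | self => exact Mem.self _ _
  | step _ _ n k s _ hmn hs hm => exact Mem.step _ _ _ _ _ _ (h.trans hmn) hs hm

theorem val_ne {x y : ZT e} (h : x ≠ y) : x.1 ≠ y.1 := fun h' => h (Subtype.ext h')

theorem Step_cyl (hS : StepOK e q₀ Step) {r s : XX e} {n k : ℕ} (h : Step r n k s) :
    s.1.1 ∈ cylinder r.1.1 n :=
  (mem_cylinder_iff_le_firstDiff (val_ne (hS.ne _ _ _ _ h)) n).2 (hS.le _ _ _ _ h)

theorem Mem.cyl (hS : StepOK e q₀ Step) {r y : XX e} {m : ℕ} (h : Mem Step r m y) :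
    y.2 = r.2 ∧ y.1.1 ∈ cylinder r.1.1 m := by
  induction h with
  | self r m => exact ⟨rfl, self_mem_cylinder _ _⟩
  | step r m n k s y hmn hs _ ih =>
    refine ⟨ih.1.trans (hS.bool _ _ _ _ hs), fun i hi => ?_⟩
    have h1 : i < n := lt_of_lt_of_le hi hmn
    rw [ih.2 i (h1.trans (hS.nk _ _ _ _ hs)), Step_cyl hS hs i h1]

theorem Mem.open {r y : XX e} {m : ℕ} (h : Mem Step r m y) :
    ∃ k, ∀ z, Mem Step y k z → Mem Step r m z := by
  induction h with
  | self r m => exact ⟨m, fun z hz => hz⟩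
  | step r m n k s y hmn hs _ ih =>
    obtain ⟨k', hk'⟩ := ih
    exact ⟨k', fun z hz => Mem.step _ _ _ _ _ _ hmn hs (hk' z hz)⟩

theorem Mem.closed (hS : StepOK e q₀ Step) : ∀ (r : XX e) (m : ℕ) (y : XX e), ¬ Mem Step r m y →
    ∃ k, ∀ z, Mem Step y k z → ¬ Mem Step r m z := by
  intro r
  induction r using hS.wf.induction with
  | _ r ih =>
    intro m y hy
    by_cases hb : y.2 = r.2
    · have hne : y.1 ≠ r.1 := by
        intro h
        apply hy
        have : y = r := Prod.ext h hb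
        rw [this]
        exact Mem.self _ _
      set l := firstDiff y.1.1 r.1.1 with hl
      -- finitely many steps
      have hfin : {nks : ℕ × ℕ × XX e | nks.1 ≤ l ∧ m ≤ nks.1 ∧ Step r nks.1 nks.2.1 nks.2.2}.Finite := by
        have : {nks : ℕ × ℕ × XX e | nks.1 ≤ l ∧ m ≤ nks.1 ∧ Step r nks.1 nks.2.1 nks.2.2}
            ⊆ ⋃ n ∈ Finset.range (l + 1), (fun ks => (n, ks)) '' {ks : ℕ × XX e | Step r n ks.1 ks.2} := by
          rintro ⟨n, k, s⟩ ⟨h1, _, h3⟩
          simp only [Finset.mem_range, mem_iUnion]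
          exact ⟨n, Nat.lt_succ_of_le h1, ⟨(k, s), h3, rfl⟩⟩
        apply Set.Finite.subset _ this
        apply Set.Finite.biUnion (Finset.finite_toSet _)
        intro n _
        exact (hS.fin r n).image _
      have hIH : ∀ nks : ℕ × ℕ × XX e, ∃ k', (nks.1 ≤ l ∧ m ≤ nks.1 ∧ Step r nks.1 nks.2.1 nks.2.2) →
          ∀ z, Mem Step y k' z → ¬ Mem Step nks.2.2 nks.2.1 z := by
        rintro ⟨n, k, s⟩
        by_cases h : n ≤ l ∧ m ≤ n ∧ Step r n k s
        · obtain ⟨k', hk'⟩ := ih s ⟨n, k, h.2.2⟩ k y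
            (fun h' => hy (Mem.step _ _ _ _ _ _ h.2.1 h.2.2 h'))
          exact ⟨k', fun _ => hk'⟩
        · exact ⟨0, fun h' => absurd h' h⟩
      choose κ hκ using hIH
      refine ⟨max (l + 1) (hfin.toFinset.sup κ), fun z hz hzr => ?_⟩
      have hzy := (Mem.cyl hS hz).2
      have hyl : y.1.1 l ≠ r.1.1 l := apply_firstDiff_ne (val_ne hne)
      have hzl : z.1.1 l = y.1.1 l := hzy l (lt_of_lt_of_le (Nat.lt_succ_self l) (le_max_left _ _))
      cases hzr with
      | self => exact hyl hzl.symm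
      | step _ _ n k s _ hmn hs hm =>
        by_cases hnl : n ≤ l
        · have hmem : ((n, k, s) : ℕ × ℕ × XX e) ∈ hfin.toFinset := by
            rw [Set.Finite.mem_toFinset]
            exact ⟨hnl, hmn, hs⟩
          have hle : κ (n, k, s) ≤ hfin.toFinset.sup κ := Finset.le_sup hmem
          exact hκ (n, k, s) ⟨hnl, hmn, hs⟩ z (hz.mono (hle.trans (le_max_right _ _))) hm
        · have h1 : l < n := not_le.1 hnl
          have h2 := (Mem.cyl hS hm).2 l (h1.trans (hS.nk _ _ _ _ hs))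
          have h3 := Step_cyl hS hs l h1
          exact hyl (by rw [← hzl, h2, h3])
    · exact ⟨0, fun z hz hzr => hb (((Mem.cyl hS hz).1.symm.trans (Mem.cyl hS hzr).1))⟩

theorem estimate (hS : StepOK e q₀ Step) : ∀ (r r' : XX e), r.1 = r'.1 → r.2 ≠ r'.2 →
    ∀ (m : ℕ) (u v : XX e), Mem Step r m u → Mem Step r' m v →
    dist (hB e q₀ u.1 v.1) (lim e r.1) ≤ (1 / 2) ^ m := by
  intro r
  induction r using hS.wf.induction with
  | _ r ih =>
    intro r' h1 h2 m u v hu hv
    have hpow : ∀ n, m ≤ n → ((1 / 2 : ℝ)) ^ n ≤ (1 / 2) ^ m := fun n hn =>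
      pow_le_pow_of_le_one (by norm_num) (by norm_num) hn
    -- first differences along a step
    have key : ∀ (r s y : XX e) (n k : ℕ), Step r n k s → Mem Step s k y →
        y.1 ≠ r.1 ∧ firstDiff y.1.1 r.1.1 = firstDiff s.1.1 r.1.1 := by
      intro r s y n k hs hm
      have h3 := (Mem.cyl hS hm).2
      have h4 := hS.lt _ _ _ _ hs
      have h5 : y.1.1 (firstDiff s.1.1 r.1.1) ≠ r.1.1 (firstDiff s.1.1 r.1.1) := by
        rw [h3 _ h4]
        exact apply_firstDiff_ne (val_ne (hS.ne _ _ _ _ hs))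
      refine ⟨fun h => h5 (by rw [h]), firstDiff_eq (fun i hi => ?_) h5⟩
      rw [h3 i (hi.trans h4)]
      exact apply_eq_of_lt_firstDiff hi
    cases hu with
    | self =>
      cases hv with
      | self =>
        rw [← h1, hB_self, dist_self]
        positivity
      | step _ _ n' k' s' _ hmn' hs' hm' =>
        obtain ⟨a1, a2⟩ := key _ _ _ _ _ hs' hm'
        have h3 : r.1 ≠ v.1 := by rw [h1]; exact a1.symm
        rw [hB_ne _ _ _ _ h3, h1, firstDiff_comm, a2]
        exact (hS.conv _ _ _ _ hs' _ le_rfl).trans (hpow n' hmn')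
    | step _ _ n k s _ hmn hs hm =>
      obtain ⟨b1, b2⟩ := key _ _ _ _ _ hs hm
      cases hv with
      | self =>
        rw [hB_symm, hB_ne _ _ _ _ (by rw [← h1]; exact b1.symm), ← h1, firstDiff_comm, b2]
        exact (hS.conv _ _ _ _ hs _ le_rfl).trans (hpow n hmn)
      | step _ _ n' k' s' _ hmn' hs' hm' =>
        obtain ⟨a1, a2⟩ := key _ _ _ _ _ hs' hm'
        rw [← h1] at a1 a2
        rcases lt_trichotomy n n' with hlt | heq | hgt
        · have h3 := hS.lt2 _ _ _ _ _ _ _ _ hs hs' h1 hlt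
          -- firstDiff u v = firstDiff s r
          have h4 : ∀ i < firstDiff s.1.1 r.1.1, u.1.1 i = r.1.1 i := by
            intro i hi; rw [← b2] at hi; exact apply_eq_of_lt_firstDiff hi
          have h5 : ∀ i < firstDiff s'.1.1 r.1.1, v.1.1 i = r.1.1 i := by
            intro i hi; rw [← a2] at hi; exact apply_eq_of_lt_firstDiff hi
          have h6 : u.1.1 (firstDiff s.1.1 r.1.1) ≠ r.1.1 (firstDiff s.1.1 r.1.1) := by
            rw [← b2]; exact apply_firstDiff_ne (val_ne b1)
          have h7 : firstDiff u.1.1 v.1.1 = firstDiff s.1.1 r.1.1 := by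
            apply firstDiff_eq
            · intro i hi; rw [h4 i hi, h5 i (hi.trans h3)]
            · rw [h5 _ h3]; exact h6
          have h8 : u.1 ≠ v.1 := fun h => by
            apply h6
            rw [h, h5 _ h3]
          rw [hB_ne _ _ _ _ h8, h7, eta_congr e q₀ u.1.1 r.1.1 _ h4]
          exact (hS.conv _ _ _ _ hs _ le_rfl).trans (hpow n hmn)
        · subst heq
          obtain ⟨hk, hne, heq⟩ := hS.keq _ _ _ _ _ _ _ hs hs' h1 h2
          subst hk
          by_cases hss : s.1 = s'.1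
          · have h3 := heq hss
            have hnk := hS.nk _ _ _ _ hs
            have hs2 : s.2 ≠ s'.2 := by
              rw [hS.bool _ _ _ _ hs, hS.bool _ _ _ _ hs']; exact h2
            have h4 := ih s ⟨n, k, hs⟩ s' hss hs2 (n + 1) u v (hm.mono hnk) (hm'.mono hnk)
            have h5 : ((1 / 2 : ℝ)) ^ (n + 1) + (1 / 2) ^ (n + 1) = (1 / 2) ^ n := by ring
            calc dist (hB e q₀ u.1 v.1) (lim e r.1)
                ≤ dist (hB e q₀ u.1 v.1) (lim e s.1) + dist (lim e s.1) (lim e r.1) :=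
                  dist_triangle _ _ _
              _ ≤ (1 / 2) ^ (n + 1) + (1 / 2) ^ (n + 1) := add_le_add h4 h3
              _ = (1 / 2) ^ n := h5
              _ ≤ (1 / 2) ^ m := hpow n hmn
          · obtain ⟨h3, h4⟩ := hne hss
            have hcu := (Mem.cyl hS hm).2
            have hcv := (Mem.cyl hS hm').2
            have h5 : s.1.1 ≠ s'.1.1 := val_ne hss
            have h6 : firstDiff u.1.1 v.1.1 = firstDiff s.1.1 s'.1.1 := by
              apply firstDiff_eq
              · intro i hi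
                rw [hcu i (hi.trans h3), hcv i (hi.trans h3)]
                exact apply_eq_of_lt_firstDiff hi
              · rw [hcu _ h3, hcv _ h3]
                exact apply_firstDiff_ne h5
            have h7 : u.1 ≠ v.1 := by
              intro h
              have h8 : u.1.1 (firstDiff s.1.1 s'.1.1) = v.1.1 (firstDiff s.1.1 s'.1.1) := by rw [h]
              rw [hcu _ h3, hcv _ h3] at h8
              exact apply_firstDiff_ne h5 h8
            rw [hB_ne _ _ _ _ h7, h6, eta_congr e q₀ u.1.1 s.1.1 _ (fun i hi => hcu i (hi.trans h3)),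
              ← hB_ne _ _ _ _ hss]
            exact h4.trans (hpow n hmn)
        · have h3 : firstDiff s'.1.1 r.1.1 < firstDiff s.1.1 r.1.1 := by
            have := hS.lt2 _ _ _ _ _ _ _ _ hs' hs h1.symm hgt
            rw [← h1] at this
            exact this
          have h4 : ∀ i < firstDiff s.1.1 r.1.1, u.1.1 i = r.1.1 i := by
            intro i hi; rw [← b2] at hi; exact apply_eq_of_lt_firstDiff hi
          have h5 : ∀ i < firstDiff s'.1.1 r.1.1, v.1.1 i = r.1.1 i := by
            intro i hi; rw [← a2] at hi; exact apply_eq_of_lt_firstDiff hi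
          have h6 : v.1.1 (firstDiff s'.1.1 r.1.1) ≠ r.1.1 (firstDiff s'.1.1 r.1.1) := by
            rw [← a2]; exact apply_firstDiff_ne (val_ne a1)
          have h7 : firstDiff v.1.1 u.1.1 = firstDiff s'.1.1 r.1.1 := by
            apply firstDiff_eq
            · intro i hi; rw [h5 i hi, h4 i (hi.trans h3)]
            · rw [h4 _ h3]; exact h6
          have h8 : v.1 ≠ u.1 := fun h => by
            apply h6
            rw [h, h4 _ h3]
          rw [hB_symm, hB_ne _ _ _ _ h8, h7, eta_congr e q₀ v.1.1 r.1.1 _ h5, h1]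
          have h9 := hS.conv _ _ _ _ hs' _ le_rfl
          rw [← h1] at h9 ⊢
          exact h9.trans (hpow n' hmn')

/-- the topology -/
@[reducible]
def top (Step : XX e → ℕ → ℕ → XX e → Prop) : TopologicalSpace (XX e) where
  IsOpen O := ∀ r ∈ O, ∃ m, ∀ y, Mem Step r m y → y ∈ O
  isOpen_univ := fun _ _ => ⟨0, fun _ _ => mem_univ _⟩
  isOpen_inter := by
    intro O O' h h' r hr
    obtain ⟨m, hm⟩ := h r hr.1
    obtain ⟨m', hm'⟩ := h' r hr.2
    exact ⟨max m m', fun y hy => ⟨hm y (hy.mono (le_max_left _ _)), hm' y (hy.mono (le_max_right _ _))⟩⟩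
  isOpen_sUnion := by
    intro S hS r hr
    obtain ⟨O, hO, hrO⟩ := hr
    obtain ⟨m, hm⟩ := hS O hO r hrO
    exact ⟨m, fun y hy => ⟨O, hO, hm y hy⟩⟩

theorem isOpen_iff (O : Set (XX e)) :
    IsOpen[top Step] O ↔ ∀ r ∈ O, ∃ m, ∀ y, Mem Step r m y → y ∈ O := Iff.rfl

theorem isClopen_V (hS : StepOK e q₀ Step) (r : XX e) (m : ℕ) :
    @IsClopen _ (top Step) {y | Mem Step r m y} := by
  refine ⟨?_, ?_⟩
  · rw [← @isOpen_compl_iff _ _ (top Step)]
    intro y hy
    obtain ⟨k, hk⟩ := Mem.closed hS r m y hy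
    exact ⟨k, hk⟩
  · intro y hy
    exact Mem.open hy

theorem nhds_basis (hS : StepOK e q₀ Step) (r : XX e) :
    (@nhds _ (top Step) r).HasBasis (fun _ => True) (fun m => {y | Mem Step r m y}) := by
  let := top Step
  constructor
  intro t
  rw [_root_.mem_nhds_iff]
  constructor
  · rintro ⟨O, hOt, hO, hr⟩
    obtain ⟨m, hm⟩ := hO r hr
    exact ⟨m, trivial, fun y hy => hOt (hm y hy)⟩
  · rintro ⟨m, _, hm⟩
    exact ⟨_, hm, (isClopen_V hS r m).2, Mem.self _ _⟩

theorem continuous_iota (hS : StepOK e q₀ Step) : @Continuous _ _ (top Step) _ (iota e) := by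
  let := top Step
  have h1 : Continuous (fun p : XX e => p.1.1) := by
    apply continuous_pi
    intro i
    rw [continuous_def]
    intro s _ r hr
    refine ⟨i + 1, fun y hy => ?_⟩
    have := (Mem.cyl hS hy).2 i (Nat.lt_succ_self i)
    show y.1.1 i ∈ s
    rw [this]
    exact hr
  have h2 : Continuous (fun p : XX e => p.2) := by
    rw [continuous_def]
    intro s _ r hr
    refine ⟨0, fun y hy => ?_⟩
    show y.2 ∈ s
    rw [(Mem.cyl hS hy).1]
    exact hr
  exact h1.prodMk h2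

theorem continuous_hh (hS : StepOK e q₀ Step) :
    @Continuous _ _ (@instTopologicalSpaceProd _ _ (top Step) (top Step)) _ (hh e q₀) := by
  let := top Step
  rw [continuous_iff_continuousAt]
  rintro ⟨p, q⟩
  rw [ContinuousAt, nhds_prod_eq]
  have hb := (nhds_basis hS p).prod (nhds_basis hS q)
  by_cases h2 : p.2 = q.2
  · apply Filter.Tendsto.congr' _ tendsto_const_nhds
    filter_upwards [hb.mem_of_mem (i := (0, 0)) ⟨trivial, trivial⟩] with w hw
    have h3 := (Mem.cyl hS hw.1).1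
    have h4 := (Mem.cyl hS hw.2).1
    simp only [hh]
    rw [if_pos h2, if_pos (by rw [h3, h4, h2])]
  · by_cases h1 : p.1 = q.1
    · rw [Metric.tendsto_nhds]
      intro ε hε
      obtain ⟨m, hm⟩ := exists_pow_lt_of_lt_one hε (show (1 / 2 : ℝ) < 1 by norm_num)
      filter_upwards [hb.mem_of_mem (i := (m, m)) ⟨trivial, trivial⟩] with w hw
      have h3 := (Mem.cyl hS hw.1).1
      have h4 := (Mem.cyl hS hw.2).1
      have h5 : hh e q₀ (p, q) = lim e p.1 := by
        simp only [hh]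
        rw [if_neg h2, ← h1, hB_self]
      have h6 : hh e q₀ w = hB e q₀ w.1.1 w.2.1 := by
        simp only [hh]
        rw [if_neg (by rw [h3, h4]; exact h2)]
      rw [h5, h6]
      exact lt_of_le_of_lt (estimate hS p q h1 h2 m w.1 w.2 hw.1 hw.2) hm
    · apply Filter.Tendsto.congr' _ tendsto_const_nhds
      set l := firstDiff p.1.1 q.1.1 with hl
      filter_upwards [hb.mem_of_mem (i := (l + 1, l + 1)) ⟨trivial, trivial⟩] with w hw
      obtain ⟨h3, h5⟩ := (Mem.cyl hS hw.1)
      obtain ⟨h4, h6⟩ := (Mem.cyl hS hw.2)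
      have h7 : firstDiff w.1.1.1 w.2.1.1 = l := by
        apply firstDiff_eq
        · intro i hi
          rw [h5 i (by omega), h6 i (by omega)]
          exact apply_eq_of_lt_firstDiff hi
        · rw [h5 l (by omega), h6 l (by omega)]
          exact apply_firstDiff_ne (val_ne h1)
      have h8 : w.1.1 ≠ w.2.1 := by
        intro h
        have h9 : w.1.1.1 l = w.2.1.1 l := by rw [h]
        rw [h5 l (by omega), h6 l (by omega)] at h9
        exact apply_firstDiff_ne (val_ne h1) h9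
      simp only [hh]
      rw [if_neg h2, if_neg (by rw [h3, h4]; exact h2), hB_ne _ _ _ _ h1, hB_ne _ _ _ _ h8, h7]
      exact eta_congr _ _ _ _ _ (fun i hi => (h5 i (by omega)).symm)

end Pool.Agent.H87.VTop
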