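import Mathlib
import Pool.Agent.H87.VTop
import Pool.Agent.H87.PS
import Pool.Agent.H87.Cons

/-!
# Measurability and existence of new points
-/

set_option autoImplicit false

open Set Filter Topology PiNat MeasureTheory
open scoped Cardinal

namespace Pool.Agent.H87.Borel

open Pool.Agent.H87.VTop Pool.Agent.H87.Cons

variable {Q : Type} [MetricSpace Q] [CompactSpace Q]

theorem measurableSet_Zset (e : ℕ → Q) : MeasurableSet (Zset e) := by
  borelize Q
  have : MeasurableSet {x : ℕ → ℕ | ∃ c, Tendsto (fun n => (fun (n : ℕ) (x : ℕ → ℕ) => e (x n)) n x) atTop (𝓝 c)} := by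
    apply MeasureTheory.measurableSet_exists_tendsto
    intro n
    exact (measurable_from_top (f := e)).comp (measurable_pi_apply n)
  exact this

theorem measurable_lim (e : ℕ → Q) [MeasurableSpace Q] [BorelSpace Q] :
    Measurable (lim e) := by
  apply measurable_of_tendsto_metrizable (f := fun n (x : ZT e) => e (x.1 n))
  · intro n
    exact (measurable_from_top (f := e)).comp ((measurable_pi_apply n).comp measurable_subtype_coe)
  · rw [tendsto_pi_nhds]
    intro x
    exact lim_spec e x

theorem measurable_eta (e : ℕ → Q) (q₀ : Q) [MeasurableSpace Q] [BorelSpace Q] (l : ℕ) :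
    Measurable (fun x : ℕ → ℕ => eta e q₀ x l) := by
  cases l with
  | zero => exact measurable_const
  | succ l => exact (measurable_from_top (f := e)).comp (measurable_pi_apply l)

theorem measurable_hB (e : ℕ → Q) (q₀ : Q) [MeasurableSpace Q] [BorelSpace Q] :
    Measurable (fun w : ZT e × ZT e => hB e q₀ w.1 w.2) := by
  -- measurability of coordinates
  have hc1 : ∀ i, Measurable (fun w : ZT e × ZT e => w.1.1 i) := fun i =>
    (measurable_pi_apply i).comp (measurable_subtype_coe.comp measurable_fst)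
  have hc2 : ∀ i, Measurable (fun w : ZT e × ZT e => w.2.1 i) := fun i =>
    (measurable_pi_apply i).comp (measurable_subtype_coe.comp measurable_snd)
  have heqi : ∀ i, MeasurableSet {w : ZT e × ZT e | w.1.1 i = w.2.1 i} := fun i =>
    measurableSet_eq_fun (hc1 i) (hc2 i)
  have heq : MeasurableSet {w : ZT e × ZT e | w.1 = w.2} := by
    have : {w : ZT e × ZT e | w.1 = w.2} = ⋂ i, {w : ZT e × ZT e | w.1.1 i = w.2.1 i} := by
      ext w
      simp only [mem_ofPred_eq, mem_iInter]
      constructor
      · intro h i; rw [h]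
      · intro h; exact Subtype.ext (funext h)
    rw [this]
    exact MeasurableSet.iInter heqi
  have hfd : ∀ n, MeasurableSet {w : ZT e × ZT e | w.1 ≠ w.2 ∧ firstDiff w.1.1 w.2.1 = n} := by
    intro n
    have : {w : ZT e × ZT e | w.1 ≠ w.2 ∧ firstDiff w.1.1 w.2.1 = n}
        = (⋂ i ∈ Finset.range n, {w : ZT e × ZT e | w.1.1 i = w.2.1 i}) ∩
          {w : ZT e × ZT e | w.1.1 n = w.2.1 n}ᶜ := by
      ext w
      simp only [mem_ofPred_eq, mem_inter_iff, mem_iInter, Finset.mem_range, mem_compl_iff]
      constructor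
      · rintro ⟨h, rfl⟩
        exact ⟨fun i hi => apply_eq_of_lt_firstDiff hi, apply_firstDiff_ne (val_ne h)⟩
      · rintro ⟨h1, h2⟩
        exact ⟨fun h => h2 (by rw [h]), firstDiff_eq h1 h2⟩
    rw [this]
    apply MeasurableSet.inter
    · exact MeasurableSet.biInter (Set.to_countable _) (fun i _ => heqi i)
    · exact (heqi n).compl
  apply measurable_of_isOpen
  intro O hO
  have : (fun w : ZT e × ZT e => hB e q₀ w.1 w.2) ⁻¹' O =
      ({w : ZT e × ZT e | w.1 = w.2} ∩ (fun w : ZT e × ZT e => lim e w.1) ⁻¹' O) ∪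
      ⋃ n, ({w : ZT e × ZT e | w.1 ≠ w.2 ∧ firstDiff w.1.1 w.2.1 = n} ∩
        (fun w : ZT e × ZT e => eta e q₀ w.1.1 n) ⁻¹' O) := by
    ext w
    simp only [mem_preimage, mem_union, mem_inter_iff, mem_ofPred_eq, mem_iUnion]
    constructor
    · intro h
      by_cases hw : w.1 = w.2
      · left
        rw [← hw, hB_self] at h
        exact ⟨hw, h⟩
      · right
        rw [hB_ne _ _ _ _ hw] at h
        exact ⟨_, ⟨hw, rfl⟩, h⟩
    · rintro (⟨h1, h2⟩ | ⟨n, ⟨h1, rfl⟩, h2⟩)
      · rw [← h1, hB_self]; exact h2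
      · rw [hB_ne _ _ _ _ h1]; exact h2
  rw [this]
  apply MeasurableSet.union
  · exact heq.inter (((measurable_lim e).comp measurable_fst) hO.measurableSet)
  · apply MeasurableSet.iUnion
    intro n
    apply (hfd n).inter
    exact ((measurable_eta e q₀ n).comp (measurable_subtype_coe.comp measurable_fst))
      hO.measurableSet

/-- `hh` on the product type -/
noncomputable def hh' (e : ℕ → Q) (q₀ : Q) (w : (ZT e × Bool) × (ZT e × Bool)) : Q :=
  hh e q₀ w

theorem measurable_hh' (e : ℕ → Q) (q₀ : Q) [MeasurableSpace Q] [BorelSpace Q] :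
    Measurable (hh' e q₀) := by
  classical
  have h1 : hh' e q₀ = fun w : (ZT e × Bool) × (ZT e × Bool) =>
      if w.1.2 = w.2.2 then q₀ else hB e q₀ w.1.1 w.2.1 := by
    funext w
    simp [hh', hh]
  rw [h1]
  apply Measurable.ite
  · exact measurableSet_eq_fun (measurable_snd.comp measurable_fst)
      (measurable_snd.comp measurable_snd)
  · exact measurable_const
  · have h2 : Measurable (fun w : (ZT e × Bool) × (ZT e × Bool) => ((w.1.1, w.2.1) : ZT e × ZT e)) :=
      (measurable_fst.comp measurable_fst).prodMk (measurable_fst.comp measurable_snd)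
    exact (measurable_hB e q₀).comp h2

theorem exists_new (e : ℕ → Q) (q₀ : Q)
    (L : Set (((ℕ → ℕ) × Bool) × ((ℕ → ℕ) × Bool) × Q)) (hL : IsClosed L)
    (hlarge : ¬ ∃ Y : Set (XX e), Y.Countable ∧ ∀ w, Phi (iota e) (hh e q₀) w ∈ L →
      w.1 ∈ Y ∨ w.2 ∈ Y) (U : Set (ℕ → ℕ)) (hU : #U < 𝔠) :
    ∃ w : XX e × XX e, Phi (iota e) (hh e q₀) w ∈ L ∧ w.1.1.1 ∉ U ∧ w.2.1.1 ∉ U := by
  borelize Q
  have : StandardBorelSpace (ZT e) := (measurableSet_Zset e).standardBorel
  let S : Set ((ZT e × Bool) × (ZT e × Bool)) :=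
    {w | ((w.1.1.1, w.1.2), (w.2.1.1, w.2.2), hh' e q₀ w) ∈ L}
  have hS : MeasurableSet S := by
    have h1 : Measurable (fun w : (ZT e × Bool) × (ZT e × Bool) =>
        (((w.1.1.1, w.1.2), (w.2.1.1, w.2.2), hh' e q₀ w) :
          ((ℕ → ℕ) × Bool) × ((ℕ → ℕ) × Bool) × Q)) := by
      apply Measurable.prodMk
      · exact (measurable_subtype_coe.comp (measurable_fst.comp measurable_fst)).prodMk
          (measurable_snd.comp measurable_fst)
      · apply Measurable.prodMk
        · exact (measurable_subtype_coe.comp (measurable_fst.comp measurable_snd)).prodMk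
            (measurable_snd.comp measurable_snd)
        · exact measurable_hh' e q₀
    exact h1 hL.measurableSet
  have : StandardBorelSpace S := hS.standardBorel
  obtain ⟨t, ht1, ht2⟩ := PS.main (T := S) (fun t => t.1.1.1.1) (fun t => t.1.2.1.1)
    (measurable_subtype_coe.comp (measurable_fst.comp (measurable_fst.comp measurable_subtype_coe)))
    (measurable_subtype_coe.comp (measurable_fst.comp (measurable_snd.comp measurable_subtype_coe)))
    (by
      rintro ⟨Y, hY, h⟩
      apply hlarge
      refine ⟨{p : XX e | p.1.1 ∈ Y}, ?_, ?_⟩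
      · have h1 : {p : XX e | p.1.1 ∈ Y} = (iota e) ⁻¹' (Y ×ˢ univ) := by
          ext p; simp [iota]
        rw [h1]
        exact (hY.prod countable_univ).preimage (iota_injective e)
      · intro w hw
        exact h ⟨w, hw⟩) U hU
  exact ⟨t.1, t.2, ht1, ht2⟩

end Pool.Agent.H87.Borel
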