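import Mathlib

/-!
# The fusion argument

For every closed subset `L` of `(ℕ → ℕ) × Q`, `Q` compact metric, which projects onto `ℕ → ℕ`,
there are uncountably many `x` such that `e ∘ x` converges to some `q` with `(x, q) ∈ L`.
-/

set_option autoImplicit false

open Set Filter Topology PiNat

namespace Pool.Agent.H87.Fusion

variable {Q : Type} [MetricSpace Q] [CompactSpace Q]

/-- branches through `x|n` with later entries close to `K`. -/
def Br (e : ℕ → Q) (x : ℕ → ℕ) (n : ℕ) (K : Set Q) (r : ℝ) : Set (ℕ → ℕ) :=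
  {y | y ∈ cylinder x n ∧ ∀ m, n ≤ m → e (y m) ∈ Metric.thickening r K}

theorem Br_finite_union (e : ℕ → Q) (K : Set Q) (r : ℝ) {ι : Type} (T : Finset ι)
    (M : ι → Set (ℕ → ℕ)) (hM : ∀ i ∈ T, IsClosed (M i)) :
    ∀ (x : ℕ → ℕ) (n : ℕ), (Br e x n K r).Nonempty → Br e x n K r ⊆ ⋃ i ∈ T, M i →
    ∃ i ∈ T, ∃ x' ∈ Br e x n K r, ∃ n', n ≤ n' ∧ Br e x n K r ∩ cylinder x' n' ⊆ M i := by
  classical
  induction T using Finset.induction_on with
  | empty =>
    intro x n hne hsub
    obtain ⟨y, hy⟩ := hne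
    simpa using hsub hy
  | insert i T hi ih =>
    intro x n hne hsub
    by_cases hall : Br e x n K r ⊆ M i
    · obtain ⟨y, hy⟩ := hne
      exact ⟨i, Finset.mem_insert_self _ _, y, hy, n, le_rfl, fun z hz => hall hz.1⟩
    · obtain ⟨y, hy, hyM⟩ := not_subset.1 hall
      -- a cylinder missing M i
      have hcl : IsOpen (M i)ᶜ := (hM i (Finset.mem_insert_self _ _)).isOpen_compl
      obtain ⟨k, hk⟩ : ∃ k, cylinder y k ⊆ (M i)ᶜ := by
        have hmem : (M i)ᶜ ∈ 𝓝 y := hcl.mem_nhds hyM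
        rw [nhds_pi] at hmem
        obtain ⟨I, ht, t, hI, htsub⟩ := (Filter.mem_pi.1 hmem)
        refine ⟨ht.toFinset.sup id + 1, fun z hz => htsub ?_⟩
        intro j hj
        have hjle : j < ht.toFinset.sup id + 1 := by
          have : j ≤ ht.toFinset.sup id := Finset.le_sup (f := id) (ht.mem_toFinset.2 hj)
          omega
        rw [hz j hjle]
        exact mem_of_mem_nhds (hI j)
      set n' := max n k with hn'
      have hy' : y ∈ Br e y n' K r := ⟨self_mem_cylinder _ _, fun m hm => hy.2 m (le_trans (le_max_left _ _) hm)⟩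
      have hsub2 : Br e y n' K r ⊆ Br e x n K r := by
        intro z hz
        refine ⟨?_, fun m hm => ?_⟩
        · intro j hj
          rw [hz.1 j (lt_of_lt_of_le hj (le_max_left _ _)), hy.1 j hj]
        · by_cases hm' : n' ≤ m
          · exact hz.2 m hm'
          · rw [hz.1 m (not_le.1 hm')]
            exact hy.2 m hm
      have hmiss : Br e y n' K r ⊆ ⋃ j ∈ T, M j := by
        intro z hz
        have h1 := hsub (hsub2 hz)
        simp only [Finset.mem_insert, mem_iUnion] at h1 ⊢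
        obtain ⟨j, hj, hzj⟩ := h1
        rcases hj with rfl | hj
        · exfalso
          exact hk (cylinder_anti y (le_max_right n k) hz.1) hzj
        · exact ⟨j, hj, hzj⟩
      obtain ⟨j, hj, x', hx', n'', hn'', hfin⟩ := ih
        (fun j hj => hM j (Finset.mem_insert_of_mem hj)) y n' ⟨y, hy'⟩ hmiss
      refine ⟨j, Finset.mem_insert_of_mem hj, x', hsub2 hx', n'', (le_max_left n k).trans hn'', ?_⟩
      intro z hz
      apply hfin
      refine ⟨⟨?_, fun m hm => hz.1.2 m ((le_max_left _ _).trans hm)⟩, hz.2⟩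
      intro j hj
      rw [hz.2 j (lt_of_lt_of_le hj hn''), hx'.1 j hj]

/-- State of the fusion. -/
structure State (Q : Type) where
  x : ℕ → ℕ
  n : ℕ
  K : Set Q

/-- Invariant. -/
def Inv (e : ℕ → Q) (L : Set ((ℕ → ℕ) × Q)) (r : ℝ) (s : State Q) : Prop :=
  IsClosed s.K ∧ s.K.Nonempty ∧ ∀ y ∈ Br e s.x s.n s.K r, ∃ q ∈ s.K, (y, q) ∈ L

/-- One step. -/
def Next (e : ℕ → Q) (r : ℝ) (z : ℕ → ℕ) (s t : State Q) : Prop :=
  t.K ⊆ s.K ∧ (∀ a ∈ t.K, ∀ b ∈ t.K, dist a b ≤ r) ∧ s.n < t.n ∧ t.x ∈ cylinder s.x s.n ∧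
  (∀ m, s.n ≤ m → m < t.n → e (t.x m) ∈ Metric.thickening r s.K) ∧ (∃ m < t.n, t.x m ≠ z m)

theorem step (e : ℕ → Q) (he : ∀ O : Set Q, IsOpen O → O.Nonempty → {i | e i ∈ O}.Infinite)
    (L : Set ((ℕ → ℕ) × Q)) (hL : IsClosed L) (r : ℝ) (hr : 0 < r) (z : ℕ → ℕ) (s : State Q)
    (hs : Inv e L r s) : ∃ t, Inv e L (r / 2) t ∧ Next e r z s t := by
  classical
  obtain ⟨hKc, hKne, hinv⟩ := hs
  have hKcomp : IsCompact s.K := hKc.isCompact
  -- finite cover by small closed balls
  obtain ⟨T, hT⟩ := hKcomp.elim_finite_subcover (fun c : Q => Metric.ball c (r / 2))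
    (fun c => Metric.isOpen_ball) (fun c _ => mem_iUnion.2 ⟨c, Metric.mem_ball_self (by linarith)⟩)
  let K' : Q → Set Q := fun c => s.K ∩ Metric.closedBall c (r / 2)
  let M : Q → Set (ℕ → ℕ) := fun c => {y | ∃ q ∈ K' c, (y, q) ∈ L}
  have hM : ∀ c ∈ T, IsClosed (M c) := by
    intro c _
    have hcomp : IsCompact (K' c) := (hKc.inter Metric.isClosed_closedBall).isCompact
    have : M c = Prod.fst '' ((univ ×ˢ K' c) ∩ L) := by
      ext y
      constructor
      · rintro ⟨q, hq, hyq⟩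
        exact ⟨(y, q), ⟨⟨mem_univ _, hq⟩, hyq⟩, rfl⟩
      · rintro ⟨⟨y', q⟩, ⟨⟨_, hq⟩, hyq⟩, rfl⟩
        exact ⟨q, hq, hyq⟩
    rw [this]
    have hcl : IsClosedMap (Prod.fst : (ℕ → ℕ) × Q → (ℕ → ℕ)) := isClosedMap_fst_of_compactSpace
    exact hcl _ ((isClosed_univ.prod hcomp.isClosed).inter hL)
  -- nonemptiness of branches
  have hNe : ∀ (K : Set Q) (ρ : ℝ), 0 < ρ → K.Nonempty → ∀ v : ℕ, ∃ i, e i ∈ Metric.thickening ρ K ∧ i ≠ v := by
    intro K ρ hρ hK v
    have hinf := he (Metric.thickening ρ K) Metric.isOpen_thickening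
      (hK.mono (Metric.self_subset_thickening hρ K))
    obtain ⟨i, hi, hiv⟩ := hinf.exists_notMem_finset {v}
    exact ⟨i, hi, by simpa using hiv⟩
  have hBne : (Br e s.x s.n s.K r).Nonempty := by
    obtain ⟨i, hi, _⟩ := hNe s.K r hr hKne 0
    refine ⟨fun m => if m < s.n then s.x m else i, ?_, ?_⟩
    · intro j hj; simp [hj]
    · intro m hm; simpa [not_lt.2 hm] using hi
  have hcov : Br e s.x s.n s.K r ⊆ ⋃ c ∈ T, M c := by
    intro y hy
    obtain ⟨q, hq, hyq⟩ := hinv y hy
    have := hT hq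
    simp only [mem_iUnion] at this ⊢
    obtain ⟨c, hc, hqc⟩ := this
    exact ⟨c, hc, q, ⟨hq, Metric.ball_subset_closedBall hqc⟩, hyq⟩
  obtain ⟨c, hc, x', hx', n', hn', hsub⟩ := Br_finite_union e s.K r T M hM s.x s.n hBne hcov
  have hx'M : x' ∈ M c := hsub ⟨hx', self_mem_cylinder _ _⟩
  obtain ⟨q0, hq0, _⟩ := hx'M
  obtain ⟨i, hi, hiz⟩ := hNe (K' c) (r / 2) (by linarith) ⟨q0, hq0⟩ (z n')
  have hthick : Metric.thickening (r / 2) (K' c) ⊆ Metric.thickening r s.K :=
    (Metric.thickening_mono (by linarith) _).trans (Metric.thickening_subset_of_subset _ inter_subset_left)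
  refine ⟨⟨Function.update x' n' i, n' + 1, K' c⟩, ⟨hKc.inter Metric.isClosed_closedBall, ⟨q0, hq0⟩, ?_⟩,
    inter_subset_left, ?_, Nat.lt_succ_of_le hn', ?_, ?_, n', Nat.lt_succ_self _, ?_⟩
  · intro y hy
    have hyM : y ∈ M c := by
      apply hsub
      refine ⟨⟨?_, ?_⟩, ?_⟩
      · intro j hj
        have h1 : j < n' := lt_of_lt_of_le hj hn'
        have := hy.1 j (by simp; omega)
        rw [this]
        simp only
        rw [Function.update_of_ne (by omega)]
        exact hx'.1 j hj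
      · intro m hm
        by_cases h1 : n' + 1 ≤ m
        · exact hthick (hy.2 m h1)
        · have h2 : m < n' + 1 := not_le.1 h1
          have := hy.1 m h2
          rw [this]
          simp only
          by_cases h3 : m = n'
          · subst h3
            rw [Function.update_self]
            exact hthick hi
          · rw [Function.update_of_ne h3]
            exact hx'.2 m hm
      · intro j hj
        have := hy.1 j (by simp; omega)
        rw [this]
        simp only
        rw [Function.update_of_ne (by omega)]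
    exact hyM
  · intro a ha b hb
    have h1 := Metric.mem_closedBall.1 ha.2
    have h2 := Metric.mem_closedBall'.1 hb.2
    linarith [dist_triangle a c b]
  · intro j hj
    simp only
    rw [Function.update_of_ne (by omega)]
    exact hx'.1 j hj
  · intro m hm hm'
    simp only at hm' ⊢
    by_cases h3 : m = n'
    · subst h3
      rw [Function.update_self]
      exact hthick hi
    · rw [Function.update_of_ne h3]
      exact hx'.2 m hm
  · simp only
    rw [Function.update_self]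
    exact hiz

theorem uncountable (e : ℕ → Q) (he : ∀ O : Set Q, IsOpen O → O.Nonempty → {i | e i ∈ O}.Infinite)
    (L : Set ((ℕ → ℕ) × Q)) (hL : IsClosed L) (hproj : ∀ x, ∃ q, (x, q) ∈ L) :
    ¬ {x : ℕ → ℕ | ∃ q, Tendsto (fun n => e (x n)) atTop (𝓝 q) ∧ (x, q) ∈ L}.Countable := by
  classical
  intro hcount
  -- enumerate
  obtain ⟨z, hz⟩ : ∃ z : ℕ → ℕ → ℕ,
      {x : ℕ → ℕ | ∃ q, Tendsto (fun n => e (x n)) atTop (𝓝 q) ∧ (x, q) ∈ L} ⊆ range z := by
    rcases Set.eq_empty_or_nonempty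
      {x : ℕ → ℕ | ∃ q, Tendsto (fun n => e (x n)) atTop (𝓝 q) ∧ (x, q) ∈ L} with h | h
    · exact ⟨fun _ => 0, by rw [h]; exact empty_subset _⟩
    · obtain ⟨z, hz⟩ := hcount.exists_eq_range h
      exact ⟨z, hz.le⟩
  let r : ℕ → ℝ := fun j => (1 / 2 : ℝ) ^ j
  have hrpos : ∀ j, 0 < r j := fun j => by positivity
  have hrs : ∀ j, r (j + 1) = r j / 2 := fun j => by simp only [r, pow_succ]; ring
  -- initial state
  have h0 : Inv e L (r 0) ⟨fun _ => 0, 0, univ⟩ := by
    refine ⟨isClosed_univ, ?_, fun y _ => ?_⟩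
    · obtain ⟨q, _⟩ := hproj (fun _ => 0)
      exact ⟨q, mem_univ _⟩
    · obtain ⟨q, hq⟩ := hproj y
      exact ⟨q, mem_univ _, hq⟩
  -- the sequence of states
  have hstep : ∀ (j : ℕ) (s : {s : State Q // Inv e L (r j) s}),
      ∃ t : {s : State Q // Inv e L (r (j + 1)) s}, Next e (r j) (z j) s.1 t.1 := by
    intro j s
    obtain ⟨t, ht, hn⟩ := step e he L hL (r j) (hrpos j) (z j) s.1 s.2
    rw [← hrs] at ht
    exact ⟨⟨t, ht⟩, hn⟩
  choose nx hnx using hstep
  let S : (j : ℕ) → {s : State Q // Inv e L (r j) s} := fun j =>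
    Nat.rec (motive := fun j => {s : State Q // Inv e L (r j) s}) ⟨_, h0⟩ (fun j s => nx j s) j
  have hS : ∀ j, Next e (r j) (z j) (S j).1 (S (j + 1)).1 := fun j => hnx j (S j)
  have hSinv : ∀ j, Inv e L (r j) (S j).1 := fun j => (S j).2
  have hmono : StrictMono (fun j => (S j).1.n) := strictMono_nat_of_lt_succ (fun j => (hS j).2.2.1)
  have hge : ∀ j, j ≤ (S j).1.n := fun j => hmono.id_le j
  -- limit branch
  let X : ℕ → ℕ := fun m => (S (m + 1)).1.x m
  have hcyl : ∀ j k, j ≤ k → (S k).1.x ∈ cylinder (S j).1.x (S j).1.n := by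
    intro j k hjk
    induction k, hjk using Nat.le_induction with
    | base => exact self_mem_cylinder _ _
    | succ k hjk ih =>
      intro i hi
      rw [(hS k).2.2.2.1 i (lt_of_lt_of_le hi (hmono.monotone hjk)), ih i hi]
  have hX : ∀ j, X ∈ cylinder (S j).1.x (S j).1.n := by
    intro j i hi
    simp only [X]
    rcases le_total j (i + 1) with h | h
    · exact hcyl j (i + 1) h i hi
    · exact (hcyl (i + 1) j h i (lt_of_lt_of_le (Nat.lt_succ_self i) (hge (i + 1)))).symm
  have hKmono : ∀ j k, j ≤ k → (S k).1.K ⊆ (S j).1.K := by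
    intro j k hjk
    induction k, hjk using Nat.le_induction with
    | base => exact subset_rfl
    | succ k hjk ih => exact (hS k).1.trans ih
  have hrmono : ∀ j k, j ≤ k → r k ≤ r j := by
    intro j k hjk
    exact pow_le_pow_of_le_one (by norm_num) (by norm_num) hjk
  have hXent : ∀ j m, (S j).1.n ≤ m → e (X m) ∈ Metric.thickening (r j) (S j).1.K := by
    intro j m hm
    -- find l with n_l ≤ m < n_{l+1}
    have hex : ∃ l, m < (S (l + 1)).1.n := ⟨m, lt_of_lt_of_le (Nat.lt_succ_self m) (hge (m + 1))⟩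
    let l := Nat.find hex
    have hl : m < (S (l + 1)).1.n := Nat.find_spec hex
    have hjl : j ≤ l := by
      by_contra h
      have : l + 1 ≤ j := by omega
      have := hmono.monotone this
      omega
    have hnl : (S l).1.n ≤ m := by
      rcases Nat.eq_zero_or_pos l with h0' | h0'
      · have : (S l).1.n ≤ (S j).1.n := by
          have : l = j := by omega
          rw [this]
        omega
      · by_contra h
        have hh : l - 1 < l := by omega
        apply Nat.find_min hex hh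
        have : l - 1 + 1 = l := by omega
        rw [this]; omega
    have hx : X m = (S (l + 1)).1.x m := hX (l + 1) m hl
    rw [hx]
    have := (hS l).2.2.2.2.1 m hnl hl
    exact (Metric.thickening_mono (hrmono j l hjl) _)
      (Metric.thickening_subset_of_subset _ (hKmono j l hjl) this)
  have hXB : ∀ j, X ∈ Br e (S j).1.x (S j).1.n (S j).1.K (r j) := fun j => ⟨hX j, hXent j⟩
  -- nested compact sets
  let C : ℕ → Set Q := fun j => (S j).1.K ∩ {q | (X, q) ∈ L}
  have hLX : IsClosed {q | (X, q) ∈ L} := hL.preimage (by fun_prop)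
  have hCcl : ∀ j, IsClosed (C j) := fun j => (hSinv j).1.inter hLX
  have hCne : ∀ j, (C j).Nonempty := by
    intro j
    obtain ⟨q, hq, hXq⟩ := (hSinv j).2.2 X (hXB j)
    exact ⟨q, hq, hXq⟩
  have hCanti : ∀ j, C (j + 1) ⊆ C j := fun j => inter_subset_inter_left _ (hS j).1
  obtain ⟨q, hq⟩ := IsCompact.nonempty_iInter_of_sequence_nonempty_isCompact_isClosed C hCanti hCne
    (hCcl 0).isCompact hCcl
  have hqK : ∀ j, q ∈ (S j).1.K := fun j => (mem_iInter.1 hq j).1
  have hqL : (X, q) ∈ L := (mem_iInter.1 hq 0).2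
  have hlim : Tendsto (fun n => e (X n)) atTop (𝓝 q) := by
    rw [Metric.tendsto_atTop]
    intro ε hε
    obtain ⟨j, hj⟩ : ∃ j : ℕ, 4 * r j < ε := by
      obtain ⟨j, hj⟩ := exists_pow_lt_of_lt_one (show (0 : ℝ) < ε / 4 by linarith)
        (show (1 / 2 : ℝ) < 1 by norm_num)
      exact ⟨j, by simp only [r]; linarith⟩
    refine ⟨(S (j + 1)).1.n, fun m hm => ?_⟩
    obtain ⟨k, hk, hdist⟩ := Metric.mem_thickening_iff.1 (hXent (j + 1) m hm)
    have h1 : dist k q ≤ r j := (hS j).2.1 k hk q (hqK (j + 1))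
    have h2 : r (j + 1) ≤ r j := hrmono _ _ (Nat.le_succ j)
    calc dist (e (X m)) q ≤ dist (e (X m)) k + dist k q := dist_triangle _ _ _
      _ < ε := by linarith [hrpos j]
  -- contradiction
  obtain ⟨j, hj⟩ := hz ⟨q, hlim, hqL⟩
  obtain ⟨m, hm, hne⟩ := (hS j).2.2.2.2.2
  apply hne
  rw [hj]
  exact (hX (j + 1) m hm).symm

end Pool.Agent.H87.Fusion
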