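import Mathlib

/-!
# From finite dimensional cozero covers to functions without common zeros
-/

set_option autoImplicit false

open Set Filter Topology

namespace Pool.Agent.H87.Nerve

/-- covering dimension at most `n` in the sense of finite cozero covers. -/
def DimLE (Y : Type) [TopologicalSpace Y] (n : ℕ) : Prop :=
  ∀ (m : ℕ) (U : Fin m → Set Y),
    (∀ i, ∃ f : Y → ℝ, Continuous f ∧ U i = {x | f x ≠ 0}) →
    (⋃ i, U i) = Set.univ →
    ∃ (l : ℕ) (V : Fin l → Set Y),
      (∀ j, ∃ f : Y → ℝ, Continuous f ∧ V j = {x | f x ≠ 0}) ∧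
      (⋃ j, V j) = Set.univ ∧
      (∀ j, ∃ i, V j ⊆ U i) ∧
      ∀ x, {j : Fin l | x ∈ V j}.ncard ≤ n + 1

/-- sign of a Boolean. -/
def sg (b : Bool) : ℝ := if b then 1 else -1

/-- a generic point of the open unit ball. -/
theorem exists_generic (n l : ℕ) (v : Fin l → (Fin (n + 1) → ℝ)) :
    ∃ z : Fin (n + 1) → ℝ, (∀ i, |z i| < 1) ∧
      ∀ J : Finset (Fin l), J.card ≤ n + 1 → z ∉ convexHull ℝ (v '' (J : Set (Fin l))) := by
  classical
  let bad : Set (Fin (n + 1) → ℝ) :=
    ⋃ J ∈ {J : Finset (Fin l) | J.card ≤ n + 1}, convexHull ℝ (v '' (J : Set (Fin l)))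
  have hbad : MeasureTheory.volume bad = 0 := by
    rw [MeasureTheory.measure_biUnion_null_iff (Set.to_countable _)]
    intro J hJ
    rcases J.eq_empty_or_nonempty with rfl | hne
    · simp
    · apply MeasureTheory.measure_mono_null (convexHull_subset_affineSpan _)
      apply MeasureTheory.Measure.addHaar_affineSubspace
      intro htop
      obtain ⟨k, hk⟩ : ∃ k, J.card = k + 1 := ⟨J.card - 1, by
        have := hne.card_pos; omega⟩
      have h1 := finrank_vectorSpan_image_finset_le ℝ v J hk
      have h2 : vectorSpan ℝ (v '' (J : Set (Fin l))) = ⊤ := by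
        rw [← direction_affineSpan, htop]
        exact AffineSubspace.direction_top ℝ _ _
      rw [Finset.coe_image, h2] at h1
      rw [finrank_top] at h1
      have h3 : Module.finrank ℝ (Fin (n + 1) → ℝ) = n + 1 := by simp
      rw [h3] at h1
      have : J.card ≤ n + 1 := hJ
      omega
  have hpos : 0 < MeasureTheory.volume (Metric.ball (0 : Fin (n + 1) → ℝ) 1) :=
    Metric.measure_ball_pos _ _ one_pos
  obtain ⟨z, hz, hzbad⟩ : ∃ z ∈ Metric.ball (0 : Fin (n + 1) → ℝ) 1, z ∉ bad := by
    by_contra hcon
    push Not at hcon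
    have : MeasureTheory.volume (Metric.ball (0 : Fin (n + 1) → ℝ) 1) ≤ 0 := by
      rw [← hbad]
      exact MeasureTheory.measure_mono hcon
    exact absurd this (not_le.2 hpos)
  refine ⟨z, fun i => ?_, fun J hJ hzJ => hzbad ?_⟩
  · have h1 : ‖z‖ < 1 := by simpa using hz
    exact lt_of_le_of_lt (norm_le_pi_norm z i) h1
  · simp only [bad, mem_iUnion]
    exact ⟨J, hJ, hzJ⟩

theorem nerve {Y : Type} [TopologicalSpace Y] (n : ℕ) (hdim : DimLE Y n)
    (f : Fin (n + 1) → Y → ℝ) (hf : ∀ i, Continuous (f i)) :
    ∃ g : Fin (n + 1) → Y → ℝ, (∀ i, Continuous (g i)) ∧ (∀ y, ∃ i, g i y ≠ 0) ∧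
      (∀ i y, 1 / 3 ≤ f i y → 0 < g i y) ∧ (∀ i y, f i y ≤ -(1 / 3) → g i y < 0) := by
  classical
  let W : (Fin (n + 1) → Bool) → Set Y := fun ε => {y | ∀ i, 0 < sg (ε i) * f i y + 1 / 3}
  let e : Fin (Fintype.card (Fin (n + 1) → Bool)) ≃ (Fin (n + 1) → Bool) :=
    (Fintype.equivFin _).symm
  have hWcoz : ∀ ε, ∃ h : Y → ℝ, Continuous h ∧ W ε = {x | h x ≠ 0} := by
    intro ε
    refine ⟨fun y => ∏ i, max 0 (sg (ε i) * f i y + 1 / 3), ?_, ?_⟩
    · apply continuous_finset_prod
      intro i _
      exact continuous_const.max ((continuous_const.mul (hf i)).add continuous_const)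
    · ext y
      simp only [W, mem_setOf_eq, Finset.prod_ne_zero_iff, Finset.mem_univ, true_implies]
      constructor
      · intro h i
        exact (lt_max_of_lt_right (h i)).ne'
      · intro h i
        by_contra hcon
        exact h i (max_eq_left (not_lt.1 hcon))
  obtain ⟨l, V, hVcoz, hVcov, hVref, hVord⟩ := hdim _ (fun i => W (e i)) (fun i => hWcoz _) (by
    rw [eq_univ_iff_forall]
    intro y
    rw [mem_iUnion]
    refine ⟨e.symm (fun i => decide (0 ≤ f i y)), ?_⟩
    rw [Equiv.apply_symm_apply]
    intro i
    by_cases h : 0 ≤ f i y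
    · simp only [h, decide_true, sg, if_true]
      linarith
    · simp only [h, decide_false, sg]
      push Not at h
      simp
      linarith)
  choose φ hφc hφ using hVcoz
  choose ρ hρ using hVref
  let v : Fin l → (Fin (n + 1) → ℝ) := fun j i => sg (e (ρ j) i)
  obtain ⟨z, hz1, hz2⟩ := exists_generic n l v
  let s : Y → ℝ := fun y => ∑ j, |φ j y|
  have hs : Continuous s := continuous_finset_sum _ (fun j _ => (hφc j).abs)
  have hspos : ∀ y, 0 < s y := by
    intro y
    have hy : y ∈ ⋃ j, V j := by rw [hVcov]; exact mem_univ _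
    obtain ⟨j, hj⟩ := mem_iUnion.1 hy
    rw [hφ j] at hj
    apply Finset.sum_pos'
    · intro i _; exact abs_nonneg _
    · exact ⟨j, Finset.mem_univ _, abs_pos.2 hj⟩
  let w : Fin l → Y → ℝ := fun j y => |φ j y| / s y
  have hwc : ∀ j, Continuous (w j) := fun j => (hφc j).abs.div hs (fun y => (hspos y).ne')
  have hw0 : ∀ j y, 0 ≤ w j y := fun j y => div_nonneg (abs_nonneg _) (hspos y).le
  have hw1 : ∀ y, ∑ j, w j y = 1 := by
    intro y
    simp only [w]
    rw [← Finset.sum_div]
    exact div_self (hspos y).ne'
  have hwV : ∀ j y, w j y ≠ 0 → y ∈ V j := by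
    intro j y h
    rw [hφ j]
    intro h0
    apply h
    simp [w, h0]
  refine ⟨fun i y => (∑ j, w j y * v j i) - z i, ?_, ?_, ?_, ?_⟩
  · intro i
    exact (continuous_finset_sum _ (fun j _ => (hwc j).mul continuous_const)).sub continuous_const
  · intro y
    by_contra hcon
    push Not at hcon
    let J : Finset (Fin l) := Finset.univ.filter (fun j => y ∈ V j)
    have hJ : J.card ≤ n + 1 := by
      have h1 := hVord y
      have h2 : {j : Fin l | y ∈ V j} = (J : Set (Fin l)) := by
        ext j; simp [J]
      rw [h2, Set.ncard_coe_finset] at h1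
      exact h1
    apply hz2 J hJ
    have hzeq : z = ∑ j ∈ J, w j y • v j := by
      funext i
      have h1 := hcon i
      rw [Finset.sum_apply]
      simp only [Pi.smul_apply, smul_eq_mul]
      rw [Finset.sum_filter]
      have : ∀ j, (if y ∈ V j then w j y * v j i else 0) = w j y * v j i := by
        intro j
        by_cases h : y ∈ V j
        · rw [if_pos h]
        · rw [if_neg h]
          have : w j y = 0 := by
            by_contra h'
            exact h (hwV j y h')
          rw [this, zero_mul]
      rw [Finset.sum_congr rfl (fun j _ => this j)]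
      linarith
    rw [hzeq]
    apply (convex_convexHull ℝ (v '' (J : Set (Fin l)))).sum_mem
    · intro j _; exact hw0 j y
    · rw [← hw1 y, Finset.sum_filter]
      apply Finset.sum_congr rfl
      intro j _
      by_cases h : y ∈ V j
      · rw [if_pos h]
      · rw [if_neg h]
        by_contra h'
        exact h (hwV j y (fun h'' => h' h''.symm))
    · intro j hj
      exact subset_convexHull ℝ _ ⟨j, hj, rfl⟩
  · intro i y hy
    have hval : ∀ j, w j y * v j i = w j y := by
      intro j
      by_cases h : w j y = 0
      · rw [h, zero_mul]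
      · have hyV := hρ j (hwV j y h)
        have h1 := hyV i
        have : v j i = 1 := by
          simp only [v]
          cases hb : e (ρ j) i
          · rw [hb] at h1
            simp only [sg] at h1
            simp at h1
            linarith
          · simp [sg]
        rw [this, mul_one]
    have : ∑ j, w j y * v j i = 1 := by
      rw [Finset.sum_congr rfl (fun j _ => hval j), hw1]
    simp only [this]
    have := (abs_lt.1 (hz1 i)).2
    linarith
  · intro i y hy
    have hval : ∀ j, w j y * v j i = - w j y := by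
      intro j
      by_cases h : w j y = 0
      · rw [h]; simp
      · have hyV := hρ j (hwV j y h)
        have h1 := hyV i
        have : v j i = -1 := by
          simp only [v]
          cases hb : e (ρ j) i
          · simp [sg]
          · rw [hb] at h1
            simp only [sg] at h1
            simp at h1
            linarith
        rw [this]; ring
    have : ∑ j, w j y * v j i = -1 := by
      rw [Finset.sum_congr rfl (fun j _ => hval j), Finset.sum_neg_distrib, hw1]
    simp only [this]
    have := (abs_lt.1 (hz1 i)).1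
    linarith

end Pool.Agent.H87.Nerve
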