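import Mathlib
import Pool.Agent.H87.Cons
import Pool.Agent.H87.Nerve

/-!
# The square is not countable dimensional
-/

set_option autoImplicit false

open Set Filter Topology TopologicalSpace

namespace Pool.Agent.H87.NotCD

open Pool.Agent.H87.Cons Pool.Agent.H87.Nerve

/-- The embedding of the graph into the target of `Phi`. -/
def kappa {Q : Type} (z : (ℕ → ℕ) × Q) : ((ℕ → ℕ) × Bool) × ((ℕ → ℕ) × Bool) × Q :=
  ((z.1, false), (z.1, true), z.2)

/-- separating functions -/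
theorem exists_sep {W : Type} [TopologicalSpace W] [MetrizableSpace W] (Cp Cm : Set W)
    (hCp : IsClosed Cp) (hCm : IsClosed Cm) (hCpne : Cp.Nonempty) (hCmne : Cm.Nonempty) :
    ∃ ψ : W → ℝ, Continuous ψ ∧ (∀ z ∈ Cp, z ∉ Cm → 0 < ψ z) ∧ (∀ z ∈ Cm, z ∉ Cp → ψ z < 0) ∧
      (∀ z ∈ Cp, ψ z = 0 → z ∈ Cm) ∧ (∀ z ∈ Cm, ψ z = 0 → z ∈ Cp) := by
  let : MetricSpace W := metrizableSpaceMetric W
  refine ⟨fun z => Metric.infDist z Cm - Metric.infDist z Cp,
    (Metric.continuous_infDist_pt _).sub (Metric.continuous_infDist_pt _), ?_, ?_, ?_, ?_⟩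
  · intro z hz hz'
    have h3 : 0 < Metric.infDist z Cm := (hCm.notMem_iff_infDist_pos hCmne).1 hz'
    have h4 : Metric.infDist z Cp = 0 := Metric.infDist_zero_of_mem hz
    simp only [h4]
    linarith
  · intro z hz hz'
    have h3 : 0 < Metric.infDist z Cp := (hCp.notMem_iff_infDist_pos hCpne).1 hz'
    have h4 : Metric.infDist z Cm = 0 := Metric.infDist_zero_of_mem hz
    simp only [h4]
    linarith
  · intro z hz h0
    have h4 : Metric.infDist z Cp = 0 := Metric.infDist_zero_of_mem hz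
    apply (hCm.mem_iff_infDist_zero hCmne).2
    simp only [h4] at h0
    linarith
  · intro z hz h0
    have h4 : Metric.infDist z Cm = 0 := Metric.infDist_zero_of_mem hz
    apply (hCp.mem_iff_infDist_zero hCpne).2
    simp only [h4] at h0
    linarith

theorem notCD {X Q Z : Type} [TopologicalSpace X] [MetricSpace Q] [SecondCountableTopology Q]
    (ι : X → (ℕ → ℕ) × Bool) (hh : X × X → Q) (hhc : Continuous hh) (hR : RProp ι hh)
    (δ : Z → X × X) (β : Z → ℕ → ℕ) (f : Z → Q)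
    (hδ : ∀ x, Phi ι hh (δ x) = kappa (β x, f x))
    (hsurj : ∀ w z, Phi ι hh w = kappa z → ∃ x, w = δ x)
    (hδ1 : Function.Injective fun x => (δ x).1) (hδ2 : Function.Injective fun x => (δ x).2)
    (hunc : ∀ L : Set ((ℕ → ℕ) × Q), IsClosed L → (∀ b, ∃ q, (b, q) ∈ L) →
      ¬ {x : Z | (β x, f x) ∈ L}.Countable)
    (c : ℕ → Q → ℝ) (hc : ∀ j, Continuous (c j)) (hc1 : ∀ j, ∃ q, c j q = 1)
    (hcm1 : ∀ j, ∃ q, c j q = -1)
    (hPM : ∀ ψ : ℕ → Q → ℝ, (∀ j, Continuous (ψ j)) → (∀ j q, c j q = 1 → 0 < ψ j q) →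
      (∀ j q, c j q = -1 → ψ j q < 0) → ∃ q, ∀ j, ψ j q = 0)
    (A : ℕ → Set (X × X)) (hcov : (⋃ k, A k) = univ) (hdim : ∀ k, ∃ n, DimLE (A k) n) : False := by
  classical
  choose n hn using hdim
  have hner := fun k => nerve (n k) (hn k) (fun i y => c (Nat.pair k i) (hh y.1))
    (fun i => (hc _).comp (hhc.comp continuous_subtype_val))
  choose g hgc hgnz hgpos hgneg using hner
  have hfδ : ∀ x, hh (δ x) = f x := by
    intro x
    have := congrArg (fun w => w.2.2) (hδ x)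
    simpa [Phi, kappa] using this
  let Γ : Z → (ℕ → ℕ) × Q := fun x => (β x, f x)
  let Tp : (k : ℕ) → Fin (n k + 1) → Set Z := fun k i => {x | ∃ h : δ x ∈ A k, 0 ≤ g k i ⟨δ x, h⟩}
  let Tm : (k : ℕ) → Fin (n k + 1) → Set Z := fun k i => {x | ∃ h : δ x ∈ A k, g k i ⟨δ x, h⟩ ≤ 0}
  let Fp : (k : ℕ) → Fin (n k + 1) → Set ((ℕ → ℕ) × Q) := fun k i => closure (Γ '' Tp k i)
  let Fm : (k : ℕ) → Fin (n k + 1) → Set ((ℕ → ℕ) × Q) := fun k i => closure (Γ '' Tm k i)
  let Hp : ℕ → Set ((ℕ → ℕ) × Q) := fun j => {z | c j z.2 = 1}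
  let Hm : ℕ → Set ((ℕ → ℕ) × Q) := fun j => {z | c j z.2 = -1}
  have hHp : ∀ j, IsClosed (Hp j) := fun j =>
    isClosed_eq ((hc j).comp continuous_snd) continuous_const
  have hHm : ∀ j, IsClosed (Hm j) := fun j =>
    isClosed_eq ((hc j).comp continuous_snd) continuous_const
  have hFp : ∀ k i, ∀ z ∈ Fp k i, -(1 / 3) ≤ c (Nat.pair k i) z.2 := by
    intro k i
    have hcl : IsClosed {z : (ℕ → ℕ) × Q | -(1 / 3) ≤ c (Nat.pair k i) z.2} :=
      isClosed_le continuous_const ((hc _).comp continuous_snd)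
    apply closure_minimal _ hcl
    rintro _ ⟨x, ⟨h, hx⟩, rfl⟩
    simp only [Γ, mem_ofPred_eq]
    by_contra hcon
    push Not at hcon
    have := hgneg k i ⟨δ x, h⟩ (by simp only [hfδ]; exact hcon.le)
    linarith
  have hFm : ∀ k i, ∀ z ∈ Fm k i, c (Nat.pair k i) z.2 ≤ 1 / 3 := by
    intro k i
    have hcl : IsClosed {z : (ℕ → ℕ) × Q | c (Nat.pair k i) z.2 ≤ 1 / 3} :=
      isClosed_le ((hc _).comp continuous_snd) continuous_const
    apply closure_minimal _ hcl
    rintro _ ⟨x, ⟨h, hx⟩, rfl⟩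
    simp only [Γ, mem_ofPred_eq]
    by_contra hcon
    push Not at hcon
    have := hgpos k i ⟨δ x, h⟩ (by simp only [hfδ]; exact hcon.le)
    linarith
  let Cp : (k : ℕ) → Fin (n k + 1) → Set ((ℕ → ℕ) × Q) := fun k i => Fp k i ∪ Hp (Nat.pair k i)
  let Cm : (k : ℕ) → Fin (n k + 1) → Set ((ℕ → ℕ) × Q) := fun k i => Fm k i ∪ Hm (Nat.pair k i)
  have hCp : ∀ k i, IsClosed (Cp k i) := fun k i => isClosed_closure.union (hHp _)
  have hCm : ∀ k i, IsClosed (Cm k i) := fun k i => isClosed_closure.union (hHm _)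
  have hCpne : ∀ k i, (Cp k i).Nonempty := by
    intro k i
    obtain ⟨q, hq⟩ := hc1 (Nat.pair k i)
    exact ⟨(fun _ => 0, q), Or.inr hq⟩
  have hCmne : ∀ k i, (Cm k i).Nonempty := by
    intro k i
    obtain ⟨q, hq⟩ := hcm1 (Nat.pair k i)
    exact ⟨(fun _ => 0, q), Or.inr hq⟩
  choose ψ hψc hψ1 hψ2 hψ3 hψ4 using fun (k : ℕ) (i : Fin (n k + 1)) =>
    exists_sep (Cp k i) (Cm k i) (hCp k i) (hCm k i) (hCpne k i) (hCmne k i)
  have hψp : ∀ (k : ℕ) (i : Fin (n k + 1)) (z : (ℕ → ℕ) × Q),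
      c (Nat.pair k i) z.2 = 1 → 0 < ψ k i z := by
    intro k i z hz
    apply hψ1 k i z (Or.inr hz)
    rintro (h | h)
    · have := hFm k i z h
      rw [hz] at this; norm_num at this
    · have : c (Nat.pair k i) z.2 = -1 := h
      rw [hz] at this; norm_num at this
  have hψm : ∀ (k : ℕ) (i : Fin (n k + 1)) (z : (ℕ → ℕ) × Q),
      c (Nat.pair k i) z.2 = -1 → ψ k i z < 0 := by
    intro k i z hz
    apply hψ2 k i z (Or.inr hz)
    rintro (h | h)
    · have := hFp k i z h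
      rw [hz] at this; norm_num at this
    · have : c (Nat.pair k i) z.2 = 1 := h
      rw [hz] at this; norm_num at this
  let L' : Set ((ℕ → ℕ) × Q) := {z | ∀ k i, ψ k i z = 0}
  have hL' : IsClosed L' := by
    have : L' = ⋂ k, ⋂ i, {z | ψ k i z = 0} := by
      ext z; simp [L']
    rw [this]
    exact isClosed_iInter (fun k => isClosed_iInter (fun i => isClosed_eq (hψc k i) continuous_const))
  have hproj : ∀ b, ∃ q, (b, q) ∈ L' := by
    intro b
    obtain ⟨q, hq⟩ := hPM (fun m q => if h : (Nat.unpair m).2 < n (Nat.unpair m).1 + 1 then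
      ψ (Nat.unpair m).1 ⟨(Nat.unpair m).2, h⟩ (b, q) else c m q) (by
        intro m
        by_cases h : (Nat.unpair m).2 < n (Nat.unpair m).1 + 1
        · simp only [h, dif_pos]
          exact (hψc _ _).comp (by fun_prop)
        · simp only [h, dif_neg, not_false_iff]
          exact hc m) (by
        intro m q hm
        by_cases h : (Nat.unpair m).2 < n (Nat.unpair m).1 + 1
        · simp only [h, dif_pos]
          apply hψp
          simp only [Nat.pair_unpair]
          exact hm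
        · simp only [h, dif_neg, not_false_iff]
          rw [hm]; norm_num) (by
        intro m q hm
        by_cases h : (Nat.unpair m).2 < n (Nat.unpair m).1 + 1
        · simp only [h, dif_pos]
          apply hψm
          simp only [Nat.pair_unpair]
          exact hm
        · simp only [h, dif_neg, not_false_iff]
          rw [hm]; norm_num)
    refine ⟨q, fun k i => ?_⟩
    have h1 := hq (Nat.pair k i)
    have h2 : (Nat.unpair (Nat.pair k i)).2 < n (Nat.unpair (Nat.pair k i)).1 + 1 := by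
      rw [Nat.unpair_pair]
      exact i.2
    rw [dif_pos h2] at h1
    have h3 : ∀ (a b' : ℕ) (h : b' < n a + 1), a = k → b' = i → ψ a ⟨b', h⟩ (b, q) = ψ k i (b, q) := by
      rintro a b' h rfl hb'
      have h4 : (⟨b', h⟩ : Fin (n a + 1)) = i := Fin.ext hb'
      rw [h4]
    rw [h3 _ _ h2 (by simp) (by simp)] at h1
    exact h1
  -- countable dense sets
  have hDp := fun k i => exists_dense_image (Phi ι hh) (δ '' Tp k i)
  have hDm := fun k i => exists_dense_image (Phi ι hh) (δ '' Tm k i)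
  choose Dp hDp1 hDp2 hDp3 using hDp
  choose Dm hDm1 hDm2 hDm3 using hDm
  let E : (Σ k, Fin (n k + 1)) × Bool → Set (X × X) := fun a =>
    if a.2 then Dp a.1.1 a.1.2 else Dm a.1.1 a.1.2
  let A' : ℕ → Set (X × X) := fun m => ⋃ a ∈ (Encodable.decode m : Option ((Σ k, Fin (n k + 1)) × Bool)), E a
  have hA'E : ∀ a, A' (Encodable.encode a) = E a := by
    intro a
    simp only [A', Encodable.encodek]
    simp
  have hEc : ∀ a, (E a).Countable := by
    intro a
    by_cases h : a.2 = true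
    · simp only [E, h, if_true]; exact hDp2 _ _
    · simp only [E, h]; exact hDm2 _ _
  have hA'c : ∀ m, (A' m).Countable := by
    intro m
    simp only [A']
    rcases hm : (Encodable.decode m : Option ((Σ k, Fin (n k + 1)) × Bool)) with _ | a
    · simp
    · simpa using hEc a
  let L : Set (((ℕ → ℕ) × Bool) × ((ℕ → ℕ) × Bool) × Q) :=
    {w | w.1.2 = false ∧ w.2.1.2 = true ∧ w.1.1 = w.2.1.1 ∧ (w.1.1, w.2.2) ∈ L'}
  have hL : IsClosed L := by
    have h1 : IsClosed {w : ((ℕ → ℕ) × Bool) × ((ℕ → ℕ) × Bool) × Q | w.1.2 = false} :=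
      isClosed_eq (by fun_prop) continuous_const
    have h2 : IsClosed {w : ((ℕ → ℕ) × Bool) × ((ℕ → ℕ) × Bool) × Q | w.2.1.2 = true} :=
      isClosed_eq (by fun_prop) continuous_const
    have h3 : IsClosed {w : ((ℕ → ℕ) × Bool) × ((ℕ → ℕ) × Bool) × Q | w.1.1 = w.2.1.1} :=
      isClosed_eq (by fun_prop) (by fun_prop)
    have h4 : IsClosed {w : ((ℕ → ℕ) × Bool) × ((ℕ → ℕ) × Bool) × Q | (w.1.1, w.2.2) ∈ L'} :=
      hL'.preimage (by fun_prop)
    exact h1.inter (h2.inter (h3.inter h4))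
  have hmemL : ∀ w, Phi ι hh w ∈ L → ∃ x, w = δ x ∧ Γ x ∈ L' := by
    intro w hw
    have heq : Phi ι hh w = kappa ((Phi ι hh w).1.1, (Phi ι hh w).2.2) := by
      obtain ⟨h1, h2, h3, _⟩ := hw
      unfold kappa
      ext1
      · ext1
        · rfl
        · exact h1
      · ext1
        · ext1
          · exact h3.symm
          · exact h2
        · rfl
    obtain ⟨x, rfl⟩ := hsurj w _ heq
    refine ⟨x, rfl, ?_⟩
    have h4 := hw.2.2.2
    rw [hδ] at h4
    exact h4
  obtain ⟨w, hwL, hw⟩ := hR A' hA'c L hL (by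
    rintro ⟨Y, hY, h⟩
    apply hunc L' hL' hproj
    have hsub : {x : Z | (β x, f x) ∈ L'} ⊆ (fun x => (δ x).1) ⁻¹' Y ∪ (fun x => (δ x).2) ⁻¹' Y := by
      intro x hx
      apply h (δ x)
      rw [hδ]
      exact ⟨rfl, rfl, rfl, hx⟩
    exact ((hY.preimage hδ1).union (hY.preimage hδ2)).mono hsub)
  obtain ⟨x, rfl, hxL⟩ := hmemL w hwL
  have hxA : δ x ∈ ⋃ k, A k := by rw [hcov]; exact mem_univ _
  obtain ⟨k, hk⟩ := mem_iUnion.1 hxA
  obtain ⟨i, hi⟩ := hgnz k ⟨δ x, hk⟩
  have hψ0 : ψ k i (Γ x) = 0 := hxL k i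
  have hpm : Γ x ∈ Fp k i ∧ Γ x ∈ Fm k i := by
    rcases le_total 0 (g k i ⟨δ x, hk⟩) with h | h
    · have h1 : Γ x ∈ Fp k i := subset_closure ⟨x, ⟨hk, h⟩, rfl⟩
      refine ⟨h1, ?_⟩
      rcases hψ3 k i (Γ x) (Or.inl h1) hψ0 with h4 | h4
      · exact h4
      · exfalso
        have h5 := hFp k i _ h1
        have h6 : c (Nat.pair k i) (Γ x).2 = -1 := h4
        rw [h6] at h5; norm_num at h5
    · have h1 : Γ x ∈ Fm k i := subset_closure ⟨x, ⟨hk, h⟩, rfl⟩
      refine ⟨?_, h1⟩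
      rcases hψ4 k i (Γ x) (Or.inl h1) hψ0 with h4 | h4
      · exact h4
      · exfalso
        have h5 := hFm k i _ h1
        have h6 : c (Nat.pair k i) (Γ x).2 = 1 := h4
        rw [h6] at h5; norm_num at h5
  have hkc : Continuous (kappa : (ℕ → ℕ) × Q → _) := by
    unfold kappa; fun_prop
  have hcl : ∀ (T : Set Z) (D : Set (X × X)), D ⊆ δ '' T → Phi ι hh '' (δ '' T) ⊆ closure (Phi ι hh '' D) →
      Γ x ∈ closure (Γ '' T) → Phi ι hh (δ x) ∈ closure (Phi ι hh '' D) := by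
    intro T D _ h2 h3
    have h4 : kappa (Γ x) ∈ closure (kappa '' (Γ '' T)) :=
      image_closure_subset_closure_image hkc ⟨_, h3, rfl⟩
    have h5 : kappa '' (Γ '' T) = Phi ι hh '' (δ '' T) := by
      rw [image_image, image_image]
      apply image_congr
      intro y _
      exact (hδ y).symm
    rw [h5] at h4
    rw [hδ]
    exact (closure_minimal h2 isClosed_closure) h4
  have hp : δ x ∈ closure (Dp k i) := by
    have := hw (Encodable.encode ((⟨k, i⟩, true) : (Σ k, Fin (n k + 1)) × Bool))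
    rw [hA'E] at this
    simp only [E, if_true] at this
    exact this (hcl _ _ (hDp1 k i) (hDp3 k i) hpm.1)
  have hm : δ x ∈ closure (Dm k i) := by
    have := hw (Encodable.encode ((⟨k, i⟩, false) : (Σ k, Fin (n k + 1)) × Bool))
    rw [hA'E] at this
    simp only [E] at this
    exact this (hcl _ _ (hDm1 k i) (hDm3 k i) hpm.2)
  have hp' : 0 ≤ g k i ⟨δ x, hk⟩ := by
    have hS : IsClosed {y : A k | 0 ≤ g k i y} := isClosed_le continuous_const (hgc k i)
    have h1 : (⟨δ x, hk⟩ : A k) ∈ closure {y : A k | 0 ≤ g k i y} := by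
      rw [closure_subtype]
      apply closure_mono _ hp
      intro d hd
      obtain ⟨y, ⟨hy, hy'⟩, rfl⟩ := hDp1 k i hd
      exact ⟨⟨δ y, hy⟩, hy', rfl⟩
    rw [hS.closure_eq] at h1
    exact h1
  have hm' : g k i ⟨δ x, hk⟩ ≤ 0 := by
    have hS : IsClosed {y : A k | g k i y ≤ 0} := isClosed_le (hgc k i) continuous_const
    have h1 : (⟨δ x, hk⟩ : A k) ∈ closure {y : A k | g k i y ≤ 0} := by
      rw [closure_subtype]
      apply closure_mono _ hm
      intro d hd
      obtain ⟨y, ⟨hy, hy'⟩, rfl⟩ := hDm1 k i hd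
      exact ⟨⟨δ y, hy⟩, hy', rfl⟩
    rw [hS.closure_eq] at h1
    exact h1
  exact hi (le_antisymm hm' hp')

end Pool.Agent.H87.NotCD
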