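import Mathlib

/-!
# A combinatorial proof of the Poincare-Miranda theorem in the Hilbert cube

We use a mod 2 cup product computation on the cubical grid.
-/

set_option autoImplicit false

open Finset

namespace Pool.Agent.H87.PM

/-- `x + e_j`. -/
def inc (x : ℕ → ℕ) (j : ℕ) : ℕ → ℕ := Function.update x j (x j + 1)

theorem inc_comm (x : ℕ → ℕ) {i j : ℕ} (h : i ≠ j) : inc (inc x i) j = inc (inc x j) i := by
  unfold inc
  rw [Function.update_comm h]
  simp [Function.update_of_ne h, Function.update_of_ne h.symm]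

/-- Cup product of the coboundaries of `a i`, `i ∈ l`, on the cell with base point `x` and
directions `J`. -/
def E (a : ℕ → (ℕ → ℕ) → ZMod 2) : List ℕ → (ℕ → ℕ) → Finset ℕ → ZMod 2
  | [], _, _ => 1
  | i :: l, x, J => ∑ j ∈ J, (a i (inc x j) - a i x) * E a l (inc x j) (J.erase j)

variable (a : ℕ → (ℕ → ℕ) → ZMod 2)

theorem sum_offdiag_symm (J : Finset ℕ) (F : ℕ → ℕ → ZMod 2) (hF : ∀ i j, F i j = F j i) :
    ∑ j ∈ J, ∑ i ∈ J.erase j, F i j = 0 := by
  classical
  induction J using Finset.induction_on with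
  | empty => simp
  | insert b J hb ih =>
    rw [Finset.sum_insert hb]
    have h1 : (insert b J).erase b = J := Finset.erase_insert hb
    rw [h1]
    have h2 : ∀ j ∈ J, ∑ i ∈ (insert b J).erase j, F i j = F b j + ∑ i ∈ J.erase j, F i j := by
      intro j hj
      have hne : j ≠ b := fun h => hb (h ▸ hj)
      rw [Finset.erase_insert_of_ne hne.symm, Finset.sum_insert]
      intro h
      exact hb (Finset.mem_of_mem_erase h)
    rw [Finset.sum_congr rfl h2, Finset.sum_add_distrib, ih, add_zero]
    rw [← Finset.sum_add_distrib]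
    apply Finset.sum_eq_zero
    intro j _
    rw [hF b j]
    exact CharTwo.add_self_eq_zero _

theorem closed (l : List ℕ) : ∀ (x : ℕ → ℕ) (J : Finset ℕ), J.card = l.length + 1 →
    ∑ j ∈ J, E a l (inc x j) (J.erase j) = ∑ j ∈ J, E a l x (J.erase j) := by
  induction l with
  | nil => intro x J _; simp [E]
  | cons c l ih =>
    intro x J hJ
    have hJ' : ∀ j ∈ J, (J.erase j).card = l.length + 1 := by
      intro j hj
      rw [Finset.card_erase_of_mem hj, hJ]
      simp
    simp only [E]
    -- left side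
    have hL : ∑ j ∈ J, ∑ i ∈ J.erase j,
        (a c (inc (inc x j) i) - a c (inc x j)) * E a l (inc (inc x j) i) ((J.erase j).erase i)
        = ∑ j ∈ J, ∑ i ∈ J.erase j, a c (inc x j) * E a l (inc x j) ((J.erase j).erase i) := by
      have e1 : ∑ j ∈ J, ∑ i ∈ J.erase j,
          (a c (inc (inc x j) i) - a c (inc x j)) * E a l (inc (inc x j) i) ((J.erase j).erase i)
          = ∑ j ∈ J, ∑ i ∈ J.erase j,
              a c (inc (inc x j) i) * E a l (inc (inc x j) i) ((J.erase j).erase i)
            + ∑ j ∈ J, ∑ i ∈ J.erase j,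
              a c (inc x j) * E a l (inc (inc x j) i) ((J.erase j).erase i) := by
        rw [← Finset.sum_add_distrib]
        apply Finset.sum_congr rfl
        intro j _
        rw [← Finset.sum_add_distrib]
        apply Finset.sum_congr rfl
        intro i _
        rw [CharTwo.sub_eq_add]
        ring
      rw [e1]
      have e2 : ∑ j ∈ J, ∑ i ∈ J.erase j,
              a c (inc (inc x j) i) * E a l (inc (inc x j) i) ((J.erase j).erase i) = 0 := by
        have : ∀ j ∈ J, ∀ i ∈ J.erase j,
            a c (inc (inc x j) i) * E a l (inc (inc x j) i) ((J.erase j).erase i)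
            = (fun i j => a c (if i = j then x else inc (inc x j) i) *
              E a l (if i = j then x else inc (inc x j) i) ((J.erase j).erase i)) i j := by
          intro j _ i hi
          have hij : i ≠ j := Finset.ne_of_mem_erase hi
          simp [hij]
        rw [Finset.sum_congr rfl (fun j hj => Finset.sum_congr rfl (this j hj))]
        apply sum_offdiag_symm
        intro i j
        by_cases hij : i = j
        · subst hij; rfl
        · have hji : j ≠ i := fun h => hij h.symm
          simp only [hij, hji, if_false]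
          rw [inc_comm x hij, Finset.erase_right_comm]
      rw [e2, zero_add]
      apply Finset.sum_congr rfl
      intro j hj
      rw [← Finset.mul_sum, ← Finset.mul_sum]
      rw [ih (inc x j) (J.erase j) (hJ' j hj)]
    rw [hL]
    -- right side
    have hR : ∑ j ∈ J, ∑ i ∈ J.erase j,
        (a c (inc x i) - a c x) * E a l (inc x i) ((J.erase j).erase i)
        = ∑ j ∈ J, ∑ i ∈ J.erase j, a c (inc x i) * E a l (inc x i) ((J.erase j).erase i) := by
      have e1 : ∑ j ∈ J, ∑ i ∈ J.erase j,
          (a c (inc x i) - a c x) * E a l (inc x i) ((J.erase j).erase i)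
          = ∑ j ∈ J, ∑ i ∈ J.erase j, a c (inc x i) * E a l (inc x i) ((J.erase j).erase i)
            + ∑ j ∈ J, ∑ i ∈ J.erase j, a c x * E a l (inc x i) ((J.erase j).erase i) := by
        rw [← Finset.sum_add_distrib]
        apply Finset.sum_congr rfl
        intro j _
        rw [← Finset.sum_add_distrib]
        apply Finset.sum_congr rfl
        intro i _
        rw [CharTwo.sub_eq_add]
        ring
      rw [e1]
      have e2 : ∑ j ∈ J, ∑ i ∈ J.erase j, a c x * E a l (inc x i) ((J.erase j).erase i) = 0 := by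
        have : ∀ j ∈ J, ∑ i ∈ J.erase j, a c x * E a l (inc x i) ((J.erase j).erase i)
            = ∑ i ∈ J.erase j, a c x * E a l x ((J.erase j).erase i) := by
          intro j hj
          rw [← Finset.mul_sum, ← Finset.mul_sum, ih x (J.erase j) (hJ' j hj)]
        rw [Finset.sum_congr rfl this]
        apply sum_offdiag_symm J (fun i j => a c x * E a l x ((J.erase j).erase i))
        intro i j
        rw [Finset.erase_right_comm]
      rw [e2, add_zero]
    rw [hR]
    -- swap
    rw [Finset.sum_sigma', Finset.sum_sigma']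
    refine Finset.sum_bij' (fun p _ => ⟨p.2, p.1⟩) (fun p _ => ⟨p.2, p.1⟩) ?_ ?_ ?_ ?_ ?_
    · rintro ⟨j, i⟩ h
      simp only [Finset.mem_sigma, Finset.mem_erase] at h ⊢
      exact ⟨h.2.2, fun h' => h.2.1 h'.symm, h.1⟩
    · rintro ⟨j, i⟩ h
      simp only [Finset.mem_sigma, Finset.mem_erase] at h ⊢
      exact ⟨h.2.2, fun h' => h.2.1 h'.symm, h.1⟩
    · rintro ⟨j, i⟩ _; rfl
    · rintro ⟨j, i⟩ _; rfl
    · rintro ⟨j, i⟩ _
      rw [Finset.erase_right_comm]

theorem E_const (l : List ℕ) : ∀ (x : ℕ → ℕ) (J : Finset ℕ) (j : ℕ), j ∈ l → j ∉ J →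
    (∀ z : ℕ → ℕ, z j = x j → a j z = a j x) → E a l x J = 0 := by
  induction l with
  | nil => intro x J j hj; simp at hj
  | cons c l ih =>
    intro x J j hj hJ hc
    simp only [E]
    apply Finset.sum_eq_zero
    intro k hk
    have hkj : j ≠ k := fun h => hJ (h ▸ hk)
    have hx : (inc x k) j = x j := by simp [inc, Function.update_of_ne hkj]
    rcases List.mem_cons.1 hj with h | h
    · subst h
      rw [hc (inc x k) hx, sub_self, zero_mul]
    · rw [ih (inc x k) (J.erase k) j h (fun h' => hJ (Finset.mem_of_mem_erase h')), mul_zero]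
      intro z hz
      rw [hc z (hz.trans hx), hc (inc x k) hx]

/-- iterated sum over the box in directions `D`. -/
def box (m : ℕ) : List ℕ → ((ℕ → ℕ) → ZMod 2) → (ℕ → ℕ) → ZMod 2
  | [], F, y => F y
  | j :: D, F, y => ∑ t ∈ Finset.range m, box m D F (Function.update y j t)

theorem box_congr (m : ℕ) (D : List ℕ) (F G : (ℕ → ℕ) → ZMod 2) (h : ∀ x, F x = G x)
    (y : ℕ → ℕ) : box m D F y = box m D G y := by
  have : F = G := funext h
  rw [this]

theorem box_update (m : ℕ) (D : List ℕ) (F : (ℕ → ℕ) → ZMod 2) : ∀ (y : ℕ → ℕ) (j t : ℕ), j ∉ D →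
    box m D F (Function.update y j t) = box m D (fun x => F (Function.update x j t)) y := by
  induction D with
  | nil => intro y j t _; rfl
  | cons k D ih =>
    intro y j t hj
    simp only [List.mem_cons, not_or] at hj
    simp only [box]
    apply Finset.sum_congr rfl
    intro s _
    rw [Function.update_comm hj.1, ih _ _ _ hj.2]

theorem box_sum {ι : Type} (m : ℕ) (D : List ℕ) (S : Finset ι) (F : ι → (ℕ → ℕ) → ZMod 2) :
    ∀ (y : ℕ → ℕ), box m D (fun x => ∑ t ∈ S, F t x) y = ∑ t ∈ S, box m D (F t) y := by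
  induction D with
  | nil => intro y; rfl
  | cons k D ih =>
    intro y
    simp only [box]
    rw [Finset.sum_comm]
    apply Finset.sum_congr rfl
    intro s _
    rw [ih]

theorem box_zero (m : ℕ) (D : List ℕ) : ∀ (y : ℕ → ℕ), box m D (fun _ => 0) y = 0 := by
  induction D with
  | nil => intro y; rfl
  | cons k D ih =>
    intro y
    simp only [box]
    apply Finset.sum_eq_zero
    intro s _
    exact ih _

theorem box_erase (m : ℕ) (D : List ℕ) (F : (ℕ → ℕ) → ZMod 2) : ∀ (y : ℕ → ℕ) (j : ℕ), j ∈ D →
    D.Nodup → box m D F y =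
      box m (D.erase j) (fun x => ∑ t ∈ Finset.range m, F (Function.update x j t)) y := by
  induction D with
  | nil => intro y j hj; simp at hj
  | cons k D ih =>
    intro y j hj hD
    rw [List.nodup_cons] at hD
    by_cases hkj : k = j
    · subst hkj
      rw [List.erase_cons_head]
      simp only [box]
      rw [box_sum]
      apply Finset.sum_congr rfl
      intro t _
      rw [box_update m D F y k t hD.1]
    · have hj' : j ∈ D := by
        rcases List.mem_cons.1 hj with h | h
        · exact absurd h.symm hkj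
        · exact h
      rw [List.erase_cons_tail (by simpa using hkj)]
      simp only [box]
      apply Finset.sum_congr rfl
      intro s _
      rw [ih _ j hj' hD.2]

theorem inc_update (x : ℕ → ℕ) (j t : ℕ) :
    inc (Function.update x j t) j = Function.update x j (t + 1) := by
  simp [inc]

theorem box_one (m : ℕ) (h0 : ∀ i x, x i = 0 → a i x = 0)
    (h1 : ∀ i x, x i = m → a i x = 1) (l : List ℕ) (hl : l.Nodup) :
    ∀ (y : ℕ → ℕ), box m l (fun x => E a l x l.toFinset) y = 1 := by
  induction l with
  | nil => intro y; rfl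
  | cons i l ih =>
    intro y
    have hl' := List.nodup_cons.1 hl
    have hi : i ∉ l.toFinset := by simpa using hl'.1
    have hcard : ((i :: l).toFinset).card = l.length + 1 := by
      rw [List.toFinset_card_of_nodup hl]; rfl
    set J := (i :: l).toFinset with hJ
    -- rewrite E as sum of differences
    have hE : ∀ x, E a (i :: l) x J = ∑ j ∈ J,
        (a i (inc x j) * E a l (inc x j) (J.erase j) - a i x * E a l x (J.erase j)) := by
      intro x
      simp only [E]
      have e1 : ∑ j ∈ J, (a i (inc x j) - a i x) * E a l (inc x j) (J.erase j)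
          = ∑ j ∈ J, a i (inc x j) * E a l (inc x j) (J.erase j)
            - a i x * ∑ j ∈ J, E a l (inc x j) (J.erase j) := by
        rw [Finset.mul_sum, ← Finset.sum_sub_distrib]
        apply Finset.sum_congr rfl
        intro j _
        ring
      rw [e1, closed a l x J hcard, Finset.mul_sum, ← Finset.sum_sub_distrib]
    rw [box_congr m (i :: l) _ _ hE, box_sum]
    -- each term
    have hterm : ∀ j ∈ J, box m (i :: l) (fun x =>
        (a i (inc x j) * E a l (inc x j) (J.erase j) - a i x * E a l x (J.erase j))) y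
        = if j = i then 1 else 0 := by
      intro j hj
      have hjl : j ∈ i :: l := by simpa [hJ] using hj
      rw [box_erase m (i :: l) _ y j hjl hl]
      have htel : ∀ x : ℕ → ℕ, ∑ t ∈ Finset.range m,
          (a i (inc (Function.update x j t) j) * E a l (inc (Function.update x j t) j) (J.erase j)
            - a i (Function.update x j t) * E a l (Function.update x j t) (J.erase j))
          = a i (Function.update x j m) * E a l (Function.update x j m) (J.erase j)
            - a i (Function.update x j 0) * E a l (Function.update x j 0) (J.erase j) := by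
        intro x
        simp only [inc_update]
        exact Finset.sum_range_sub (fun t => a i (Function.update x j t) *
          E a l (Function.update x j t) (J.erase j)) m
      rw [box_congr m _ _ _ htel]
      by_cases hji : j = i
      · subst hji
        rw [List.erase_cons_head, if_pos rfl]
        have hJe : J.erase j = l.toFinset := by
          rw [hJ, List.toFinset_cons, Finset.erase_insert hi]
        have : ∀ x : ℕ → ℕ, a j (Function.update x j m) * E a l (Function.update x j m) (J.erase j)
            - a j (Function.update x j 0) * E a l (Function.update x j 0) (J.erase j)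
            = (fun x => E a l x l.toFinset) (Function.update x j m) := by
          intro x
          rw [h0 j (Function.update x j 0) (by simp), h1 j (Function.update x j m) (by simp), hJe]
          ring
        rw [box_congr m _ _ _ this]
        have hbu := box_update m l (fun x => E a l x l.toFinset) y j m hl'.1
        exact hbu.symm.trans (ih hl'.2 _)
      · rw [if_neg hji]
        have hjl' : j ∈ l := by
          rcases List.mem_cons.1 hjl with h | h
          · exact absurd h hji
          · exact h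
        have : ∀ x : ℕ → ℕ, a i (Function.update x j m) * E a l (Function.update x j m) (J.erase j)
            - a i (Function.update x j 0) * E a l (Function.update x j 0) (J.erase j) = 0 := by
          intro x
          have e1 : E a l (Function.update x j m) (J.erase j) = 0 := by
            apply E_const a l _ _ j hjl' (Finset.notMem_erase j J)
            intro z hz
            rw [h1 j z (by rw [hz]; simp), h1 j _ (by simp)]
          have e2 : E a l (Function.update x j 0) (J.erase j) = 0 := by
            apply E_const a l _ _ j hjl' (Finset.notMem_erase j J)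
            intro z hz
            rw [h0 j z (by rw [hz]; simp), h0 j _ (by simp)]
          rw [e1, e2]; ring
        rw [box_congr m _ _ _ this, box_zero]
    rw [Finset.sum_congr rfl hterm]
    have : i ∈ J := by simp [hJ]
    simp [this]

theorem box_ne_zero (m : ℕ) (D : List ℕ) (F : (ℕ → ℕ) → ZMod 2) : ∀ (y : ℕ → ℕ),
    box m D F y ≠ 0 → ∃ x, F x ≠ 0 := by
  induction D with
  | nil => intro y h; exact ⟨y, h⟩
  | cons k D ih =>
    intro y h
    simp only [box] at h
    obtain ⟨s, _, hs⟩ := Finset.exists_ne_zero_of_sum_ne_zero h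
    exact ih _ hs

theorem E_ne_zero (l : List ℕ) : ∀ (x : ℕ → ℕ) (J : Finset ℕ), E a l x J ≠ 0 →
    ∀ i ∈ l, ∃ z z' : ℕ → ℕ, (∀ k, x k ≤ z k ∧ z k ≤ x k + (if k ∈ J then 1 else 0)) ∧
      (∀ k, x k ≤ z' k ∧ z' k ≤ x k + (if k ∈ J then 1 else 0)) ∧ a i z = 0 ∧ a i z' = 1 := by
  induction l with
  | nil => intro x J _ i hi; simp at hi
  | cons c l ih =>
    intro x J h i hi
    simp only [E] at h
    obtain ⟨j, hj, hne⟩ := Finset.exists_ne_zero_of_sum_ne_zero h
    have hne1 := left_ne_zero_of_mul hne
    have hne2 := right_ne_zero_of_mul hne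
    have hincb : ∀ k, x k ≤ inc x j k ∧ inc x j k ≤ x k + (if k ∈ J then 1 else 0) := by
      intro k
      by_cases hk : k = j
      · subst hk; simp [inc, hj]
      · simp [inc, Function.update_of_ne hk]
    rcases List.mem_cons.1 hi with h' | h'
    · subst h'
      have hz2 : ∀ u : ZMod 2, u = 0 ∨ u = 1 := by decide
      have hxb : ∀ k, x k ≤ x k ∧ x k ≤ x k + (if k ∈ J then 1 else 0) := fun k => by simp
      rcases hz2 (a i x) with h0 | h0 <;> rcases hz2 (a i (inc x j)) with h1 | h1
      · exact absurd (by rw [h0, h1]; rfl) hne1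
      · exact ⟨x, inc x j, hxb, hincb, h0, h1⟩
      · exact ⟨inc x j, x, hincb, hxb, h1, h0⟩
      · exact absurd (by rw [h0, h1]; rfl) hne1
    · obtain ⟨z, z', hz, hz', h1, h2⟩ := ih (inc x j) (J.erase j) hne2 i h'
      have key : ∀ z : ℕ → ℕ, (∀ k, inc x j k ≤ z k ∧
          z k ≤ inc x j k + (if k ∈ J.erase j then 1 else 0)) →
          (∀ k, x k ≤ z k ∧ z k ≤ x k + (if k ∈ J then 1 else 0)) := by
        intro z hz k
        refine ⟨(hincb k).1.trans (hz k).1, (hz k).2.trans ?_⟩
        by_cases hk : k = j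
        · subst hk; simp [inc, hj]
        · by_cases hkJ : k ∈ J
          · simp [inc, hk, hkJ]
          · simp [inc, hk, hkJ]
      exact ⟨z, z', key z hz, key z' hz', h1, h2⟩

/-- The discrete Poincare-Miranda theorem. -/
theorem discrete (m N : ℕ) (h0 : ∀ i x, x i = 0 → a i x = 0)
    (h1 : ∀ i x, x i = m → a i x = 1) :
    ∃ x : ℕ → ℕ, ∀ i < N, ∃ z z' : ℕ → ℕ, (∀ k, x k ≤ z k ∧ z k ≤ x k + 1) ∧
      (∀ k, x k ≤ z' k ∧ z' k ≤ x k + 1) ∧ a i z = 0 ∧ a i z' = 1 := by
  have h := box_one a m h0 h1 (List.range N) List.nodup_range (fun _ => 0)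
  obtain ⟨x, hx⟩ := box_ne_zero m (List.range N) _ (fun _ => 0) (by rw [h]; exact one_ne_zero)
  refine ⟨x, fun i hi => ?_⟩
  obtain ⟨z, z', hz, hz', h1, h2⟩ := E_ne_zero a _ x _ hx i (List.mem_range.2 hi)
  refine ⟨z, z', fun k => ⟨(hz k).1, (hz k).2.trans ?_⟩, fun k => ⟨(hz' k).1, (hz' k).2.trans ?_⟩,
    h1, h2⟩ <;> · split_ifs <;> simp

/-- The closed interval `[-1,1]`. -/
abbrev II : Type := Set.Icc (-1 : ℝ) 1

/-- Grid point number `min t m` of the grid with `m` intervals in `[-1,1]`. -/
noncomputable def gp (m t : ℕ) : ℝ := -1 + 2 * ((min t m : ℕ) : ℝ) / m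

theorem gp_mem (m t : ℕ) (hm : 0 < m) : gp m t ∈ Set.Icc (-1 : ℝ) 1 := by
  have hm' : (0 : ℝ) < m := by exact_mod_cast hm
  have h2 : ((min t m : ℕ) : ℝ) ≤ m := by exact_mod_cast min_le_right t m
  have h3 : (0 : ℝ) ≤ ((min t m : ℕ) : ℝ) := by positivity
  unfold gp
  constructor
  · have : 0 ≤ 2 * ((min t m : ℕ) : ℝ) / m := by positivity
    linarith
  · have : 2 * ((min t m : ℕ) : ℝ) / m ≤ 2 := by
      rw [div_le_iff₀ hm']; linarith
    linarith

theorem gp_dist (m t s : ℕ) (hm : 0 < m) (h1 : t ≤ s) (h2 : s ≤ t + 1) :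
    |gp m s - gp m t| ≤ 2 / m := by
  have hm' : (0 : ℝ) < m := by exact_mod_cast hm
  have h3 : min t m ≤ min s m := by omega
  have h4 : min s m ≤ min t m + 1 := by omega
  have h3' : ((min t m : ℕ) : ℝ) ≤ ((min s m : ℕ) : ℝ) := by exact_mod_cast h3
  have h4' : ((min s m : ℕ) : ℝ) ≤ ((min t m : ℕ) : ℝ) + 1 := by exact_mod_cast h4
  unfold gp
  have : -1 + 2 * ((min s m : ℕ) : ℝ) / m - (-1 + 2 * ((min t m : ℕ) : ℝ) / m)
      = 2 * (((min s m : ℕ) : ℝ) - ((min t m : ℕ) : ℝ)) / m := by ring
  rw [this, abs_of_nonneg (by apply div_nonneg _ hm'.le; linarith)]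
  apply div_le_div_of_nonneg_right _ hm'.le
  linarith

/-- The point of the Hilbert cube with given grid coordinates. -/
noncomputable def pt (m : ℕ) (hm : 0 < m) (x : ℕ → ℕ) : ℕ → II := fun k => ⟨gp m (x k), gp_mem m (x k) hm⟩

open Filter Topology in
/-- Poincare-Miranda theorem in the Hilbert cube. -/
theorem miranda (ψ : ℕ → (ℕ → II) → ℝ) (hc : ∀ j, Continuous (ψ j))
    (hpos : ∀ j q, ((q j : II) : ℝ) = 1 → 0 < ψ j q)
    (hneg : ∀ j q, ((q j : II) : ℝ) = -1 → ψ j q < 0) : ∃ q, ∀ j, ψ j q = 0 := by
  classical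
  have main : ∀ m : ℕ, ∃ x : ℕ → ℕ, ∀ i < m + 1, ∃ z z' : ℕ → ℕ,
      (∀ k, x k ≤ z k ∧ z k ≤ x k + 1) ∧ (∀ k, x k ≤ z' k ∧ z' k ≤ x k + 1) ∧
      ψ i (pt (m + 1) (Nat.succ_pos m) z) ≤ 0 ∧ 0 < ψ i (pt (m + 1) (Nat.succ_pos m) z') := by
    intro m
    let a : ℕ → (ℕ → ℕ) → ZMod 2 := fun i x =>
      if 0 < ψ i (pt (m + 1) (Nat.succ_pos m) x) then 1 else 0
    obtain ⟨x, hx⟩ := discrete a (m + 1) (m + 1) (by
      intro i x hi
      have : ψ i (pt (m + 1) (Nat.succ_pos m) x) < 0 := by
        apply hneg
        simp [pt, gp, hi]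
      simp only [a]
      rw [if_neg (not_lt.2 this.le)]) (by
      intro i x hi
      have : 0 < ψ i (pt (m + 1) (Nat.succ_pos m) x) := by
        apply hpos
        have hm' : ((m + 1 : ℕ) : ℝ) ≠ 0 := by positivity
        simp only [pt, gp, hi, min_self]
        field_simp
        norm_num
      simp only [a]
      rw [if_pos this])
    refine ⟨x, fun i hi => ?_⟩
    obtain ⟨z, z', hz, hz', h1, h2⟩ := hx i hi
    refine ⟨z, z', hz, hz', ?_, ?_⟩
    · by_contra h
      simp only [a] at h1
      rw [if_pos (not_le.1 h)] at h1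
      exact one_ne_zero h1
    · by_contra h
      simp only [a] at h2
      rw [if_neg h] at h2
      exact zero_ne_one h2
  choose x hx using main
  let u : ℕ → (ℕ → II) := fun m => pt (m + 1) (Nat.succ_pos m) (x m)
  obtain ⟨q, φ, hφ, hq⟩ := CompactSpace.tendsto_subseq u
  refine ⟨q, fun j => ?_⟩
  -- any nearby sequence converges as well
  have near : ∀ z : ℕ → ℕ → ℕ, (∀ m k, x m k ≤ z m k ∧ z m k ≤ x m k + 1) →
      Tendsto (fun n => pt (φ n + 1) (Nat.succ_pos _) (z (φ n))) atTop (𝓝 q) := by
    intro z hz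
    rw [tendsto_pi_nhds]
    intro k
    have hqk : Tendsto (fun n => u (φ n) k) atTop (𝓝 (q k)) := by
      have := (tendsto_pi_nhds.1 hq) k
      exact this
    rw [tendsto_iff_dist_tendsto_zero] at hqk ⊢
    have hlim : Tendsto (fun n => (2 : ℝ) / ((φ n + 1 : ℕ) : ℝ)) atTop (𝓝 0) := by
      apply Tendsto.div_atTop tendsto_const_nhds
      apply tendsto_natCast_atTop_atTop.comp
      exact (tendsto_add_atTop_nat 1).comp hφ.tendsto_atTop
    have hsum := hlim.add hqk
    rw [add_zero] at hsum
    refine squeeze_zero (fun n => dist_nonneg) (fun n => ?_) hsum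
    calc dist (pt (φ n + 1) (Nat.succ_pos _) (z (φ n)) k) (q k)
        ≤ dist (pt (φ n + 1) (Nat.succ_pos _) (z (φ n)) k) (u (φ n) k) + dist (u (φ n) k) (q k) :=
          dist_triangle _ _ _
      _ ≤ 2 / ((φ n + 1 : ℕ) : ℝ) + dist (u (φ n) k) (q k) := by
          gcongr
          rw [Subtype.dist_eq, Real.dist_eq]
          exact gp_dist (φ n + 1) (x (φ n) k) (z (φ n) k) (Nat.succ_pos _) (hz _ _).1 (hz _ _).2
  -- choose the witnesses
  have hw : ∀ m, ∃ z z' : ℕ → ℕ, (∀ k, x m k ≤ z k ∧ z k ≤ x m k + 1) ∧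
      (∀ k, x m k ≤ z' k ∧ z' k ≤ x m k + 1) ∧ (j < m + 1 →
        ψ j (pt (m + 1) (Nat.succ_pos m) z) ≤ 0 ∧ 0 < ψ j (pt (m + 1) (Nat.succ_pos m) z')) := by
    intro m
    by_cases hj : j < m + 1
    · obtain ⟨z, z', h1, h2, h3, h4⟩ := hx m j hj
      exact ⟨z, z', h1, h2, fun _ => ⟨h3, h4⟩⟩
    · exact ⟨x m, x m, fun k => ⟨le_rfl, Nat.le_succ _⟩, fun k => ⟨le_rfl, Nat.le_succ _⟩,
        fun h => absurd h hj⟩
  choose z z' h1 h2 h3 using hw
  have hev : ∀ᶠ n in atTop, j < φ n + 1 := by
    have := hφ.tendsto_atTop.eventually (eventually_ge_atTop j)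
    filter_upwards [this] with n hn
    omega
  have l1 := ((hc j).tendsto q).comp (near z h1)
  have l2 := ((hc j).tendsto q).comp (near z' h2)
  have b1 : ψ j q ≤ 0 := by
    refine le_of_tendsto l1 ?_
    filter_upwards [hev] with n hn
    exact (h3 (φ n) hn).1
  have b2 : 0 ≤ ψ j q := by
    refine ge_of_tendsto l2 ?_
    filter_upwards [hev] with n hn
    exact (h3 (φ n) hn).2.le
  exact le_antisymm b1 b2

end Pool.Agent.H87.PM
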