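import Mathlib
import Pool.Agent.H87.Borel

/-!
# The transfinite recursion
-/

set_option autoImplicit false

open Set Filter Topology PiNat
open scoped Cardinal

namespace Pool.Agent.H87.Rec

open Pool.Agent.H87.VTop Pool.Agent.H87.Cons

variable {Q : Type} [MetricSpace Q] [CompactSpace Q]

/-- The target of `Phi`. -/
abbrev WW (Q : Type) : Type := ((ℕ → ℕ) × Bool) × ((ℕ → ℕ) × Bool) × Q

section seq

variable (e : ℕ → Q) (q₀ : Q)

/-- the data of one stage -/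
structure Good (w : XX e × XX e) (A : ℕ → Set (XX e × XX e)) (s : ℕ → XX e × XX e) (K j : ℕ → ℕ) :
    Prop where
  mem : ∀ n, s n ∈ A (j n)
  inf : ∀ j0, Phi (iota e) (hh e q₀) w ∈ closure (Phi (iota e) (hh e q₀) '' A j0) →
    ∀ N, ∃ n, N ≤ n ∧ j n = j0
  bool : ∀ n, (s n).1.2 = w.1.2 ∧ (s n).2.2 = w.2.2
  ne : ∀ n, (s n).1.1 ≠ w.1.1 ∧ (s n).2.1 ≠ w.2.1
  le : ∀ n, n ≤ K n
  le1 : ∀ n, K n ≤ firstDiff (s n).1.1.1 w.1.1.1
  le2 : ∀ n, K n ≤ firstDiff (s n).2.1.1 w.2.1.1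
  lt1 : ∀ n, firstDiff (s n).1.1.1 w.1.1.1 < K (n + 1)
  lt2 : ∀ n, firstDiff (s n).2.1.1 w.2.1.1 < K (n + 1)
  lt3 : ∀ n, firstDiff (s n).1.1.1 (s n).2.1.1 < K (n + 1)
  conv1 : ∀ n l, K n ≤ l → dist (eta e q₀ w.1.1.1 l) (lim e w.1.1) ≤ (1 / 2) ^ n
  conv2 : ∀ n l, K n ≤ l → dist (eta e q₀ w.2.1.1 l) (lim e w.2.1) ≤ (1 / 2) ^ n
  hdist : ∀ n, dist (hh e q₀ (s n)) (hh e q₀ w) ≤ (1 / 2) ^ (n + 1)

theorem exists_good (w : XX e × XX e) (A : ℕ → Set (XX e × XX e))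
    (hA : ∀ j, ∀ v ∈ A j, v.1.1 ≠ w.1.1 ∧ v.2.1 ≠ w.2.1)
    (hact : ∃ j, Phi (iota e) (hh e q₀) w ∈ closure (Phi (iota e) (hh e q₀) '' A j)) :
    ∃ s K j, Good e q₀ w A s K j := by
  classical
  -- enumeration of active indices
  let Act : Set ℕ := {j | Phi (iota e) (hh e q₀) w ∈ closure (Phi (iota e) (hh e q₀) '' A j)}
  have hActne : Act.Nonempty := hact
  obtain ⟨g, hg⟩ := (Set.to_countable Act).exists_eq_range hActne
  let j : ℕ → ℕ := fun n => g (Nat.unpair n).1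
  have hj : ∀ n, j n ∈ Act := fun n => by rw [hg]; exact mem_range_self _
  have hjinf : ∀ j0 ∈ Act, ∀ N, ∃ n, N ≤ n ∧ j n = j0 := by
    intro j0 hj0 N
    rw [hg] at hj0
    obtain ⟨k, rfl⟩ := hj0
    exact ⟨Nat.pair k N, Nat.right_le_pair k N, by simp [j]⟩
  -- convergence bounds
  have hconv : ∀ x : ZT e, ∀ n : ℕ, ∃ N, ∀ l, N ≤ l → dist (eta e q₀ x.1 l) (lim e x) ≤ (1 / 2) ^ n := by
    intro x n
    obtain ⟨N, hN⟩ := Metric.tendsto_atTop.1 (eta_tendsto e q₀ x) ((1 / 2) ^ n) (by positivity)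
    exact ⟨N, fun l hl => (hN l hl).le⟩
  choose N hN using hconv
  -- choice of one pair
  have hch : ∀ n K : ℕ, ∃ v ∈ A (j n), v.1.2 = w.1.2 ∧ v.2.2 = w.2.2 ∧
      v.1.1.1 ∈ cylinder w.1.1.1 K ∧ v.2.1.1 ∈ cylinder w.2.1.1 K ∧
      dist (hh e q₀ v) (hh e q₀ w) ≤ (1 / 2) ^ (n + 1) := by
    intro n K
    let O : Set (WW Q) := {u | u.1.2 = w.1.2 ∧ u.2.1.2 = w.2.2 ∧ u.1.1 ∈ cylinder w.1.1.1 K ∧
      u.2.1.1 ∈ cylinder w.2.1.1 K ∧ dist u.2.2 (hh e q₀ w) < (1 / 2) ^ (n + 1)}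
    have hO : IsOpen O := by
      have o1 : IsOpen {u : WW Q | u.1.2 = w.1.2} :=
        (isOpen_discrete {w.1.2}).preimage (continuous_snd.comp continuous_fst)
      have o2 : IsOpen {u : WW Q | u.2.1.2 = w.2.2} :=
        (isOpen_discrete {w.2.2}).preimage (by fun_prop)
      have o3 : IsOpen {u : WW Q | u.1.1 ∈ cylinder w.1.1.1 K} :=
        (isOpen_cylinder _ _ _).preimage (by fun_prop)
      have o4 : IsOpen {u : WW Q | u.2.1.1 ∈ cylinder w.2.1.1 K} :=
        (isOpen_cylinder _ _ _).preimage (by fun_prop)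
      have o5 : IsOpen {u : WW Q | dist u.2.2 (hh e q₀ w) < (1 / 2) ^ (n + 1)} :=
        isOpen_lt (by fun_prop) continuous_const
      exact o1.inter (o2.inter (o3.inter (o4.inter o5)))
    have hwO : Phi (iota e) (hh e q₀) w ∈ O := by
      refine ⟨rfl, rfl, self_mem_cylinder _ _, self_mem_cylinder _ _, ?_⟩
      simp only [Phi, dist_self]
      positivity
    obtain ⟨_, hv1, v, hv, rfl⟩ := mem_closure_iff.1 (hj n) O hO hwO
    exact ⟨v, hv, hv1.1, hv1.2.1, hv1.2.2.1, hv1.2.2.2.1, hv1.2.2.2.2.le⟩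
  choose v hvA hvb1 hvb2 hvc1 hvc2 hvd using hch
  -- the recursion
  let nxt : ℕ → ℕ → ℕ := fun n K =>
    (K + firstDiff (v n K).1.1.1 w.1.1.1 + firstDiff (v n K).2.1.1 w.2.1.1 +
      firstDiff (v n K).1.1.1 (v n K).2.1.1 + 1) + N w.1.1 (n + 1) + N w.2.1 (n + 1)
  let K : ℕ → ℕ := fun n => Nat.rec (N w.1.1 0 + N w.2.1 0) (fun n K => nxt n K) n
  have hK0 : K 0 = N w.1.1 0 + N w.2.1 0 := rfl
  have hK1 : ∀ n, K (n + 1) = nxt n (K n) := fun n => rfl
  let s : ℕ → XX e × XX e := fun n => v n (K n)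
  have hKN1 : ∀ n, N w.1.1 n ≤ K n := by
    intro n
    cases n with
    | zero => rw [hK0]; omega
    | succ n => rw [hK1]; simp only [nxt]; omega
  have hKN2 : ∀ n, N w.2.1 n ≤ K n := by
    intro n
    cases n with
    | zero => rw [hK0]; omega
    | succ n => rw [hK1]; simp only [nxt]; omega
  have hne : ∀ n, (s n).1.1 ≠ w.1.1 ∧ (s n).2.1 ≠ w.2.1 := fun n => hA _ _ (hvA n (K n))
  refine ⟨s, K, j, ⟨fun n => hvA n (K n), hjinf, fun n => ⟨hvb1 _ _, hvb2 _ _⟩, hne, ?_, ?_, ?_, ?_, ?_,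
    ?_, ?_, ?_, fun n => hvd _ _⟩⟩
  · intro n
    induction n with
    | zero => exact Nat.zero_le _
    | succ n ih => rw [hK1]; simp only [nxt]; omega
  · intro n
    exact (mem_cylinder_iff_le_firstDiff (val_ne (hne n).1) _).1 (hvc1 n (K n))
  · intro n
    exact (mem_cylinder_iff_le_firstDiff (val_ne (hne n).2) _).1 (hvc2 n (K n))
  · intro n
    rw [hK1]; simp only [nxt, s]; omega
  · intro n
    rw [hK1]; simp only [nxt, s]; omega
  · intro n
    rw [hK1]; simp only [nxt, s]; omega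
  · intro n l hl
    exact hN _ n l ((hKN1 n).trans hl)
  · intro n l hl
    exact hN _ n l ((hKN2 n).trans hl)

end seq

section pick

variable {e : ℕ → Q} (q₀ : Q)
variable {ι : Type} [LinearOrder ι] [WellFoundedLT ι] (a : ι → ℕ → XX e × XX e)
  (L : ι → Set (WW Q))

/-- coordinates of a sequence -/
def coords (a : ℕ → XX e × XX e) : Set (ℕ → ℕ) := {z | ∃ n, z = (a n).1.1.1 ∨ z = (a n).2.1.1}

/-- coordinates of a pair -/
def parts (o : Option (XX e × XX e)) : Set (ℕ → ℕ) := {z | ∃ w, o = some w ∧ (z = w.1.1.1 ∨ z = w.2.1.1)}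

theorem coords_countable (a : ℕ → XX e × XX e) : (coords a).Countable := by
  have : coords a = range (fun n => (a n).1.1.1) ∪ range (fun n => (a n).2.1.1) := by
    ext z
    simp only [coords, mem_ofPred_eq, mem_union, mem_range]
    constructor
    · rintro ⟨n, h | h⟩
      · exact Or.inl ⟨n, h.symm⟩
      · exact Or.inr ⟨n, h.symm⟩
    · rintro (⟨n, h⟩ | ⟨n, h⟩)
      · exact ⟨n, Or.inl h.symm⟩
      · exact ⟨n, Or.inr h.symm⟩
  rw [this]
  exact (countable_range _).union (countable_range _)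

theorem parts_countable (o : Option (XX e × XX e)) : (parts o).Countable := by
  cases o with
  | none =>
    have : parts (none : Option (XX e × XX e)) = ∅ := by
      ext z; simp [parts]
    rw [this]; exact countable_empty
  | some w =>
    apply (Set.toFinite ({w.1.1.1, w.2.1.1} : Set (ℕ → ℕ))).countable.mono
    rintro z ⟨w', hw', hz⟩
    obtain rfl := Option.some.inj hw'
    simpa using hz

/-- forbidden coordinates -/
def Forb (i : ι) (prev : ∀ j, j < i → Option (XX e × XX e)) : Set (ℕ → ℕ) :=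
  coords (a i) ∪ {z | ∃ j, ∃ h : j < i, z ∈ coords (a j) ∨ z ∈ parts (prev j h)}

open Classical in
/-- the pairs chosen by the recursion -/
noncomputable def pick : ι → Option (XX e × XX e) :=
  WellFounded.fix (wellFounded_lt (α := ι)) (fun i prev =>
    if h : ∃ w, Phi (iota e) (hh e q₀) w ∈ L i ∧ w.1.1.1 ∉ Forb a i prev ∧ w.2.1.1 ∉ Forb a i prev then
      some h.choose else none)

/-- forbidden coordinates -/
def Fb (i : ι) : Set (ℕ → ℕ) := Forb a i (fun j _ => pick q₀ a L j)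

open Classical in
theorem pick_eq (i : ι) : pick q₀ a L i =
    if h : ∃ w, Phi (iota e) (hh e q₀) w ∈ L i ∧ w.1.1.1 ∉ Fb q₀ a L i ∧ w.2.1.1 ∉ Fb q₀ a L i then
      some h.choose else none := by
  unfold pick
  rw [WellFounded.fix_eq]
  rfl

theorem pick_spec (i : ι) (w : XX e × XX e) (h : pick q₀ a L i = some w) :
    Phi (iota e) (hh e q₀) w ∈ L i ∧ w.1.1.1 ∉ Fb q₀ a L i ∧ w.2.1.1 ∉ Fb q₀ a L i := by
  classical
  rw [pick_eq] at h
  split_ifs at h with h'
  obtain rfl := Option.some.inj h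
  exact h'.choose_spec

theorem pick_exists (i : ι)
    (h : ∃ w, Phi (iota e) (hh e q₀) w ∈ L i ∧ w.1.1.1 ∉ Fb q₀ a L i ∧ w.2.1.1 ∉ Fb q₀ a L i) :
    ∃ w, pick q₀ a L i = some w := by
  classical
  rw [pick_eq, dif_pos h]
  exact ⟨_, rfl⟩

theorem mk_Fb_lt (hι : ∀ i : ι, #(Iio i) < 𝔠) (i : ι) : #(Fb q₀ a L i) < 𝔠 := by
  have hsub : Fb q₀ a L i ⊆ coords (a i) ∪ ⋃ j : Iio i, (coords (a j) ∪ parts (pick q₀ a L j)) := by
    rintro z (hz | ⟨j, hj, hz⟩)
    · exact Or.inl hz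
    · right
      rw [mem_iUnion]
      exact ⟨⟨j, hj⟩, hz⟩
  have h1 : #(⋃ j : Iio i, (coords (a j) ∪ parts (pick q₀ a L j)) : Set (ℕ → ℕ)) ≤ #(Iio i) * ℵ₀ := by
    refine (Cardinal.mk_iUnion_le _).trans ?_
    gcongr
    apply ciSup_le'
    intro j
    exact ((coords_countable _).union (parts_countable _)).le_aleph0
  have h2 : #(coords (a i)) ≤ ℵ₀ := (coords_countable _).le_aleph0
  calc #(Fb q₀ a L i) ≤ #(coords (a i) ∪ ⋃ j : Iio i, (coords (a j) ∪ parts (pick q₀ a L j)) : Set (ℕ → ℕ)) :=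
        Cardinal.mk_le_mk_of_subset hsub
    _ ≤ #(coords (a i)) + #(⋃ j : Iio i, (coords (a j) ∪ parts (pick q₀ a L j)) : Set (ℕ → ℕ)) :=
        Cardinal.mk_union_le _ _
    _ ≤ ℵ₀ + #(Iio i) * ℵ₀ := add_le_add h2 h1
    _ < 𝔠 := Cardinal.add_lt_of_lt Cardinal.aleph0_le_continuum Cardinal.aleph0_lt_continuum
        (Cardinal.mul_lt_of_lt Cardinal.aleph0_le_continuum (hι i) Cardinal.aleph0_lt_continuum)

variable (A : ι → ℕ → Set (XX e × XX e))

/-- active stages -/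
def Active (i : ι) (w : XX e × XX e) : Prop :=
  ∃ j, Phi (iota e) (hh e q₀) w ∈ closure (Phi (iota e) (hh e q₀) '' A i j)

/-- The relation `Step`. -/
def Step (s : ι → ℕ → XX e × XX e) (K : ι → ℕ → ℕ) (r : XX e) (n k : ℕ) (t : XX e) : Prop :=
  ∃ i w, pick q₀ a L i = some w ∧ Active q₀ A i w ∧ k = K i (n + 1) ∧
    ((r = w.1 ∧ t = (s i n).1) ∨ (r = w.2 ∧ t = (s i n).2))

theorem pick_unique (i i' : ι) (w w' : XX e × XX e) (h : pick q₀ a L i = some w)
    (h' : pick q₀ a L i' = some w') (z : ℕ → ℕ) (hz : z = w.1.1.1 ∨ z = w.2.1.1)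
    (hz' : z = w'.1.1.1 ∨ z = w'.2.1.1) : i = i' := by
  have key : ∀ (i i' : ι) (w w' : XX e × XX e), pick q₀ a L i = some w →
    pick q₀ a L i' = some w' → (z = w.1.1.1 ∨ z = w.2.1.1) → (z = w'.1.1.1 ∨ z = w'.2.1.1) → ¬ i < i' := by
    intro i i' w w' h h' hz hz' hlt
    have h1 : z ∈ Fb q₀ a L i' := Or.inr ⟨i, hlt, Or.inr ⟨w, h, hz⟩⟩
    obtain ⟨_, h2, h3⟩ := pick_spec q₀ a L i' w' h'
    rcases hz' with h4 | h4
    · exact h2 (h4 ▸ h1)
    · exact h3 (h4 ▸ h1)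
  rcases lt_trichotomy i i' with hlt | heq | hgt
  · exact absurd hlt (key i i' w w' h h' hz hz')
  · exact heq
  · exact absurd hgt (key i' i w' w h' h hz' hz)

theorem stepOK (hAa : ∀ i j, A i j ⊆ range (a i)) (s : ι → ℕ → XX e × XX e) (K j : ι → ℕ → ℕ)
    (hG : ∀ i w, pick q₀ a L i = some w → Active q₀ A i w → Good e q₀ w (A i) (s i) (K i) (j i)) :
    StepOK e q₀ (Step q₀ a L A s K) := by
  classical
  -- children are earlier
  have hr : ∀ (i : ι) (w : XX e × XX e) (r t : XX e) (n : ℕ), 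
      ((r = w.1 ∧ t = (s i n).1) ∨ (r = w.2 ∧ t = (s i n).2)) → (r.1.1 = w.1.1.1 ∨ r.1.1 = w.2.1.1) := by
    rintro i w r t n (⟨h, _⟩ | ⟨h, _⟩)
    · exact Or.inl (by rw [h])
    · exact Or.inr (by rw [h])
  have uniq : ∀ (r r' : XX e) (n n' k k' : ℕ) (t t' : XX e), Step q₀ a L A s K r n k t →
      Step q₀ a L A s K r' n' k' t' → r.1 = r'.1 → ∃ i w, pick q₀ a L i = some w ∧ Active q₀ A i w ∧
      Good e q₀ w (A i) (s i) (K i) (j i) ∧ k = K i (n + 1) ∧ k' = K i (n' + 1) ∧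
      ((r = w.1 ∧ t = (s i n).1) ∨ (r = w.2 ∧ t = (s i n).2)) ∧
      ((r' = w.1 ∧ t' = (s i n').1) ∨ (r' = w.2 ∧ t' = (s i n').2)) := by
    rintro r r' n n' k k' t t' ⟨i, w, h1, h2, h3, h4⟩ ⟨i', w', h1', h2', h3', h4'⟩ hrr
    have h5 := hr i w r t n h4
    have h6 := hr i' w' r' t' n' h4'
    rw [← hrr] at h6
    obtain rfl := pick_unique q₀ a L i i' w w' h1 h1' r.1.1 h5 h6
    rw [h1] at h1'
    obtain rfl := Option.some.inj h1'
    exact ⟨i, w, h1, h2, hG i w h1 h2, h3, h3', h4, h4'⟩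
  have Kmono : ∀ (w : XX e × XX e) (i : ι), Good e q₀ w (A i) (s i) (K i) (j i) →
      ∀ n n', n < n' → K i (n + 1) ≤ K i n' := by
    intro w i hg n n' hnn
    have hst : StrictMono (K i) := strictMono_nat_of_lt_succ (fun m => lt_of_le_of_lt (hg.le1 m) (hg.lt1 m))
    exact hst.monotone hnn
  refine ⟨?_, ?_, ?_, ?_, ?_, ?_, ?_, ?_, ?_, ?_⟩
  · -- fin
    intro r n
    by_cases h : ∃ k t, Step q₀ a L A s K r n k t
    · obtain ⟨k0, t0, h0⟩ := h
      obtain ⟨i, w, h1, h2, h3, h4⟩ := id h0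
      apply Set.Finite.subset (Set.toFinite ({(K i (n + 1), (s i n).1), (K i (n + 1), (s i n).2)} :
        Set (ℕ × XX e)))
      rintro ⟨k, t⟩ hkt
      obtain ⟨i', w', h1', h2', _, h3', h3'', h4', h4''⟩ := uniq r r n n k0 k t0 t h0 hkt rfl
      have h5 := hr i w r t0 n h4
      have h6 := hr i' w' r t n h4''
      obtain rfl := pick_unique q₀ a L i i' w w' h1 h1' r.1.1 h5 h6
      simp only [mem_insert_iff, mem_singleton_iff, Prod.mk.injEq]
      rcases h4'' with ⟨_, h⟩ | ⟨_, h⟩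
      · exact Or.inl ⟨h3'', h⟩
      · exact Or.inr ⟨h3'', h⟩
    · apply Set.Finite.subset Set.finite_empty
      rintro ⟨k, t⟩ hkt
      exact h ⟨k, t, hkt⟩
  · -- bool
    rintro r n k t ⟨i, w, h1, h2, rfl, (⟨rfl, rfl⟩ | ⟨rfl, rfl⟩)⟩
    · exact ((hG i w h1 h2).bool n).1
    · exact ((hG i w h1 h2).bool n).2
  · -- ne
    rintro r n k t ⟨i, w, h1, h2, rfl, (⟨rfl, rfl⟩ | ⟨rfl, rfl⟩)⟩
    · exact ((hG i w h1 h2).ne n).1
    · exact ((hG i w h1 h2).ne n).2
  · -- le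
    rintro r n k t ⟨i, w, h1, h2, rfl, (⟨rfl, rfl⟩ | ⟨rfl, rfl⟩)⟩
    · exact ((hG i w h1 h2).le n).trans ((hG i w h1 h2).le1 n)
    · exact ((hG i w h1 h2).le n).trans ((hG i w h1 h2).le2 n)
  · -- lt
    rintro r n k t ⟨i, w, h1, h2, rfl, (⟨rfl, rfl⟩ | ⟨rfl, rfl⟩)⟩
    · exact (hG i w h1 h2).lt1 n
    · exact (hG i w h1 h2).lt2 n
  · -- nk
    rintro r n k t ⟨i, w, h1, h2, rfl, _⟩
    exact (hG i w h1 h2).le (n + 1)
  · -- conv
    rintro r n k t ⟨i, w, h1, h2, rfl, (⟨rfl, rfl⟩ | ⟨rfl, rfl⟩)⟩ l hl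
    · exact (hG i w h1 h2).conv1 n l (((hG i w h1 h2).le1 n).trans hl)
    · exact (hG i w h1 h2).conv2 n l (((hG i w h1 h2).le2 n).trans hl)
  · -- lt2
    intro r r' n n' k k' t t' hst hst' hrr hnn
    obtain ⟨i, w, h1, h2, hg, h3, h3', h4, h4'⟩ := uniq r r' n n' k k' t t' hst hst' hrr
    have hK := Kmono w i hg n n' hnn
    have hlt : firstDiff t.1.1 r.1.1 < K i (n + 1) := by
      rcases h4 with ⟨rfl, rfl⟩ | ⟨rfl, rfl⟩
      · exact hg.lt1 n
      · exact hg.lt2 n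
    have hge : K i n' ≤ firstDiff t'.1.1 r.1.1 := by
      rw [hrr]
      rcases h4' with ⟨rfl, rfl⟩ | ⟨rfl, rfl⟩
      · exact hg.le1 n'
      · exact hg.le2 n'
    omega
  · -- keq
    intro r r' n k k' t t' hst hst' hrr hb
    obtain ⟨i, w, h1, h2, hg, h3, h3', h4, h4'⟩ := uniq r r' n n k k' t t' hst hst' hrr
    have hpow : ((1 / 2 : ℝ)) ^ (n + 1) ≤ (1 / 2) ^ n :=
      pow_le_pow_of_le_one (by norm_num) (by norm_num) (Nat.le_succ n)
    have hd := hg.hdist n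
    have hbb := hg.bool n
    refine ⟨h3.trans h3'.symm, ?_, ?_⟩
    · intro hne
      rcases h4 with ⟨rfl, rfl⟩ | ⟨rfl, rfl⟩ <;> rcases h4' with ⟨rfl, rfl⟩ | ⟨rfl, rfl⟩
      · exact absurd rfl hb
      · refine ⟨by rw [h3]; exact hg.lt3 n, ?_⟩
        have e1 : hh e q₀ (s i n) = hB e q₀ (s i n).1.1 (s i n).2.1 := by
          simp only [hh]
          rw [if_neg (by rw [hbb.1, hbb.2]; exact hb)]
        have e2 : hh e q₀ w = lim e w.1.1 := by
          simp only [hh]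
          rw [if_neg hb, ← hrr, hB_self]
        rw [e1, e2] at hd
        exact hd.trans hpow
      · refine ⟨by rw [h3, firstDiff_comm]; exact hg.lt3 n, ?_⟩
        have e1 : hh e q₀ (s i n) = hB e q₀ (s i n).1.1 (s i n).2.1 := by
          simp only [hh]
          rw [if_neg (by rw [hbb.1, hbb.2]; exact hb.symm)]
        have e2 : hh e q₀ w = lim e w.2.1 := by
          simp only [hh]
          rw [if_neg hb.symm, ← hrr, hB_self]
        rw [e1, e2] at hd
        rw [hB_symm]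
        exact hd.trans hpow
      · exact absurd rfl hb
    · intro heq
      rcases h4 with ⟨rfl, rfl⟩ | ⟨rfl, rfl⟩ <;> rcases h4' with ⟨rfl, rfl⟩ | ⟨rfl, rfl⟩
      · exact absurd rfl hb
      · have e1 : hh e q₀ (s i n) = lim e (s i n).1.1 := by
          simp only [hh]
          rw [if_neg (by rw [hbb.1, hbb.2]; exact hb), ← heq, hB_self]
        have e2 : hh e q₀ w = lim e w.1.1 := by
          simp only [hh]
          rw [if_neg hb, ← hrr, hB_self]
        rw [e1, e2] at hd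
        exact hd
      · have e1 : hh e q₀ (s i n) = lim e (s i n).2.1 := by
          simp only [hh]
          rw [if_neg (by rw [hbb.1, hbb.2]; exact hb.symm), ← heq, hB_self]
        have e2 : hh e q₀ w = lim e w.2.1 := by
          simp only [hh]
          rw [if_neg hb.symm, ← hrr, hB_self]
        rw [e1, e2] at hd
        exact hd
      · exact absurd rfl hb
  · -- wf
    have hacc : ∀ i : ι, ∀ w, pick q₀ a L i = some w → ∀ r : XX e, (r.1.1 = w.1.1.1 ∨ r.1.1 = w.2.1.1) →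
        Acc (fun t r => ∃ n k, Step q₀ a L A s K r n k t) r := by
      intro i
      induction i using (wellFounded_lt (α := ι)).induction with
      | _ i ih =>
        intro w hw r hrw
        constructor
        rintro t ⟨n, k, i', w', h1, h2, h3, h4⟩
        have h6 := hr i' w' r t n h4
        obtain rfl := pick_unique q₀ a L i i' w w' hw h1 r.1.1 hrw h6
        rw [hw] at h1
        obtain rfl := Option.some.inj h1
        have hg := hG i w hw h2
        -- t has coordinates in coords (a i)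
        have ht : t.1.1 ∈ coords (a i) := by
          obtain ⟨m, hm⟩ := hAa i _ (hg.mem n)
          rcases h4 with ⟨_, rfl⟩ | ⟨_, rfl⟩
          · exact ⟨m, Or.inl (by rw [hm])⟩
          · exact ⟨m, Or.inr (by rw [hm])⟩
        -- is t part of some pick?
        by_cases hp : ∃ i' w', pick q₀ a L i' = some w' ∧ (t.1.1 = w'.1.1.1 ∨ t.1.1 = w'.2.1.1)
        · obtain ⟨i', w', hp1, hp2⟩ := hp
          have hlt : i' < i := by
            rcases lt_trichotomy i' i with h | h | h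
            · exact h
            · exfalso
              subst h
              have h5 : t.1.1 ∈ Fb q₀ a L i' := Or.inl ht
              obtain ⟨_, h7, h8⟩ := pick_spec q₀ a L i' w' hp1
              rcases hp2 with h9 | h9
              · exact h7 (h9 ▸ h5)
              · exact h8 (h9 ▸ h5)
            · exfalso
              have h5 : t.1.1 ∈ Fb q₀ a L i' := Or.inr ⟨i, h, Or.inl ht⟩
              obtain ⟨_, h7, h8⟩ := pick_spec q₀ a L i' w' hp1
              rcases hp2 with h9 | h9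
              · exact h7 (h9 ▸ h5)
              · exact h8 (h9 ▸ h5)
          exact ih i' hlt w' hp1 t hp2
        · constructor
          rintro t' ⟨n', k', i'', w'', h1'', _, _, h4''⟩
          exact absurd ⟨i'', w'', h1'', hr i'' w'' t t' n' h4''⟩ hp
    constructor
    intro r
    by_cases hp : ∃ i w, pick q₀ a L i = some w ∧ (r.1.1 = w.1.1.1 ∨ r.1.1 = w.2.1.1)
    · obtain ⟨i, w, h1, h2⟩ := hp
      exact hacc i w h1 r h2
    · constructor
      rintro t ⟨n, k, i, w, h1, _, _, h4⟩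
      exact absurd ⟨i, w, h1, hr i w r t n h4⟩ hp

end pick

end Pool.Agent.H87.Rec
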