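import Mathlib
import Pool.Agent.H87.Rec
import Pool.Agent.H87.NotCD
import Pool.Agent.H87.Fusion
import Pool.Agent.H87.PM

/-!
# Assembly
-/

set_option autoImplicit false

open Set Filter Topology PiNat TopologicalSpace
open scoped Cardinal

namespace Pool.Agent.H87.Main

open Pool.Agent.H87.VTop Pool.Agent.H87.Cons Pool.Agent.H87.Rec Pool.Agent.H87.Nerve

variable {Q : Type} [MetricSpace Q] [CompactSpace Q]

/-- requirements -/
structure Req (e : ℕ → Q) where
  a : ℕ → XX e × XX e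
  M : ℕ → Set ℕ
  c : Set ℕ

theorem mk_XX_le (e : ℕ → Q) : #(XX e) ≤ 𝔠 := by
  refine (Cardinal.mk_le_of_injective (iota_injective e)).trans ?_
  simp [Cardinal.mk_prod]

theorem mk_Req_le (e : ℕ → Q) : #(Req e) ≤ 𝔠 := by
  have h1 : Function.Injective (fun R : Req e => (R.a, R.M, R.c)) := by
    rintro ⟨a, M, c⟩ ⟨a', M', c'⟩ h
    simp only [Prod.mk.injEq] at h
    obtain ⟨rfl, rfl, rfl⟩ := h
    rfl
  refine (Cardinal.mk_le_of_injective h1).trans ?_
  have h2 : #(XX e × XX e) ≤ 𝔠 := by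
    rw [Cardinal.mk_prod, Cardinal.lift_id]
    exact (mul_le_mul' (mk_XX_le e) (mk_XX_le e)).trans (by simp)
  have h3 : #(ℕ → XX e × XX e) ≤ 𝔠 := by
    have : #(ℕ → XX e × XX e) = #(XX e × XX e) ^ (ℵ₀ : Cardinal.{0}) := by
      rw [Cardinal.mk_arrow]; simp
    rw [this]
    exact (Cardinal.power_le_power_right h2).trans (by simp)
  have h4 : #(Set ℕ) = 𝔠 := by simp
  have h5 : #(ℕ → Set ℕ) = 𝔠 := by
    have : #(ℕ → Set ℕ) = #(Set ℕ) ^ (ℵ₀ : Cardinal.{0}) := by
      rw [Cardinal.mk_arrow]; simp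
    rw [this, h4]
    simp
  rw [Cardinal.mk_prod, Cardinal.lift_id, Cardinal.lift_id, Cardinal.mk_prod, Cardinal.lift_id,
    Cardinal.lift_id, h4, h5]
  exact (mul_le_mul' h3 le_rfl).trans (by simp)

theorem exists_space (e : ℕ → Q) (q₀ : Q) : ∃ t : TopologicalSpace (XX e),
    (∀ x : XX e, ∃ V : ℕ → Set (XX e), (∀ n, IsClopen (V n)) ∧ (𝓝 x).HasBasis (fun _ => True) V) ∧
    Continuous (iota e) ∧ Continuous (hh e q₀) ∧ RProp (iota e) (hh e q₀) := by
  classical
  obtain ⟨inst, wf, hord⟩ := Cardinal.exists_ord_eq_type_lt (Req e)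
  have hIio : ∀ i : Req e, #(Iio i) < 𝔠 := by
    intro i
    have h1 := Cardinal.card_typein_lt (r := ((· < ·) : Req e → Req e → Prop)) i hord
    rw [Ordinal.card_typein] at h1
    exact lt_of_lt_of_le h1 (mk_Req_le e)
  -- basis
  obtain ⟨B, hBc, -, hB⟩ := exists_countable_basis (WW Q)
  have hBne : B.Nonempty := by
    by_contra h
    rw [not_nonempty_iff_eq_empty] at h
    have h1 := hB.sUnion_eq
    rw [h, sUnion_empty] at h1
    have h2 : (((fun _ => 0, true), (fun _ => 0, true), q₀) : WW Q) ∈ (univ : Set (WW Q)) := mem_univ _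
    rw [← h1] at h2
    exact h2
  obtain ⟨b, rfl⟩ := hBc.exists_eq_range hBne
  let Lc : Set ℕ → Set (WW Q) := fun c => ⋂ n ∈ c, (b n)ᶜ
  have hLc : ∀ L : Set (WW Q), IsClosed L → Lc {n | Disjoint (b n) L} = L := by
    intro L hL
    ext x
    simp only [Lc, mem_iInter, mem_ofPred_eq, mem_compl_iff]
    constructor
    · intro h
      by_contra hx
      obtain ⟨_, ⟨n, rfl⟩, hxn, hn⟩ := hB.exists_subset_of_mem_open (show x ∈ Lᶜ from hx) hL.isOpen_compl
      exact h n (disjoint_left.2 (fun y hy hyL => hn hy hyL)) hxn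
    · intro hx n hn hxn
      exact disjoint_left.1 hn hxn hx
  let A : Req e → ℕ → Set (XX e × XX e) := fun i j => i.a '' (i.M j)
  let a : Req e → ℕ → XX e × XX e := fun i => i.a
  let L : Req e → Set (WW Q) := fun i => Lc i.c
  -- stage data
  have hdata : ∀ i : Req e, ∃ (s : ℕ → XX e × XX e) (K j : ℕ → ℕ), ∀ w, pick q₀ a L i = some w →
      Active q₀ A i w → Good e q₀ w (A i) s K j := by
    intro i
    by_cases h : ∃ w, pick q₀ a L i = some w ∧ Active q₀ A i w
    · obtain ⟨w, hw, hact⟩ := h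
      obtain ⟨_, hn1, hn2⟩ := pick_spec q₀ a L i w hw
      obtain ⟨s, K, j, hg⟩ := exists_good e q₀ w (A i) (by
        rintro j _ ⟨n, _, rfl⟩
        constructor
        · intro heq
          apply hn1
          exact Or.inl ⟨n, Or.inl (by rw [← heq])⟩
        · intro heq
          apply hn2
          exact Or.inl ⟨n, Or.inr (by rw [← heq])⟩) hact
      refine ⟨s, K, j, fun w' hw' _ => ?_⟩
      rw [hw] at hw'
      obtain rfl := Option.some.inj hw'
      exact hg
    · exact ⟨i.a, fun _ => 0, fun _ => 0, fun w hw hact => absurd ⟨w, hw, hact⟩ h⟩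
  choose s K j hG using hdata
  have hS : StepOK e q₀ (Step q₀ a L A s K) := by
    apply stepOK q₀ a L A _ s K j hG
    rintro i j _ ⟨n, _, rfl⟩
    exact mem_range_self n
  refine ⟨top (Step q₀ a L A s K), ?_, continuous_iota hS, continuous_hh hS, ?_⟩
  · intro x
    exact ⟨fun m => {y | Mem (Step q₀ a L A s K) x m y}, isClopen_V hS x, nhds_basis hS x⟩
  · intro A' hA'c L' hL' hlarge
    let : TopologicalSpace (XX e) := top (Step q₀ a L A s K)
    by_cases hD : (⋃ j, A' j).Nonempty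
    · obtain ⟨a', ha'⟩ := (countable_iUnion hA'c).exists_eq_range hD
      let i : Req e := ⟨a', fun j => {n | a' n ∈ A' j}, {n | Disjoint (b n) L'}⟩
      have hAi : ∀ j, A i j = A' j := by
        intro j
        ext v
        constructor
        · rintro ⟨n, hn, rfl⟩
          exact hn
        · intro hv
          have : v ∈ range a' := by rw [← ha']; exact mem_iUnion.2 ⟨j, hv⟩
          obtain ⟨n, rfl⟩ := this
          exact ⟨n, hv, rfl⟩
      have hLi : L i = L' := hLc L' hL'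
      obtain ⟨w, hw⟩ := pick_exists q₀ a L i (by
        rw [hLi]
        exact Borel.exists_new e q₀ L' hL' hlarge _ (mk_Fb_lt q₀ a L hIio i))
      obtain ⟨hwL, _⟩ := pick_spec q₀ a L i w hw
      rw [hLi] at hwL
      refine ⟨w, hwL, fun j0 hj0 => ?_⟩
      have hact : Active q₀ A i w := ⟨j0, by rw [hAi]; exact hj0⟩
      have hg := hG i w hw hact
      have hb : (𝓝 w).HasBasis (fun _ : ℕ × ℕ => True ∧ True) (fun m =>
          {y | Mem (Step q₀ a L A s K) w.1 m.1 y} ×ˢ {y | Mem (Step q₀ a L A s K) w.2 m.2 y}) := by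
        have h1 : 𝓝 w = 𝓝 w.1 ×ˢ 𝓝 w.2 := by rw [← nhds_prod_eq]
        rw [h1]
        exact (nhds_basis hS w.1).prod (nhds_basis hS w.2)
      rw [mem_closure_iff_nhds_basis hb]
      rintro ⟨m1, m2⟩ _
      obtain ⟨n, hn, hjn⟩ := hg.inf j0 (by rw [hAi]; exact hj0) (max m1 m2)
      have hmem := hg.mem n
      rw [hjn, hAi] at hmem
      refine ⟨s i n, hmem, ?_, ?_⟩
      · exact Mem.step _ _ n (K i (n + 1)) _ _ ((le_max_left _ _).trans hn)
          ⟨i, w, hw, hact, rfl, Or.inl ⟨rfl, rfl⟩⟩ (Mem.self _ _)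
      · exact Mem.step _ _ n (K i (n + 1)) _ _ ((le_max_right _ _).trans hn)
          ⟨i, w, hw, hact, rfl, Or.inr ⟨rfl, rfl⟩⟩ (Mem.self _ _)
    · -- no sets at all
      have hne : ∃ w, Phi (iota e) (hh e q₀) w ∈ L' := by
        by_contra hcon
        push Not at hcon
        exact hlarge ⟨∅, countable_empty, fun w hw => absurd hw (hcon w)⟩
      obtain ⟨w, hw⟩ := hne
      refine ⟨w, hw, fun j0 hj0 => ?_⟩
      have h1 : A' j0 = ∅ := by
        rw [eq_empty_iff_forall_notMem]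
        intro v hv
        exact hD ⟨v, mem_iUnion.2 ⟨j0, hv⟩⟩
      rw [h1, image_empty, closure_empty] at hj0
      exact absurd hj0 (notMem_empty _)

theorem isTopologicalBasis_clopen : IsTopologicalBasis {s : Set ((ℕ → ℕ) × Bool) | IsClopen s} := by
  apply isTopologicalBasis_of_isOpen_of_nhds
  · intro s hs
    exact hs.isOpen
  · rintro ⟨x, c⟩ O hx hO
    obtain ⟨U, V, hU, hV, hxU, hcV, hUV⟩ := isOpen_prod_iff.1 hO x c hx
    have hU' : U ∈ 𝓝 x := hU.mem_nhds hxU
    rw [nhds_pi] at hU'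
    obtain ⟨I, hI, t, ht, hsub⟩ := Filter.mem_pi.1 hU'
    refine ⟨(I.pi (fun i => {x i})) ×ˢ {c}, ?_, ?_, ?_⟩
    · apply IsClopen.prod
      · exact ⟨isClosed_set_pi (fun i _ => isClosed_discrete _), isOpen_set_pi hI (fun i _ => isOpen_discrete _)⟩
      · exact isClopen_discrete _
    · exact ⟨fun i _ => rfl, rfl⟩
    · rintro ⟨y, d⟩ ⟨hy, hd⟩
      apply hUV
      refine ⟨hsub (fun i hi => ?_), ?_⟩
      · have : y i = x i := hy i hi
        show y i ∈ t i
        rw [this]
        exact mem_of_mem_nhds (ht i)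
      · have : d = c := hd
        show d ∈ V
        rw [this]; exact hcV

/-- The final theorem over an abstract strongly infinite dimensional compactum. -/
theorem final (c : ℕ → Q → ℝ) (hc : ∀ j, Continuous (c j)) (hc1 : ∀ j, ∃ q, c j q = 1)
    (hcm1 : ∀ j, ∃ q, c j q = -1)
    (hPM : ∀ ψ : ℕ → Q → ℝ, (∀ j, Continuous (ψ j)) → (∀ j q, c j q = 1 → 0 < ψ j q) →
      (∀ j q, c j q = -1 → ψ j q < 0) → ∃ q, ∀ j, ψ j q = 0) :
    ∃ (X : Type) (_ : TopologicalSpace X), T35Space X ∧ NormalSpace (X × X) ∧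
      (∀ (m : ℕ) (U : Fin m → Set X),
        (∀ i, ∃ f : X → ℝ, Continuous f ∧ U i = {x | f x ≠ 0}) →
        (⋃ i, U i) = Set.univ →
        ∃ (k : ℕ) (V : Fin k → Set X),
          (∀ j, ∃ f : X → ℝ, Continuous f ∧ V j = {x | f x ≠ 0}) ∧
          (⋃ j, V j) = Set.univ ∧
          (∀ j, ∃ i, V j ⊆ U i) ∧
          ∀ x, {j : Fin k | x ∈ V j}.ncard ≤ 1) ∧
      ¬ ∃ A : ℕ → Set (X × X), (⋃ k, A k) = Set.univ ∧ ∀ k, ∃ n : ℕ, DimLE (A k) n := by
  classical
  obtain ⟨q₀, _⟩ := hc1 0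
  have : Nonempty Q := ⟨q₀⟩
  let e : ℕ → Q := fun i => denseSeq Q (Nat.unpair i).1
  have he : ∀ O : Set Q, IsOpen O → O.Nonempty → {i | e i ∈ O}.Infinite := by
    intro O hO hne
    obtain ⟨n, hn⟩ := (denseRange_denseSeq Q).exists_mem_open hO hne
    have hinj : Function.Injective (fun k => Nat.pair n k) := by
      intro k l hkl
      have := congrArg (fun m => (Nat.unpair m).2) hkl
      simpa using this
    apply (Set.infinite_range_of_injective hinj).mono
    rintro _ ⟨k, rfl⟩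
    simp only [mem_ofPred_eq, e, Nat.unpair_pair]
    exact hn
  obtain ⟨t, hV, hι, hhc, hR⟩ := exists_space e q₀
  have hdiag : ∀ p : XX e, hh e q₀ (p, p) = q₀ := fun p => by simp [hh]
  have hinj := iota_injective e
  have hT2 : T2Space (XX e) := T2Space.of_injective_continuous hinj hι
  have hN : NormalSpace (XX e) := normal isTopologicalBasis_clopen hι hinj hR q₀ hdiag hV
  refine ⟨XX e, t, inferInstance, ?_, ?_, ?_⟩
  · exact normal_sq isTopologicalBasis_clopen hι hhc hinj hR q₀ hdiag hV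
  · intro m U hU hcov
    have hUo : ∀ i, IsOpen (U i) := by
      intro i
      obtain ⟨f, hf, hfU⟩ := hU i
      rw [hfU]
      exact isOpen_ne_fun hf continuous_const
    obtain ⟨V, hVc, hVcov, hVU, hVd⟩ := clopen_partition isTopologicalBasis_clopen hι hinj hR q₀ hdiag
      hV m U hUo hcov
    refine ⟨m, V, ?_, hVcov, fun j => ⟨j, hVU j⟩, ?_⟩
    · intro j
      refine ⟨(V j).indicator (fun _ => (1 : ℝ)), ?_, ?_⟩
      · apply Continuous.indicator _ continuous_const
        rw [(hVc j).frontier_eq]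
        simp
      · ext x
        simp [Set.indicator_apply]
    · intro x
      rw [Set.ncard_le_one_iff]
      intro i j hi hj
      by_contra hij
      exact disjoint_left.1 (hVd i j hij) hi hj
  · rintro ⟨A, hAcov, hAdim⟩
    refine NotCD.notCD (Z := ZT e) (iota e) (hh e q₀) hhc hR
      (fun x => (((x, false) : ZT e × Bool), ((x, true) : ZT e × Bool))) (fun x => x.1) (lim e)
      ?_ ?_ ?_ ?_ ?_ c hc hc1 hcm1 hPM A hAcov hAdim
    · intro x
      simp only [Phi, iota, NotCD.kappa, hh]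
      rw [if_neg (by simp), hB_self]
    · rintro ⟨⟨x, b1⟩, ⟨y, b2⟩⟩ ⟨z1, z2⟩ h
      simp only [Phi, iota, NotCD.kappa, Prod.mk.injEq] at h
      obtain ⟨⟨h1, h2⟩, ⟨h3, h4⟩, _⟩ := h
      refine ⟨x, ?_⟩
      have hxy : x = y := Subtype.ext (h1.trans h3.symm)
      subst hxy; subst h2; subst h4
      rfl
    · intro x y h
      exact congrArg (fun p : ZT e × Bool => p.1) h
    · intro x y h
      exact congrArg (fun p : ZT e × Bool => p.1) h
    · intro L hL hproj hcount
      apply Fusion.uncountable e he L hL hproj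
      have hsub : {x : ℕ → ℕ | ∃ q, Tendsto (fun n => e (x n)) atTop (𝓝 q) ∧ (x, q) ∈ L} ⊆
          (fun x : ZT e => x.1) '' {x : ZT e | (x.1, lim e x) ∈ L} := by
        rintro x ⟨q, hq, hxq⟩
        refine ⟨⟨x, q, hq⟩, ?_, rfl⟩
        have : lim e ⟨x, q, hq⟩ = q := tendsto_nhds_unique (lim_spec e _) hq
        simp only [mem_ofPred_eq, this]
        exact hxq
      exact (hcount.image _).mono hsub

end Pool.Agent.H87.Main
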